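import Pool.Agent.W24.Katai
import Pool.Agent.Helper188.NCM.Stmts

/-! The criterion of Katai, Bourgain, Sarnak and Ziegler, uniform in a parameter. -/

set_option autoImplicit false
set_option linter.unusedSectionVars false

namespace Pool.Agent.W726.NS

open Finset Pool.Agent.W24.Katai Pool.Agent.Helper188.NCM

lemma katai_core {ε : ℝ} (hε : 0 < ε) : ∃ P : Finset ℕ, (∀ p ∈ P, p.Prime) ∧ ∃ δ : ℝ, 0 < δ ∧
    ∀ K1 : ℝ, 0 ≤ K1 → ∃ N0 : ℕ, ∀ N : ℕ, N0 ≤ N → ∀ F : ℕ → ℂ, (∀ n, ‖F n‖ ≤ 1) →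
      ∀ g : ℕ → ℂ, Mul1 g →
      (∀ p ∈ P, ∀ q ∈ P, p ≠ q → ∀ M : ℕ, M ≤ N → ‖cor F p q M‖ ≤ δ * N + K1) →
      ‖∑ n ∈ Ioc 0 N, g n * F n‖ ≤ ε * N := by
  obtain ⟨P, hP, hS⟩ := exists_SS (max 1 (64 / ε^2))
  have hS1 : 1 ≤ SS P := (le_max_left _ _).trans hS
  have hS2 : 64 / ε^2 ≤ SS P := (le_max_right _ _).trans hS
  set S := SS P with hSdef
  have hS0 : 0 < S := by linarith
  set c : ℝ := (P.card : ℝ) with hc
  have hc0 : 0 ≤ c := Nat.cast_nonneg _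
  refine ⟨P, hP, 1 / (c^2 + 1), by positivity, fun K1 hK1 => ?_⟩
  obtain ⟨N1, hN1⟩ := exists_nat_ge (c^2 * K1)
  obtain ⟨N2, hN2⟩ := exists_nat_ge (2 * c)
  refine ⟨max N1 N2, fun N hN F hF g hg h2 => ?_⟩
  have hNN1 : c^2 * K1 ≤ N := hN1.trans (by exact_mod_cast (le_max_left _ _).trans hN)
  have hNN2 : 2 * c ≤ N := hN2.trans (by exact_mod_cast (le_max_right _ _).trans hN)
  have hN0 : (0:ℝ) ≤ N := Nat.cast_nonneg N
  have s1 := step1 hP hF hg N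
  have s2 := step2 hP hF hg N
  have s5 := step5 hP hF hg N (B := 1 / (c^2 + 1) * N + K1) (by positivity)
    (fun p hp q hq hne M hM => h2 p hp q hq hne M hM)
  have s6 := sum_inv_sq_le hP
  rw [← hSdef, ← hc] at s1 s5
  -- the square roots
  have hsS : √S ≤ S := by
    rw [Real.sqrt_le_left hS0.le]; nlinarith
  have hs1 : 1 ≤ √S := by rw [Real.one_le_sqrt]; exact hS1
  have r1 : √(N * (N * S + 2 * S * c)) ≤ 2 * √S * N := by
    rw [Real.sqrt_le_left (by positivity)]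
    have : (2 * √S * N)^2 = 4 * S * N^2 := by
      rw [mul_pow, mul_pow, Real.sq_sqrt hS0.le]; ring
    rw [this]
    have : 2 * S * c ≤ S * N := by nlinarith
    nlinarith [mul_le_mul_of_nonneg_left this hN0]
  have r5 : √(N * (N * S + c^2 * (1 / (c^2 + 1) * N + K1))) ≤ 2 * √S * N := by
    rw [Real.sqrt_le_left (by positivity)]
    have : (2 * √S * N)^2 = 4 * S * N^2 := by
      rw [mul_pow, mul_pow, Real.sq_sqrt hS0.le]; ring
    rw [this]
    have e1 : c^2 * (1 / (c^2 + 1) * N) ≤ N := by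
      have : c^2 / (c^2+1) ≤ 1 := by rw [div_le_one (by positivity)]; linarith
      calc c^2 * (1 / (c^2 + 1) * (N:ℝ)) = c^2 / (c^2+1) * (N:ℝ) := by ring
        _ ≤ 1 * (N:ℝ) := by gcongr
        _ = N := one_mul _
    have e2 : N * S + c^2 * (1 / (c^2 + 1) * N + K1) ≤ 3 * S * N := by nlinarith
    nlinarith [mul_le_mul_of_nonneg_left e2 hN0, mul_nonneg hS0.le (sq_nonneg (N:ℝ))]
  have t1 : ‖(S : ℂ) * ∑ n ∈ Ioc 0 N, g n * F n‖ ≤ 2 * √S * N + 2 * N + 2 * √S * N := by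
    have e1 : (S : ℂ) * ∑ n ∈ Ioc 0 N, g n * F n =
        ((S : ℂ) * ∑ n ∈ Ioc 0 N, g n * F n - ∑ p ∈ P, ∑ m ∈ Ioc 0 (N / p), g (p * m) * F (p * m)) +
        (∑ p ∈ P, ∑ m ∈ Ioc 0 (N / p), g (p * m) * F (p * m) -
      ∑ p ∈ P, ∑ m ∈ Ioc 0 (N / p), g p * g m * F (p * m)) +
        ∑ p ∈ P, ∑ m ∈ Ioc 0 (N / p), g p * g m * F (p * m) := by ring
    rw [e1]
    refine (norm_add_le _ _).trans ?_
    refine (add_le_add (norm_add_le _ _) le_rfl).trans ?_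
    have : 2 * (N:ℝ) * ∑ p ∈ P, 1 / (p:ℝ)^2 ≤ 2 * N * 1 := by gcongr
    linarith
  rw [norm_mul, Complex.norm_real, Real.norm_eq_abs, abs_of_pos hS0] at t1
  have t2 : S * ‖∑ n ∈ Ioc 0 N, g n * F n‖ ≤ 8 * √S * N := by nlinarith
  have t3 : √S * ‖∑ n ∈ Ioc 0 N, g n * F n‖ ≤ 8 * N := by
    have e1 : S = √S * √S := (Real.mul_self_sqrt hS0.le).symm
    have hs0 : 0 < √S := by linarith
    have : √S * (√S * ‖∑ n ∈ Ioc 0 N, g n * F n‖) ≤ √S * (8 * N) := by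
      calc √S * (√S * ‖∑ n ∈ Ioc 0 N, g n * F n‖) = S * ‖∑ n ∈ Ioc 0 N, g n * F n‖ := by
            rw [← mul_assoc, ← e1]
        _ ≤ 8 * √S * N := t2
        _ = _ := by ring
    exact le_of_mul_le_mul_left this hs0
  have t4 : 8 / ε ≤ √S := by
    apply Real.le_sqrt_of_sq_le
    refine le_trans (le_of_eq ?_) hS2
    rw [div_pow]; norm_num
  have t5 : 8 / ε * ‖∑ n ∈ Ioc 0 N, g n * F n‖ ≤ 8 * N :=
    (mul_le_mul_of_nonneg_right t4 (norm_nonneg _)).trans t3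
  have t6 : ‖∑ n ∈ Ioc 0 N, g n * F n‖ = ε / 8 * (8 / ε * ‖∑ n ∈ Ioc 0 N, g n * F n‖) := by
    field_simp
  rw [t6]
  calc ε / 8 * (8 / ε * ‖∑ n ∈ Ioc 0 N, g n * F n‖) ≤ ε / 8 * (8 * N) := by gcongr
    _ = ε * N := by ring


theorem kbsz : KBSZ := by
  intro ι f hf hpq ε hε
  obtain ⟨P, hP, δ, hδ, hcore⟩ := katai_core hε
  have h1 : ∀ p ∈ P, ∀ q ∈ P, p ≠ q → ∃ K : ℕ, ∀ M ≥ K, ∀ i,
      ‖∑ n ∈ range M, f i (p * n) * star (f i (q * n))‖ ≤ δ * M :=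
    fun p hp q hq hne => hpq p q (hP p hp) (hP q hq) hne δ hδ
  choose! K hK using h1
  set K0 : ℕ := ∑ p ∈ P, ∑ q ∈ P, K p q with hK0
  obtain ⟨N0, hN0⟩ := hcore (δ + 1 + K0) (by positivity)
  refine ⟨N0 + 1, fun N hN i => ?_⟩
  have hmul : Mul1 mob := by
    refine ⟨fun n => ?_, fun m n hmn => ?_⟩
    · rw [mob, Complex.norm_intCast]
      have := ArithmeticFunction.abs_moebius_le_one (n := n)
      exact_mod_cast this
    · rw [mob, mob, mob, ArithmeticFunction.isMultiplicative_moebius.map_mul_of_coprime hmn]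
      push_cast; ring
  have hcor : ∀ p ∈ P, ∀ q ∈ P, p ≠ q → ∀ M : ℕ, M ≤ N - 1 →
      ‖cor (f i) p q M‖ ≤ δ * ((N - 1 : ℕ) : ℝ) + (δ + 1 + K0) := by
    intro p hp q hq hne M hM
    have hMr : (M : ℝ) ≤ ((N - 1 : ℕ) : ℝ) := by exact_mod_cast hM
    have hKle : K p q ≤ K0 := by
      calc K p q ≤ ∑ q ∈ P, K p q :=
            Finset.single_le_sum (f := fun q => K p q) (fun _ _ => Nat.zero_le _) hq
        _ ≤ K0 := Finset.single_le_sum (f := fun p => ∑ q ∈ P, K p q)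
            (fun _ _ => Nat.zero_le _) hp
    have hKr : (K p q : ℝ) ≤ K0 := by exact_mod_cast hKle
    have hterm : ∀ n, ‖f i (p * n) * star (f i (q * n))‖ ≤ 1 := by
      intro n
      rw [norm_mul, norm_star]
      calc _ ≤ (1 : ℝ) * 1 := by gcongr <;> exact hf _ _
        _ = 1 := one_mul _
    have hδM : δ * (M : ℝ) ≤ δ * ((N - 1 : ℕ) : ℝ) := by gcongr
    by_cases hMK : K p q ≤ M + 1
    · have e : cor (f i) p q M =
          ∑ n ∈ range (M + 1), f i (p * n) * star (f i (q * n)) -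
            f i (p * 0) * star (f i (q * 0)) := by
        rw [range_eq_Ico, sum_eq_sum_Ico_succ_bot (Nat.succ_pos M), add_sub_cancel_left]
        rfl
      rw [e]
      have h2 := hK p hp q hq hne (M + 1) hMK i
      have h3 := hterm 0
      refine (norm_sub_le _ _).trans ?_
      push_cast at h2
      have : (0 : ℝ) ≤ K0 := Nat.cast_nonneg _
      nlinarith
    · push Not at hMK
      have hb : ‖cor (f i) p q M‖ ≤ M := by
        unfold cor
        refine (norm_sum_le _ _).trans ?_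
        calc _ ≤ ∑ m ∈ Ioc 0 M, (1 : ℝ) := Finset.sum_le_sum fun m _ => hterm m
          _ = _ := by simp
      have h4 : (M : ℝ) ≤ K p q := by exact_mod_cast (by omega : M ≤ K p q)
      have : (0 : ℝ) ≤ δ * ((N - 1 : ℕ) : ℝ) := by positivity
      linarith
  have h5 := hN0 (N - 1) (by omega) (f i) (hf i) mob hmul hcor
  have e : ∑ n ∈ range N, mob n * f i n = ∑ n ∈ Ioc 0 (N - 1), mob n * f i n := by
    obtain ⟨k, rfl⟩ : ∃ k, N = k + 1 := ⟨N - 1, by omega⟩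
    rw [range_eq_Ico, sum_eq_sum_Ico_succ_bot (Nat.succ_pos k)]
    have : mob 0 = 0 := by simp [mob]
    rw [this, zero_mul, zero_add]
    rfl
  rw [e]
  refine h5.trans ?_
  have : ((N - 1 : ℕ) : ℝ) ≤ N := by exact_mod_cast Nat.sub_le N 1
  gcongr

end Pool.Agent.W726.NS
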