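import Pool.Agent.W726.NS.Blocks
import Pool.Agent.Helper188.NCM.QMAll

/-! Weyl sums of degree two and residue classes. -/

set_option autoImplicit false
set_option linter.unusedSectionVars false

namespace Pool.Agent.W726.NS

open Finset Pool.Agent.Helper188.NCM

lemma ee_eq_one_iff (x : ℝ) : ee x = 1 ↔ ∃ n : ℤ, x = n := by
  rw [ee, Complex.exp_eq_one_iff]
  constructor
  · rintro ⟨n, hn⟩
    refine ⟨n, ?_⟩
    have h2 : (2 * Real.pi * Complex.I : ℂ) ≠ 0 := Complex.two_pi_I_ne_zero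
    have h3 : (2 * Real.pi * Complex.I : ℂ) * x = (2 * Real.pi * Complex.I : ℂ) * n := by
      rw [hn]; ring
    have h4 := mul_left_cancel₀ h2 h3
    exact_mod_cast h4
  · rintro ⟨n, rfl⟩
    exact ⟨n, by push_cast; ring⟩

lemma ee_sub_int (x : ℝ) (n : ℤ) : ee (x + n) = ee x := by
  rw [ee_add, (ee_eq_one_iff (n : ℝ)).mpr ⟨n, rfl⟩, mul_one]

/-- geometric sums of a fixed ratio are bounded -/
lemma geom_bound (z : ℂ) (hz : ‖z‖ = 1) (hz1 : z ≠ 1) (N : ℕ) :
    ‖∑ n ∈ range N, z ^ n‖ ≤ 2 / ‖z - 1‖ := by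
  rw [geom_sum_eq hz1, norm_div]
  gcongr
  refine (norm_sub_le _ _).trans ?_
  rw [norm_pow, hz, one_pow, norm_one]; norm_num

theorem weyl : Weyl := by
  intro A hA ε hε
  obtain ⟨H, hH⟩ := exists_nat_ge (8 / ε ^ 2 + 1)
  have hH1 : (1 : ℝ) ≤ H := le_trans (by have : 0 ≤ 8 / ε ^ 2 := by positivity
                                         linarith) hH
  have hH0 : (0 : ℝ) < H := by linarith
  -- the constant
  set C : ℕ → ℕ → ℝ := fun h h' => 2 / ‖ee (2 * A * ((h : ℝ) - h')) - 1‖ with hC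
  have hC0 : ∀ h h', 0 ≤ C h h' := fun h h' => by rw [hC]; positivity
  set K : ℝ := ∑ h ∈ range H, ∑ h' ∈ range H, C h h' with hK
  have hK0 : 0 ≤ K := sum_nonneg fun h _ => sum_nonneg fun h' _ => hC0 h h'
  obtain ⟨N₀, hN₀⟩ := exists_nat_ge (8 * K / ε ^ 2 + 4 * H / ε)
  refine ⟨N₀, fun N hN B => ?_⟩
  have hNr : 8 * K / ε ^ 2 + 4 * H / ε ≤ N := hN₀.trans (by exact_mod_cast hN)
  set u : ℕ → ℂ := fun n => ee (A * (n : ℝ) ^ 2 + B * n) with hu
  have hu1 : ∀ n, ‖u n‖ ≤ 1 := fun n => (norm_ee _).le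
  set S : ℂ := ∑ n ∈ range N, u n with hS
  set T : ℂ := ∑ n ∈ range N, ∑ h ∈ range H, u (n + h) with hT
  have h1 : ‖(H : ℂ) * S - T‖ ≤ H * (2 * H) := by
    have e : (H : ℂ) * S - T = ∑ h ∈ range H, (∑ n ∈ range N, u n - ∑ n ∈ range N, u (n + h)) := by
      rw [sum_sub_distrib, hT, sum_comm]
      simp [hS]
    rw [e]
    refine (norm_sum_le _ _).trans ?_
    refine (sum_le_sum (g := fun _ => (2 * H : ℝ)) fun h hh => ?_).trans ?_
    · refine (shift_sum u hu1 N h).trans ?_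
      have : (h : ℝ) ≤ H := by exact_mod_cast (mem_range.mp hh).le
      linarith
    · simp
  -- the correlations
  have hcorr : ∀ h h' : ℕ, h ≠ h' → ‖∑ n ∈ range N, u (n + h) * star (u (n + h'))‖ ≤ C h h' := by
    intro h h' hne
    have e : ∀ n : ℕ, u (n + h) * star (u (n + h')) =
        ee (A * ((h : ℝ) ^ 2 - (h' : ℝ) ^ 2) + B * ((h : ℝ) - h')) *
          (ee (2 * A * ((h : ℝ) - h'))) ^ n := by
      intro n
      rw [hu]
      simp only
      rw [star_ee, ← ee_add, ← ee_nat_mul, ← ee_add]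
      congr 1
      push_cast; ring
    simp only [e]
    rw [← mul_sum, norm_mul, norm_ee, one_mul]
    refine geom_bound _ (norm_ee _) (fun h1 => ?_) N
    rw [ee_eq_one_iff] at h1
    obtain ⟨k, hk⟩ := h1
    have h2 : (2 * ((h : ℤ) - h') : ℤ) ≠ 0 := by
      intro h3; apply hne; omega
    have h3 : Irrational (A * ((2 * ((h : ℤ) - h') : ℤ) : ℝ)) := hA.mul_intCast h2
    apply h3.ne_int k
    rw [← hk]; push_cast; ring
  have h2 : ∑ n ∈ range N, ‖∑ h ∈ range H, u (n + h)‖ ^ 2 ≤ H * N + K := by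
    have e1 : ((∑ n ∈ range N, ‖∑ h ∈ range H, u (n + h)‖ ^ 2 : ℝ) : ℂ) =
        ∑ h ∈ range H, ∑ h' ∈ range H, ∑ n ∈ range N, u (n + h) * star (u (n + h')) := by
      push_cast
      have e2 : ∀ n, ((‖∑ h ∈ range H, u (n + h)‖ : ℂ)) ^ 2 =
          ∑ h ∈ range H, ∑ h' ∈ range H, u (n + h) * star (u (n + h')) := by
        intro n
        rw [← Complex.ofReal_pow, ← Complex.normSq_eq_norm_sq, Complex.normSq_eq_conj_mul_self,
          mul_comm, sum_mul]
        refine sum_congr rfl fun h _ => ?_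
        rw [map_sum, mul_sum]
        rfl
      simp only [e2]
      rw [sum_comm]
      refine sum_congr rfl fun h _ => ?_
      rw [sum_comm]
    have e3 : ∑ n ∈ range N, ‖∑ h ∈ range H, u (n + h)‖ ^ 2 =
        ‖((∑ n ∈ range N, ‖∑ h ∈ range H, u (n + h)‖ ^ 2 : ℝ) : ℂ)‖ := by
      rw [Complex.norm_real, Real.norm_eq_abs, abs_of_nonneg]
      exact sum_nonneg fun n _ => by positivity
    rw [e3, e1]
    refine (norm_sum_le _ _).trans ?_
    have e4 : ∀ h ∈ range H, ‖∑ h' ∈ range H, ∑ n ∈ range N, u (n + h) * star (u (n + h'))‖ ≤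
        N + ∑ h' ∈ range H, C h h' := by
      intro h hh
      refine (norm_sum_le _ _).trans ?_
      have e5 : ∀ h' ∈ range H, ‖∑ n ∈ range N, u (n + h) * star (u (n + h'))‖ ≤
          (if h' = h then (N : ℝ) else 0) + C h h' := by
        intro h' _
        by_cases hne : h' = h
        · rw [if_pos hne, hne]
          have : ‖∑ n ∈ range N, u (n + h) * star (u (n + h))‖ ≤ N := by
            refine (norm_sum_le _ _).trans ?_
            calc _ ≤ ∑ n ∈ range N, (1 : ℝ) := by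
                  refine sum_le_sum fun n _ => ?_
                  rw [norm_mul, norm_star]
                  calc _ ≤ (1 : ℝ) * 1 := by gcongr <;> exact hu1 _
                    _ = 1 := one_mul _
              _ = N := by simp
          have h3 := hC0 h h
          linarith
        · rw [if_neg hne, zero_add]
          exact hcorr h h' (Ne.symm hne)
      refine (sum_le_sum e5).trans ?_
      rw [sum_add_distrib, sum_ite_eq', if_pos hh]
    refine (sum_le_sum e4).trans ?_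
    rw [sum_add_distrib]
    simp [hK]
  have h3 : ‖T‖ ^ 2 ≤ N * (H * N + K) := by
    have e1 : ‖T‖ ≤ ∑ n ∈ range N, ‖∑ h ∈ range H, u (n + h)‖ := norm_sum_le _ _
    have e2 : (∑ n ∈ range N, ‖∑ h ∈ range H, u (n + h)‖) ^ 2 ≤
        ((range N).card : ℝ) * ∑ n ∈ range N, ‖∑ h ∈ range H, u (n + h)‖ ^ 2 :=
      sq_sum_le_card_mul_sum_sq
    calc ‖T‖ ^ 2 ≤ (∑ n ∈ range N, ‖∑ h ∈ range H, u (n + h)‖) ^ 2 := by gcongr
      _ ≤ ((range N).card : ℝ) * ∑ n ∈ range N, ‖∑ h ∈ range H, u (n + h)‖ ^ 2 := e2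
      _ ≤ N * (H * N + K) := by rw [card_range]; gcongr
  -- `‖T‖ ≤ H ε N / 2`
  have h4 : ‖T‖ ≤ H * (ε / 2) * N := by
    have hε2 : 0 < ε ^ 2 := by positivity
    have k1 : 8 ≤ ε ^ 2 * H := by
      have : 8 / ε ^ 2 ≤ H := by linarith
      rwa [div_le_iff₀ hε2, mul_comm] at this
    have k2 : 8 * K ≤ ε ^ 2 * N := by
      have : 8 * K / ε ^ 2 ≤ N := by
        have : 0 ≤ 4 * H / ε := by positivity
        linarith
      rwa [div_le_iff₀ hε2, mul_comm (N : ℝ)] at this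
    apply le_of_sq_le_sq _ (by positivity)
    refine h3.trans ?_
    have hN0 : (0 : ℝ) ≤ N := Nat.cast_nonneg N
    have k3 : 8 * (H * N) ≤ ε ^ 2 * H * (H * N) := by gcongr
    have k4 : ε ^ 2 * N ≤ ε ^ 2 * N * H ^ 2 := by
      have : (1 : ℝ) ≤ H ^ 2 := by nlinarith
      nlinarith [mul_nonneg hε2.le hN0]
    have k5 : H * N + K ≤ ε ^ 2 * H ^ 2 * N / 4 := by nlinarith
    calc (N : ℝ) * (H * N + K) ≤ N * (ε ^ 2 * H ^ 2 * N / 4) := by gcongr
      _ = (H * (ε / 2) * N) ^ 2 := by ring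
  have h5 : (H : ℝ) * ‖S‖ ≤ H * (2 * H) + H * (ε / 2) * N := by
    have e : (H : ℝ) * ‖S‖ = ‖(H : ℂ) * S‖ := by rw [norm_mul]; simp
    rw [e]
    have e2 : (H : ℂ) * S = ((H : ℂ) * S - T) + T := by ring
    rw [e2]
    refine (norm_add_le _ _).trans ?_
    linarith
  have h6 : ‖S‖ ≤ 2 * H + ε / 2 * N := by
    have : (H : ℝ) * ‖S‖ ≤ H * (2 * H + ε / 2 * N) := by linarith
    exact le_of_mul_le_mul_left this hH0
  have h7 : 4 * (H : ℝ) ≤ ε * N := by
    have : 4 * H / ε ≤ N := by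
      have : 0 ≤ 8 * K / ε ^ 2 := by positivity
      linarith
    rwa [div_le_iff₀ hε, mul_comm (N : ℝ)] at this
  linarith

/-- indicator of a residue class -/
lemma res_ind (m : ℕ) (hm : 0 < m) (n r : ℕ) :
    ∑ k ∈ range m, ee ((k : ℝ) / m * n) * ee (-((k : ℝ) / m * r)) =
      if n % m = r % m then (m : ℂ) else 0 := by
  have hmr : (m : ℝ) ≠ 0 := by exact_mod_cast hm.ne'
  set z : ℂ := ee (((n : ℝ) - r) / m) with hz
  have e : ∀ k ∈ range m, ee ((k : ℝ) / m * n) * ee (-((k : ℝ) / m * r)) = z ^ k := by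
    intro k _
    rw [← ee_add, hz, ← ee_nat_mul]
    congr 1
    field_simp
    ring
  rw [sum_congr rfl e]
  have hzm : z ^ m = 1 := by
    rw [hz, ← ee_nat_mul, div_mul_cancel₀ _ hmr, ee_eq_one_iff]
    exact ⟨(n : ℤ) - r, by push_cast; ring⟩
  have hiff : z = 1 ↔ n % m = r % m := by
    rw [hz, ee_eq_one_iff]
    constructor
    · rintro ⟨k, hk⟩
      rw [div_eq_iff hmr] at hk
      have h1 : (n : ℤ) - r = k * m := by exact_mod_cast hk
      have h2 : (r : ℤ) ≡ n [ZMOD m] := by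
        rw [Int.modEq_iff_dvd]
        exact ⟨k, by rw [h1]; ring⟩
      have h3 : r ≡ n [MOD m] := (Int.natCast_modEq_iff).mp h2
      exact h3.symm
    · intro h
      have h3 : r ≡ n [MOD m] := Eq.symm h
      obtain ⟨k, hk⟩ := (Int.modEq_iff_dvd).mp (Int.natCast_modEq_iff.mpr h3)
      refine ⟨k, ?_⟩
      rw [div_eq_iff hmr]
      have : ((n : ℤ) : ℝ) - ((r : ℤ) : ℝ) = ((m : ℤ) : ℝ) * (k : ℝ) := by
        rw [← Int.cast_sub, hk]; push_cast; ring
      push_cast at this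
      linarith
  by_cases h : n % m = r % m
  · rw [if_pos h, hiff.mpr h]
    simp
  · rw [if_neg h, geom_sum_eq (fun h1 => h (hiff.mp h1)), hzm, sub_self, zero_div]

/-- Möbius bounds in residue classes -/
lemma qm_res {A : ℝ} (hQ : QM A) (m : ℕ) (hm : 0 < m) :
    ∀ ε : ℝ, 0 < ε → ∃ N₀ : ℕ, ∀ N ≥ N₀, ∀ B : ℝ, ∀ r : ℕ,
      ‖∑ n ∈ range N, (if n % m = r % m then mob n * ee (A * (n : ℝ) ^ 2 + B * n) else 0)‖ ≤
        ε * N := by
  intro ε hε
  obtain ⟨N₀, hN₀⟩ := hQ ε hε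
  refine ⟨N₀, fun N hN B r => ?_⟩
  have hmc : (m : ℂ) ≠ 0 := by exact_mod_cast hm.ne'
  have hmr : (0 : ℝ) < m := by exact_mod_cast hm
  have e1 : (m : ℂ) * ∑ n ∈ range N,
      (if n % m = r % m then mob n * ee (A * (n : ℝ) ^ 2 + B * n) else 0) =
      ∑ k ∈ range m, ee (-((k : ℝ) / m * r)) *
        ∑ n ∈ range N, mob n * ee (A * (n : ℝ) ^ 2 + (B + (k : ℝ) / m) * n) := by
    rw [mul_sum]
    have e2 : ∀ n ∈ range N, (m : ℂ) *
        (if n % m = r % m then mob n * ee (A * (n : ℝ) ^ 2 + B * n) else 0) =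
        ∑ k ∈ range m, ee (-((k : ℝ) / m * r)) *
          (mob n * ee (A * (n : ℝ) ^ 2 + (B + (k : ℝ) / m) * n)) := by
      intro n _
      have e3 : ∀ k ∈ range m, ee (-((k : ℝ) / m * r)) *
          (mob n * ee (A * (n : ℝ) ^ 2 + (B + (k : ℝ) / m) * n)) =
          (mob n * ee (A * (n : ℝ) ^ 2 + B * n)) *
            (ee ((k : ℝ) / m * n) * ee (-((k : ℝ) / m * r))) := by
        intro k _
        have : ee (A * (n : ℝ) ^ 2 + (B + (k : ℝ) / m) * n) =
            ee (A * (n : ℝ) ^ 2 + B * n) * ee ((k : ℝ) / m * n) := by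
          rw [← ee_add]; congr 1; ring
        rw [this]; ring
      rw [sum_congr rfl e3, ← mul_sum, res_ind m hm n r]
      split_ifs
      · ring
      · simp
    rw [sum_congr rfl e2, sum_comm]
    refine sum_congr rfl fun k _ => ?_
    rw [mul_sum]
  have e4 : (m : ℝ) * ‖∑ n ∈ range N,
      (if n % m = r % m then mob n * ee (A * (n : ℝ) ^ 2 + B * n) else 0)‖ ≤ m * (ε * N) := by
    have e5 : (m : ℝ) * ‖∑ n ∈ range N,
      (if n % m = r % m then mob n * ee (A * (n : ℝ) ^ 2 + B * n) else 0)‖ = ‖(m : ℂ) *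
        ∑ n ∈ range N,
          (if n % m = r % m then mob n * ee (A * (n : ℝ) ^ 2 + B * n) else 0)‖ := by
      rw [norm_mul]; simp
    rw [e5, e1]
    refine (norm_sum_le _ _).trans ?_
    calc _ ≤ ∑ k ∈ range m, ε * (N : ℝ) := by
          refine sum_le_sum fun k _ => ?_
          rw [norm_mul, norm_ee, one_mul]
          exact hN₀ N hN _
      _ = _ := by simp
  exact le_of_mul_le_mul_left e4 hmr

theorem ratCase : RatCase := by
  intro h0 p q hq ε hε
  have hqr : (0 : ℝ) < q := by exact_mod_cast hq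
  obtain ⟨N₀, hN₀⟩ := qm_res h0 q hq (ε / q) (by positivity)
  refine ⟨N₀, fun N hN B => ?_⟩
  have e1 : ∑ n ∈ range N, mob n * ee ((p : ℝ) / q * (n : ℝ) ^ 2 + B * n) =
      ∑ r ∈ range q, ee ((p : ℝ) / q * (r : ℝ) ^ 2) * ∑ n ∈ range N,
        (if n % q = r % q then mob n * ee (0 * (n : ℝ) ^ 2 + B * n) else 0) := by
    simp only [mul_sum]
    rw [sum_comm]
    refine sum_congr rfl fun n _ => ?_
    have e2 : ∀ r ∈ range q, ee ((p : ℝ) / q * (r : ℝ) ^ 2) *
        (if n % q = r % q then mob n * ee (0 * (n : ℝ) ^ 2 + B * n) else 0) =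
        if r = n % q then mob n * ee ((p : ℝ) / q * (n : ℝ) ^ 2 + B * n) else 0 := by
      intro r hr
      have hrq : r % q = r := Nat.mod_eq_of_lt (mem_range.mp hr)
      rw [hrq]
      by_cases h : n % q = r
      · rw [if_pos h, if_pos h.symm, ee_add, ee_add, zero_mul, ee_zero, one_mul]
        have h1 : ee ((p : ℝ) / q * (n : ℝ) ^ 2) = ee ((p : ℝ) / q * (r : ℝ) ^ 2) := by
          obtain ⟨t, ht⟩ : ∃ t : ℕ, n = q * t + r := by
            refine ⟨n / q, ?_⟩
            have := Nat.div_add_mod n q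
            rw [h] at this
            exact this.symm
          have h2 : (n : ℝ) = q * (t : ℝ) + r := by exact_mod_cast ht
          have h3 : (p : ℝ) / q * (n : ℝ) ^ 2 = (p : ℝ) / q * (r : ℝ) ^ 2 +
              ((p * (q * (t : ℤ) ^ 2 + 2 * (t : ℤ) * r) : ℤ) : ℝ) := by
            rw [h2]
            push_cast
            field_simp
            ring
          rw [h3, ee_sub_int]
        rw [h1]; ring
      · rw [if_neg h, if_neg (Ne.symm h), mul_zero]
    rw [sum_congr rfl e2, sum_ite_eq', if_pos (mem_range.mpr (Nat.mod_lt _ hq))]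
  rw [e1]
  refine (norm_sum_le _ _).trans ?_
  calc _ ≤ ∑ r ∈ range q, ε / q * (N : ℝ) := by
        refine sum_le_sum fun r _ => ?_
        rw [norm_mul, norm_ee, one_mul]
        exact hN₀ N hN B r
    _ = ε * N := by
        rw [sum_const, card_range, nsmul_eq_mul]; field_simp

theorem apCase : APCase := by
  intro a m r hm hrm hQ ε hε
  have hmr : (0 : ℝ) < m := by exact_mod_cast hm
  obtain ⟨N₀, hN₀⟩ := qm_res hQ m hm (ε / m) (by positivity)
  refine ⟨N₀, fun N hN β => ?_⟩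
  set A : ℝ := a / (2 * (m : ℝ) ^ 2) with hA
  set B : ℝ := (β - a / 2) / m - a * r / (m : ℝ) ^ 2 with hB
  set c0 : ℝ := a * (r : ℝ) ^ 2 / (2 * (m : ℝ) ^ 2) - (β - a / 2) * r / m with hc0
  have e1 : ∑ n ∈ range (m * N),
      (if n % m = r % m then mob n * ee (A * (n : ℝ) ^ 2 + B * n) else 0) =
      ∑ j ∈ range N, mob (m * j + r) * ee (A * ((m * j + r : ℕ) : ℝ) ^ 2 +
        B * ((m * j + r : ℕ) : ℝ)) := by
    rw [sum_blocks]
    rw [sum_eq_single_of_mem r (mem_range.mpr hrm)]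
    · refine sum_congr rfl fun j _ => ?_
      rw [if_pos (by rw [Nat.mul_add_mod])]
    · intro s hs hsr
      refine sum_eq_zero fun j _ => ?_
      rw [if_neg]
      rw [Nat.mul_add_mod, Nat.mod_eq_of_lt (mem_range.mp hs), Nat.mod_eq_of_lt hrm]
      exact hsr
  have e2 : ∑ j ∈ range N, mob (m * j + r) * ee (a * ((j : ℝ) * (j - 1) / 2) + β * j) =
      ee c0 * ∑ n ∈ range (m * N),
      (if n % m = r % m then mob n * ee (A * (n : ℝ) ^ 2 + B * n) else 0) := by
    rw [e1, mul_sum]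
    refine sum_congr rfl fun j _ => ?_
    have : ee (a * ((j : ℝ) * (j - 1) / 2) + β * j) = ee c0 *
        ee (A * ((m * j + r : ℕ) : ℝ) ^ 2 + B * ((m * j + r : ℕ) : ℝ)) := by
      rw [← ee_add]
      congr 1
      rw [hA, hB, hc0]
      push_cast
      field_simp
      ring
    rw [this]; ring
  rw [e2, norm_mul, norm_ee, one_mul]
  have h3 : N₀ ≤ m * N := hN.trans (Nat.le_mul_of_pos_left N hm)
  refine (hN₀ (m * N) h3 B r).trans (le_of_eq ?_)
  push_cast
  field_simp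

theorem qmAll' (hK : KBSZ) (A : ℝ) : QM A := qm_all hK weyl ratCase A

end Pool.Agent.W726.NS
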