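import Pool.Agent.W726.NS.Dyn
import Pool.Agent.W726.NS.Kbsz
import Pool.Agent.W726.NS.WeylQ

/-! Möbius disjointness for automorphisms of reduced C*-algebras of convergence groups. -/

set_option autoImplicit false
set_option linter.unusedSectionVars false

namespace Pool.Agent.W726.NS

open Pool.Agent.H379R3.CS Pool.Agent.Helper188.NCM Filter Topology Set

section dense

variable {G : Type*} [Group G]

/-- the canonical unitaries -/
noncomputable def lam (g : G) : reducedCStar G := ⟨shift g, shift_mem g⟩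

lemma lam_mul (g h : G) : lam (g * h) = lam g * lam h := Subtype.ext (shift_mul g h)

lemma lam_one : lam (1 : G) = 1 := Subtype.ext shift_one

lemma star_lam (g : G) : star (lam g) = lam g⁻¹ := Subtype.ext (star_shift g)

lemma lam_unitary (g : G) : lam g ∈ unitary (reducedCStar G) := by
  rw [Unitary.mem_iff, star_lam]
  exact ⟨by rw [← lam_mul, inv_mul_cancel, lam_one], by rw [← lam_mul, mul_inv_cancel, lam_one]⟩

lemma star_span {x : L2 G →L[ℂ] L2 G}
    (hx : x ∈ Submodule.span ℂ (Set.range (shift : G → L2 G →L[ℂ] L2 G))) :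
    star x ∈ Submodule.span ℂ (Set.range (shift : G → L2 G →L[ℂ] L2 G)) := by
  induction hx using Submodule.span_induction with
  | mem x hx =>
    obtain ⟨g, rfl⟩ := hx
    rw [star_shift]
    exact Submodule.subset_span ⟨g⁻¹, rfl⟩
  | zero => rw [star_zero]; exact Submodule.zero_mem _
  | add x y _ _ hx hy => rw [star_add]; exact Submodule.add_mem _ hx hy
  | smul c x _ hx => rw [star_smul]; exact Submodule.smul_mem _ _ hx

lemma adjoin_le_span {x : L2 G →L[ℂ] L2 G}
    (hx : x ∈ StarAlgebra.adjoin ℂ (Set.range (shift : G → L2 G →L[ℂ] L2 G))) :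
    x ∈ Submodule.span ℂ (Set.range (shift : G → L2 G →L[ℂ] L2 G)) := by
  induction hx using StarAlgebra.adjoin_induction with
  | mem x hx => exact Submodule.subset_span hx
  | algebraMap r =>
    rw [Algebra.algebraMap_eq_smul_one, ← shift_one (G := G)]
    exact Submodule.smul_mem _ _ (Submodule.subset_span ⟨1, rfl⟩)
  | add x y _ _ hx hy => exact Submodule.add_mem _ hx hy
  | mul x y _ _ hx hy =>
    have h := Submodule.mul_mem_mul hx hy
    rw [Submodule.span_mul_span] at h
    refine (Submodule.span_mono ?_) h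
    rintro _ ⟨_, ⟨g, rfl⟩, _, ⟨h, rfl⟩, rfl⟩
    exact ⟨g * h, shift_mul g h⟩
  | star x _ hx => exact star_span hx

lemma lam_dense (x : reducedCStar G) :
    x ∈ (Submodule.span ℂ (Set.range (lam : G → reducedCStar G))).topologicalClosure := by
  show x ∈ closure ((Submodule.span ℂ (Set.range (lam : G → reducedCStar G)) :
    Submodule ℂ (reducedCStar G)) : Set (reducedCStar G))
  have hx : (x : L2 G →L[ℂ] L2 G) ∈
      closure ((StarAlgebra.adjoin ℂ (Set.range (shift : G → L2 G →L[ℂ] L2 G)) :
        StarSubalgebra ℂ (L2 G →L[ℂ] L2 G)) : Set (L2 G →L[ℂ] L2 G)) := x.2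
  rw [Metric.mem_closure_iff] at hx ⊢
  intro ε hε
  obtain ⟨y, hy, hxy⟩ := hx ε hε
  have hy' := adjoin_le_span hy
  have hmap : Submodule.span ℂ (Set.range (shift : G → L2 G →L[ℂ] L2 G)) =
      Submodule.map (reducedCStar G).toSubalgebra.toSubmodule.subtype
        (Submodule.span ℂ (Set.range (lam : G → reducedCStar G))) := by
    rw [Submodule.map_span]
    congr 1
    ext z
    constructor
    · rintro ⟨g, rfl⟩
      exact ⟨lam g, ⟨g, rfl⟩, rfl⟩
    · rintro ⟨_, ⟨g, rfl⟩, rfl⟩
      exact ⟨g, rfl⟩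
  rw [hmap] at hy'
  obtain ⟨z, hz, rfl⟩ := hy'
  exact ⟨z, hz, hxy⟩

end dense

variable {G : Type} [Group G] [Countable G] {X : Type*} [TopologicalSpace X] [CompactSpace X]
  [T2Space X] [MulAction G X]

/-- **Möbius disjointness in norm.** -/
theorem pp_all (hG : ConvergenceAction G X) [Infinite X]
    (hcyc : ∀ p : X, CycCover (MulAction.stabilizer G p))
    (σ : MulAut G) (α : reducedCStar G →⋆ₐ[ℂ] reducedCStar G)
    (hα : ∀ g, ∃ c : ℂ, ‖c‖ = 1 ∧ α (lam g) = c • lam (σ g)) : ∀ x, PP α x := by
  classical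
  have hit : ∀ (n : ℕ) (g : G), ∃ c : ℂ, ‖c‖ = 1 ∧ (α^[n]) (lam g) = c • lam ((σ ^ n) g) := by
    intro n
    induction n with
    | zero => intro g; exact ⟨1, by simp, by simp⟩
    | succ n ih =>
      intro g
      obtain ⟨c, hc, h1⟩ := hα g
      obtain ⟨c', hc', h2⟩ := ih (σ g)
      refine ⟨c * c', by rw [norm_mul, hc, hc', one_mul], ?_⟩
      rw [Function.iterate_succ_apply, h1, iter_smul, h2, smul_smul, pow_succ, MulAut.mul_apply]
  have hEp : ∀ h : G, ¬ IsOfFinOrder h → CycCover (Ep h) := by
    intro h hh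
    obtain ⟨a, ha⟩ := Ep_le_stabilizer hG h hh
    exact (hcyc a).mono ha
  have hlin : ∀ (g : G) (m : ℕ), 0 < m →
      (σ ^ m) (g⁻¹ * (σ ^ m) g) = g⁻¹ * (σ ^ m) g → PP α (lam g) := by
    intro g m hm hφ
    obtain ⟨c0, hc0, h0⟩ := hit m g
    obtain ⟨c2, hc2, h2⟩ := hit m (g⁻¹ * (σ ^ m) g)
    obtain ⟨a, ha⟩ := exists_ee hc2
    rw [hφ] at h2
    refine PP.class_two apCase (qmAll' kbsz) α m hm (lam g) (c0 • lam (g⁻¹ * (σ ^ m) g))
      (norm_unitary_le (lam_unitary g)) (smul_unitary hc0 (lam_unitary _)) a ?_ ?_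
    · rw [h0, mul_smul_comm, ← lam_mul, mul_inv_cancel_left]
    · rw [iter_smul, h2, ha, smul_comm]
  have hgen : ∀ g, PP α (lam g) := by
    intro g
    by_cases hinj : Function.Injective (fun n : ℕ => (σ ^ n) g)
    · rcases dichotomy (Set.range (fun p : X => MulAction.stabilizer G p))
        (by rintro _ ⟨p, rfl⟩; exact hcyc p) hEp σ g hinj with ⟨S, hS, hSf⟩ | ⟨m, hm, hφ⟩
      · refine pp_of_blocks α (lam g) (norm_unitary_le (lam_unitary g)) fun M => ?_
        have hSi : Infinite S := hS.to_subtype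
        let e : ℕ ↪o ℕ := Nat.orderEmbeddingOfSet S
        have heS : ∀ n, e n ∈ S := fun n => by
          have : e n ∈ Set.range (Nat.orderEmbeddingOfSet S) := ⟨n, rfl⟩
          rwa [Nat.orderEmbeddingOfSet_range] at this
        obtain ⟨o⟩ : Nonempty X := inferInstance
        obtain ⟨n, -, hn⟩ := sparse_norm hG o (fun k => (σ ^ (e k)) g)
          (fun a b hab => e.injective (hinj hab)) (by
            intro p q
            by_cases hne : ∃ k0, ((σ ^ (e k0)) g) • p = q
            · obtain ⟨k0, hk0⟩ := hne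
              have h1 := hSf _ ⟨p, rfl⟩ ((σ ^ (e k0)) g)
              refine (h1.preimage (f := e) e.injective.injOn).subset ?_
              intro k hk
              refine ⟨heS k, ?_⟩
              have hk' : ((σ ^ (e k)) g) • p = q := hk
              rw [MulAction.mem_stabilizer_iff, mul_smul, hk', ← hk0, inv_smul_smul]
            · convert Set.finite_empty (α := ℕ)
              ext k
              simp only [Set.mem_ofPred_eq, Set.mem_empty_iff_false, iff_false]
              exact fun h => hne ⟨k, h⟩) M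
        refine ⟨fun k => e (n k), fun c hc => ?_⟩
        choose c' hc' hc'' using fun k : Fin M => hit (e (n k)) g
        have h2 := hn (fun k => c k * c' k) (fun k => by
          rw [norm_mul, hc' k, mul_one]; exact hc k)
        refine le_trans (le_of_eq ?_) h2
        have e1 : ∀ k, c k • (α^[e (n k)]) (lam g) = (c k * c' k) • lam ((σ ^ (e (n k))) g) := by
          intro k
          rw [hc'' k, smul_smul]
        simp only [e1]
        have e2 : ((∑ k, (c k * c' k) • lam ((σ ^ (e (n k))) g) : reducedCStar G) :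
            L2 G →L[ℂ] L2 G) = ∑ k, (c k * c' k) • shift ((σ ^ (e (n k))) g) := by
          rw [AddSubmonoidClass.coe_finsetSum]
          rfl
        rw [← e2]
        rfl
      · exact hlin g m hm hφ
    · obtain ⟨i, j, hij, hne⟩ : ∃ i j : ℕ, (σ ^ i) g = (σ ^ j) g ∧ i ≠ j := by
        simpa [Function.Injective] using hinj
      wlog hlt : i < j generalizing i j
      · exact this j i hij.symm hne.symm (by omega)
      obtain ⟨m, rfl⟩ : ∃ m, j = i + m := ⟨j - i, by omega⟩
      have h1 : (σ ^ m) g = g := by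
        rw [pow_add, MulAut.mul_apply] at hij
        exact ((σ ^ i).injective hij).symm
      refine hlin g m (by omega) ?_
      rw [h1, inv_mul_cancel, map_one]
  have hS : ∀ x ∈ Submodule.span ℂ (Set.range (lam : G → reducedCStar G)), PP α x := by
    intro x hx
    induction hx using Submodule.span_induction with
    | mem x hx => obtain ⟨g, rfl⟩ := hx; exact hgen g
    | zero => exact PP.zero α
    | add x y _ _ hx hy => exact hx.add hy
    | smul c x _ hx => exact hx.smul c
  intro x
  exact PP.closed α hS x (lam_dense x)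

/-- systems generated over their fixed points -/
theorem pp_ext {A B : Type} [CStarAlgebra A] [CStarAlgebra B] {α : A →⋆ₐ[ℂ] A}
    (h : ∀ x, PP α x) (β : B →⋆ₐ[ℂ] B) (ι : A →⋆ₐ[ℂ] B) (hι : ∀ a, β (ι a) = ι (α a))
    (hgen : (Submodule.span ℂ {x : B | ∃ a w, β w = w ∧ x = ι a * w}).topologicalClosure = ⊤) :
    ∀ x, PP β x := by
  have hn : ∀ (n : ℕ) (a : A), (β^[n]) (ι a) = ι ((α^[n]) a) := by
    intro n a
    induction n with
    | zero => rfl
    | succ n ih => rw [Function.iterate_succ_apply', Function.iterate_succ_apply', ih, hι]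
  have hw : ∀ (n : ℕ) (w : B), β w = w → (β^[n]) w = w := by
    intro n w hw
    exact Function.iterate_fixed hw n
  have hS : ∀ x ∈ Submodule.span ℂ {x : B | ∃ a w, β w = w ∧ x = ι a * w}, PP β x := by
    intro x hx
    induction hx using Submodule.span_induction with
    | mem x hx =>
      obtain ⟨a, w, hβw, rfl⟩ := hx
      intro ε hε
      obtain ⟨N₀, hN₀⟩ := h a (ε / (‖w‖ + 1)) (by positivity)
      refine ⟨N₀, fun N hN => ?_⟩
      have e : ∑ n ∈ Finset.range N, mob n • (β^[n]) (ι a * w) =
          ι (∑ n ∈ Finset.range N, mob n • (α^[n]) a) * w := by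
        rw [map_sum, Finset.sum_mul]
        refine Finset.sum_congr rfl fun n _ => ?_
        rw [iter_mul, hn, hw n w hβw, map_smul, smul_mul_assoc]
      rw [e]
      refine (norm_mul_le _ _).trans ?_
      have h1 : ‖ι (∑ n ∈ Finset.range N, mob n • (α^[n]) a)‖ ≤ ε / (‖w‖ + 1) * N :=
        (NonUnitalStarAlgHom.norm_apply_le ι _).trans (hN₀ N hN)
      calc _ ≤ (ε / (‖w‖ + 1) * N) * ‖w‖ := by gcongr
        _ = (‖w‖ / (‖w‖ + 1)) * (ε * N) := by ring
        _ ≤ 1 * (ε * N) := by
          gcongr
          rw [div_le_one (by positivity)]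
          linarith
        _ = ε * N := one_mul _
    | zero => exact PP.zero β
    | add x y _ _ hx hy => exact hx.add hy
    | smul c x _ hx => exact hx.smul c
  intro x
  refine PP.closed β hS x ?_
  rw [hgen]
  trivial

end Pool.Agent.W726.NS
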