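import Pool.Agent.W726.NS.Abs
import Pool.Agent.W726.NS.Main

/-! The concrete reduced group C*-algebra is an example of the abstract notion. -/

set_option autoImplicit false
set_option linter.unusedSectionVars false

namespace Pool.Agent.W726.NS

open Pool.Agent.H379R3.CS
open scoped ENNReal

variable {G : Type} [Group G]

lemma memlp_right (h : G) (f : L2 G) : Memℓp (fun x => (f : G → ℂ) (x * h)) 2 := by
  have hp : 0 < (2 : ℝ≥0∞).toReal := by norm_num
  rw [memℓp_gen_iff hp]
  have h2 := (memℓp_gen_iff hp).mp f.2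
  exact (Equiv.mulRight h).summable_iff
    (f := fun x => ‖(f : G → ℂ) x‖ ^ (2 : ℝ≥0∞).toReal) |>.mpr h2

/-- right translation -/
noncomputable def rsh (h : G) : L2 G →L[ℂ] L2 G :=
  LinearMap.mkContinuous
    { toFun := fun f => ⟨fun x => (f : G → ℂ) (x * h), memlp_right h f⟩
      map_add' := fun _ _ => rfl
      map_smul' := fun _ _ => rfl } 1 (by
    intro f
    rw [one_mul]
    have hp : 0 < (2 : ℝ≥0∞).toReal := by norm_num
    rw [lp.norm_eq_tsum_rpow hp, lp.norm_eq_tsum_rpow hp]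
    apply le_of_eq
    congr 1
    exact (Equiv.mulRight h).tsum_eq (fun x => ‖(f : G → ℂ) x‖ ^ (2 : ℝ≥0∞).toReal))

lemma rsh_apply (h : G) (f : L2 G) (x : G) : (rsh h f : G → ℂ) x = (f : G → ℂ) (x * h) := rfl

lemma rsh_shift (g h : G) : rsh h * shift g = shift g * rsh h := by
  apply ContinuousLinearMap.ext
  intro f
  apply lp.ext
  funext x
  rw [mul_apply_eq_comp, mul_apply_eq_comp, rsh_apply, shift_apply, shift_apply, rsh_apply,
    mul_assoc]

lemma rsh_comm_span (h : G) {T : L2 G →L[ℂ] L2 G}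
    (hT : T ∈ Submodule.span ℂ (Set.range (shift : G → L2 G →L[ℂ] L2 G))) :
    rsh h * T = T * rsh h := by
  induction hT using Submodule.span_induction with
  | mem x hx => obtain ⟨g, rfl⟩ := hx; exact rsh_shift g h
  | zero => rw [mul_zero, zero_mul]
  | add x y _ _ hx hy => rw [mul_add, add_mul, hx, hy]
  | smul c x _ hx => rw [mul_smul_comm, smul_mul_assoc, hx]

lemma rsh_comm (h : G) (T : reducedCStar G) : rsh h * T.1 = T.1 * rsh h := by
  have hcl : IsClosed {T : L2 G →L[ℂ] L2 G | rsh h * T = T * rsh h} :=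
    isClosed_eq (by fun_prop) (by fun_prop)
  have hsub : ((StarAlgebra.adjoin ℂ (Set.range (shift : G → L2 G →L[ℂ] L2 G)) :
      StarSubalgebra ℂ (L2 G →L[ℂ] L2 G)) : Set (L2 G →L[ℂ] L2 G)) ⊆
      {T : L2 G →L[ℂ] L2 G | rsh h * T = T * rsh h} :=
    fun T hT => rsh_comm_span h (adjoin_le_span hT)
  exact hcl.closure_subset_iff.mpr hsub T.2

open Classical in
/-- the basis vectors -/
noncomputable def dl (g : G) : L2 G := lp.single 2 g (1 : ℂ)

open Classical in
lemma dl_apply (g x : G) : (dl g : G → ℂ) x = if x = g then 1 else 0 := by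
  rw [dl, lp.single_apply]
  by_cases h : x = g
  · subst h; simp
  · rw [if_neg h]; simp [h]

lemma rsh_dl (g : G) : rsh g⁻¹ (dl 1) = dl g := by
  apply lp.ext
  funext x
  rw [rsh_apply, dl_apply, dl_apply]
  congr 1
  rw [mul_inv_eq_one]

lemma eq_zero_of_dl (T : L2 G →L[ℂ] L2 G) (hT : ∀ g, T (dl g) = 0) : T = 0 := by
  classical
  apply ContinuousLinearMap.ext
  intro f
  have h1 := lp.hasSum_single (p := 2) (by norm_num) f
  have h2 := h1.mapL T
  have h3 : (fun i => T (lp.single 2 i ((f : G → ℂ) i))) = fun _ => 0 := by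
    funext i
    have e : lp.single 2 i ((f : G → ℂ) i) = ((f : G → ℂ) i) • dl i := by
      apply lp.ext
      funext x
      rw [lp.single_apply]
      show _ = (f : G → ℂ) i * (dl i : G → ℂ) x
      rw [dl_apply]
      by_cases h : x = i
      · subst h; simp
      · simp [h]
    rw [e, map_smul, hT, smul_zero]
  rw [h3] at h2
  exact h2.unique hasSum_zero

lemma eq_zero_of_one (T : reducedCStar G) (hT : T.1 (dl 1) = 0) : T = 0 := by
  apply Subtype.ext
  refine eq_zero_of_dl _ fun g => ?_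
  rw [← rsh_dl g]
  have h := congrArg (fun S : L2 G →L[ℂ] L2 G => S (dl 1)) (rsh_comm g⁻¹ T)
  have h' : rsh g⁻¹ (T.1 (dl 1)) = T.1 (rsh g⁻¹ (dl 1)) := h
  rw [← h', hT, map_zero]

/-- the canonical trace -/
noncomputable def trc (G : Type) [Group G] : reducedCStar G →L[ℂ] ℂ :=
  LinearMap.mkContinuous
    { toFun := fun T => inner ℂ (dl (1 : G)) (T.1 (dl 1))
      map_add' := fun S T => by
        show inner ℂ (dl (1 : G)) (S.1 (dl 1) + T.1 (dl 1)) = _
        rw [inner_add_right]
      map_smul' := fun c T => by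
        show inner ℂ (dl (1 : G)) (c • T.1 (dl 1)) = _
        rw [inner_smul_right]; rfl } (‖dl (1 : G)‖ * ‖dl (1 : G)‖) (by
    intro T
    show ‖inner ℂ (dl (1 : G)) (T.1 (dl 1))‖ ≤ ‖dl (1 : G)‖ * ‖dl (1 : G)‖ * ‖T.1‖
    refine (norm_inner_le_norm _ _).trans ?_
    have := T.1.le_opNorm (dl 1)
    calc ‖dl (1 : G)‖ * ‖T.1 (dl 1)‖ ≤ ‖dl (1 : G)‖ * (‖T.1‖ * ‖dl (1 : G)‖) := by gcongr
      _ = _ := by ring)

lemma trc_apply (T : reducedCStar G) : trc G T = inner ℂ (dl (1 : G)) (T.1 (dl 1)) := rfl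

lemma norm_dl : ‖(dl 1 : L2 G)‖ = 1 := by
  classical
  rw [dl, lp.norm_single (by norm_num)]
  simp

/-- **The concrete reduced group C*-algebra.** -/
theorem redAlg_regular (G : Type) [Group G] :
    RedAlg (lam : G → reducedCStar G) (trc G) where
  unit := lam_unitary
  mul g h := ⟨1, by simp, by rw [lam_mul, one_smul]⟩
  dense := by
    rw [eq_top_iff]
    intro x _
    exact lam_dense x
  one := by
    rw [trc_apply]
    show inner ℂ (dl (1 : G)) (dl 1) = (1 : ℂ)
    rw [inner_self_eq_norm_sq_to_K, norm_dl]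
    simp
  zero g hg := by
    classical
    rw [trc_apply]
    show inner ℂ (dl (1 : G)) (shift g (dl 1)) = (0 : ℂ)
    rw [dl, lp.inner_single_left, shift_apply]
    have : (lp.single 2 (1 : G) (1 : ℂ) : G → ℂ) (g⁻¹ * 1) = 0 := by
      rw [lp.single_apply_ne]
      simpa using hg
    rw [this, inner_zero_right]
  pos T hT := by
    have h1 : T.1 (dl 1) ≠ 0 := fun h => hT (eq_zero_of_one T h)
    refine ⟨‖T.1 (dl 1)‖ ^ 2, by positivity, ?_⟩
    rw [trc_apply]
    have h2 : (star T * T).1 (dl 1) = (star T.1) (T.1 (dl 1)) := rfl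
    rw [h2, ContinuousLinearMap.star_eq_adjoint, ContinuousLinearMap.adjoint_inner_right,
      inner_self_eq_norm_sq_to_K]
    push_cast
    rfl

end Pool.Agent.W726.NS
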