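import Pool.Agent.W726.NS.Borel

/-! Point stabilisers on the projective line. -/

set_option autoImplicit false
set_option linter.unusedSectionVars false

namespace Pool.Agent.W726.NS

open Matrix Filter Topology Set
open scoped MatrixGroups

lemma exists_vec (p : P1) : ∃ c s : ℝ, p.1 0 0 = c * c ∧ p.1 0 1 = c * s ∧ p.1 1 0 = s * c ∧
    p.1 1 1 = s * s ∧ c * c + s * s = 1 := by
  obtain ⟨P, h1, h2, h3⟩ := p
  show ∃ c s : ℝ, P 0 0 = c * c ∧ P 0 1 = c * s ∧ P 1 0 = s * c ∧ P 1 1 = s * s ∧ c * c + s * s = 1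
  have e1 := sym_01 h1
  rw [Matrix.trace_fin_two] at h2
  rw [Matrix.det_fin_two, e1] at h3
  have b0 : 0 ≤ P 0 0 := by nlinarith [sq_nonneg (P 0 1), sq_nonneg (P 0 0)]
  have b1 : 0 ≤ P 1 1 := by nlinarith [sq_nonneg (P 0 1), sq_nonneg (P 1 1)]
  have k0 := Real.mul_self_sqrt b0
  have k1 := Real.mul_self_sqrt b1
  have k2 : Real.sqrt (P 0 0) * Real.sqrt (P 1 1) = |P 0 1| := by
    rw [← Real.sqrt_mul b0, ← Real.sqrt_mul_self_eq_abs]
    congr 1
    linarith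
  rcases le_total 0 (P 0 1) with hy | hy
  · rw [abs_of_nonneg hy] at k2
    exact ⟨Real.sqrt (P 0 0), Real.sqrt (P 1 1), k0.symm, k2.symm, by rw [e1, mul_comm, k2],
      k1.symm, by rw [k0, k1]; exact h2⟩
  · rw [abs_of_nonpos hy] at k2
    refine ⟨Real.sqrt (P 0 0), -Real.sqrt (P 1 1), k0.symm, by rw [mul_neg, k2, neg_neg],
      by rw [e1, neg_mul, mul_comm, k2, neg_neg], by rw [neg_mul_neg]; exact k1.symm, ?_⟩
    rw [neg_mul_neg, k0, k1]; exact h2

theorem cycIn_stab (Γ : Subgroup SL(2, ℝ)) (hΓ : FinBdd (Γ : Set SL(2, ℝ))) (p : P1) :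
    CycIn (MulAction.stabilizer Γ p) := by
  obtain ⟨c, s, p00, p01, p10, p11, hcs⟩ := exists_vec p
  let T : SL(2, ℝ) := ⟨!![c, -s; s, c], by rw [Matrix.det_fin_two_of]; linarith⟩
  have t00 : (T : M2) 0 0 = c := rfl
  have t01 : (T : M2) 0 1 = -s := rfl
  have t10 : (T : M2) 1 0 = s := rfl
  have t11 : (T : M2) 1 1 = c := rfl
  obtain ⟨i00, i01, i10, i11⟩ := einv T
  rw [t11] at i00
  rw [t01] at i01
  rw [t10] at i10
  rw [t00] at i11
  set S : Subgroup SL(2, ℝ) := (MulAction.stabilizer Γ p).map Γ.subtype with hS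
  have hSΓ : ∀ A ∈ S, A ∈ Γ ∧ A • p = p := by
    rintro _ ⟨A, hA, rfl⟩
    exact ⟨A.2, hA⟩
  set S' : Subgroup SL(2, ℝ) := S.map (MulAut.conj T⁻¹).toMonoidHom with hS'
  have hmem : ∀ B ∈ S', ∃ A ∈ S, B = T⁻¹ * A * T := by
    rintro _ ⟨A, hA, rfl⟩
    refine ⟨A, hA, ?_⟩
    show T⁻¹ * A * (T⁻¹)⁻¹ = _
    rw [inv_inv]
  have hut : ∀ B ∈ S', (B : M2) 1 0 = 0 := by
    intro B hB
    obtain ⟨A, hA, rfl⟩ := hmem B hB
    obtain ⟨-, hfix⟩ := hSΓ A hA
    rw [e10, e10, e11, i10, i11, t00, t10]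
    set a00 := (A : M2) 0 0
    set a01 := (A : M2) 0 1
    set a10 := (A : M2) 1 0
    set a11 := (A : M2) 1 1
    have h1 : Phi A p.1 = p.1 := by rw [← smul_val, hfix]
    have htr := trace_ne_zero (isUnit_det A) p.2
    set t := ((A : M2) * p.1 * (A : M2)ᵀ).trace with ht
    have h2 : (A : M2) * p.1 * (A : M2)ᵀ = t • p.1 := by
      conv_rhs => rw [← h1]
      rw [Phi, smul_smul, mul_inv_cancel₀ htr, one_smul]
    have q : ∀ i j : Fin 2, ((A : M2) * p.1 * (A : M2)ᵀ) i j = t * p.1 i j := by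
      intro i j
      rw [h2]; rfl
    have q00 := q 0 0
    have q01 := q 0 1
    have q11 := q 1 1
    simp only [Matrix.mul_apply, Fin.sum_univ_two, Matrix.transpose_apply, p00, p01, p10, p11]
      at q00 q01 q11
    have hsq : ((-s * a00 + c * a10) * c + (-s * a01 + c * a11) * s) ^ 2 = 0 := by
      linear_combination (s * s) * q00 - 2 * (c * s) * q01 + (c * c) * q11
    exact pow_eq_zero_iff (two_ne_zero) |>.mp hsq
  have hfin : FinBdd (S' : Set SL(2, ℝ)) := by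
    intro C
    have h1 : {A ∈ (S : Set SL(2, ℝ)) | hs A ≤ C}.Finite :=
      (hΓ C).subset (fun A hA => ⟨(hSΓ A hA.1).1, hA.2⟩)
    refine (h1.image (fun A => T⁻¹ * A * T)).subset ?_
    rintro B ⟨hB, hC⟩
    obtain ⟨A, hA, rfl⟩ := hmem B hB
    refine ⟨A, ⟨hA, ?_⟩, rfl⟩
    have e : hs ((T⁻¹ * A * T : SL(2, ℝ)) : M2) = (c * c + s * s) ^ 2 * hs A := by
      rw [hs_eq, hs_eq]
      simp only [e00, e01, e10, e11]
      rw [i00, i01, i10, i11, t00, t01, t10, t11]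
      ring
    rw [e, hcs, one_pow, one_mul] at hC
    exact hC
  have h1 : CycIn S' := cycIn_ut hut hfin
  have h2 : CycIn S := CycIn.of_map _ (MulAut.conj T⁻¹).injective h1
  exact CycIn.of_map Γ.subtype Subtype.val_injective h2

end Pool.Agent.W726.NS
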