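import Pool.Agent.W726.NS.Conv

/-! Norm bounds in (twisted) reduced group algebras, given abstractly by a faithful trace. -/

set_option autoImplicit false
set_option linter.unusedSectionVars false

namespace Pool.Agent.W726.NS

open Pool.Agent.H379R3.CS Finset
open scoped ENNReal

section faithful

variable {A : Type} [CStarAlgebra A]

/-- norm bounds from a faithful positive functional -/
lemma norm_le_of_faithful (τ : A →L[ℂ] ℂ)
    (hf : ∀ a : A, a ≠ 0 → ∃ r : ℝ, 0 < r ∧ τ (star a * a) = r) (a : A) {C : ℝ} (hC : 0 ≤ C)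
    (h : ∀ b : A, (τ (star (a * b) * (a * b))).re ≤ C ^ 2 * (τ (star b * b)).re) : ‖a‖ ≤ C := by
  set p : A := star a * a with hp
  have hpsa : IsSelfAdjoint p := IsSelfAdjoint.star_mul_self a
  set f : ℝ → ℝ := fun t => max (t - C ^ 2) 0 with hfd
  have hfc : Continuous f := by fun_prop
  have hf0 : ∀ t, 0 ≤ f t := fun t => le_max_right _ _
  set b : A := cfc f p with hb
  have hbsa : star b = b := (cfc_predicate f p : IsSelfAdjoint _)
  set g : ℝ → ℝ := fun t => f t * Real.sqrt (f t) with hgd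
  have hgc : Continuous g := by fun_prop
  set d : A := cfc g p with hd
  have hdsa : star d = d := (cfc_predicate g p : IsSelfAdjoint _)
  have e1 : star (a * b) * (a * b) = cfc (fun t => f t * t * f t) p := by
    rw [star_mul, hbsa]
    have : b * star a * (a * b) = b * p * b := by rw [hp]; noncomm_ring
    rw [this, cfc_mul (fun t => f t * t) f p (by fun_prop) (by fun_prop),
      cfc_mul f (fun t => t) p (by fun_prop) (by fun_prop), cfc_id' ℝ p hpsa]
  have e2 : star b * b = cfc (fun t => f t * f t) p := by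
    rw [hbsa, cfc_mul f f p (by fun_prop) (by fun_prop)]
  have e3 : star d * d = cfc (fun t => g t * g t) p := by
    rw [hdsa, cfc_mul g g p (by fun_prop) (by fun_prop)]
  have e4 : star (a * b) * (a * b) = star d * d + (C ^ 2 : ℝ) • (star b * b) := by
    rw [e1, e2, e3, ← cfc_smul (C ^ 2 : ℝ) (fun t => f t * f t) p (by fun_prop),
      ← cfc_add p (fun t => g t * g t) (fun t => (C ^ 2 : ℝ) • (f t * f t)) (by fun_prop)
        (by fun_prop)]
    refine cfc_congr (fun t _ => ?_)
    simp only [smul_eq_mul, hgd]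
    have h1 : Real.sqrt (f t) * Real.sqrt (f t) = f t := Real.mul_self_sqrt (hf0 t)
    have h2 : f t * f t * (t - C ^ 2) = f t * f t * f t := by
      rcases le_total (t - C ^ 2) 0 with h3 | h3
      · have : f t = 0 := max_eq_right h3
        rw [this]; ring
      · have : f t = t - C ^ 2 := max_eq_left h3
        rw [← this]
    linear_combination h2 - (f t * f t) * h1
  have e5 : τ (star (a * b) * (a * b)) = τ (star d * d) + (C ^ 2 : ℝ) • τ (star b * b) := by
    rw [e4, map_add]
    congr 1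
    have : ((C ^ 2 : ℝ) • (star b * b)) = ((C ^ 2 : ℝ) : ℂ) • (star b * b) :=
      (Complex.coe_smul _ _).symm
    rw [this, map_smul]
    exact Complex.coe_smul _ _
  have hd0 : d = 0 := by
    by_contra hne
    obtain ⟨r, hr, hr'⟩ := hf d hne
    have h1 := h b
    rw [e5, hr'] at h1
    rw [Complex.add_re, Complex.ofReal_re, Complex.real_smul, Complex.re_ofReal_mul] at h1
    linarith
  have hspec : ∀ t ∈ spectrum ℝ p, t ≤ C ^ 2 := by
    intro t ht
    have h1 : cfc g p = cfc (fun _ : ℝ => (0 : ℝ)) p := by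
      rw [cfc_const_zero]; exact hd0
    have h2 := eqOn_of_cfc_eq_cfc h1 (hf := by fun_prop) (hg := by fun_prop) (ha := hpsa) ht
    simp only [hgd] at h2
    by_contra hcon
    push Not at hcon
    have h3 : 0 < f t := lt_of_lt_of_le (by linarith : 0 < t - C ^ 2) (le_max_left _ _)
    have h4 : 0 < Real.sqrt (f t) := Real.sqrt_pos.mpr h3
    have := mul_pos h3 h4
    linarith
  have hnorm : ‖p‖ ≤ C ^ 2 := by
    have h1 : ‖cfc (fun t : ℝ => t) p‖ ≤ C ^ 2 := by
      refine norm_cfc_le (by positivity) (fun t ht => ?_)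
      rw [Real.norm_eq_abs, abs_of_nonneg (spectrum_star_mul_self_nonneg t ht)]
      exact hspec t ht
    rwa [cfc_id' ℝ p hpsa] at h1
  rw [hp, CStarRing.norm_star_mul_self] at hnorm
  nlinarith [norm_nonneg a]

end faithful

/-- `u` presents `A` as the reduced group C*-algebra of `G`, twisted by a cocycle: the `u g` are
unitaries which multiply like the elements of `G`, up to scalars of modulus one; their span is
dense; and there is a functional with value one at `1` and zero at each `u g`, `g ≠ 1`, which takes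
a positive value at `a* a` for each `a ≠ 0`. -/
structure RedAlg {A G : Type} [CStarAlgebra A] [Group G] (u : G → A) (τ : A →L[ℂ] ℂ) : Prop where
  unit : ∀ g, u g ∈ unitary A
  mul : ∀ g h, ∃ c : ℂ, ‖c‖ = 1 ∧ u (g * h) = c • (u g * u h)
  dense : (Submodule.span ℂ (Set.range u)).topologicalClosure = ⊤
  one : τ 1 = 1
  zero : ∀ g, g ≠ 1 → τ (u g) = 0
  pos : ∀ a : A, a ≠ 0 → ∃ r : ℝ, 0 < r ∧ τ (star a * a) = r

variable {A G : Type} [CStarAlgebra A] [Group G] {u : G → A} {τ : A →L[ℂ] ℂ}

lemma RedAlg.star_mul (h : RedAlg u τ) (g k : G) :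
    ∃ c : ℂ, ‖c‖ = 1 ∧ star (u g) * u k = c • u (g⁻¹ * k) := by
  obtain ⟨c, hc, h1⟩ := h.mul g (g⁻¹ * k)
  rw [mul_inv_cancel_left] at h1
  refine ⟨c, hc, ?_⟩
  rw [h1, mul_smul_comm, ← mul_assoc, Unitary.star_mul_self_of_mem (h.unit g), one_mul]

open Classical in
lemma RedAlg.tau (h : RedAlg u τ) (g k : G) : τ (star (u g) * u k) = if g = k then 1 else 0 := by
  split_ifs with hgk
  · rw [hgk, Unitary.star_mul_self_of_mem (h.unit k), h.one]
  · obtain ⟨c, -, hc⟩ := h.star_mul g k
    rw [hc, map_smul, h.zero _ (fun h1 => hgk (inv_mul_eq_one.mp h1)), smul_zero]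

/-- the Fourier coefficients -/
noncomputable def coef (u : G → A) (τ : A →L[ℂ] ℂ) (y : A) (z : G) : ℂ := τ (star (u z) * y)

lemma RedAlg.coef_mul (h : RedAlg u τ) (x z : G) (y : A) :
    ‖coef u τ (u x * y) z‖ = ‖coef u τ y (x⁻¹ * z)‖ := by
  obtain ⟨c, hc, h1⟩ := h.star_mul x z
  rw [coef, coef, ← mul_assoc]
  have h2 : star (u z) * u x = star c • star (u (x⁻¹ * z)) := by
    rw [← star_smul, ← h1, StarMul.star_mul, star_star]
  rw [h2, smul_mul_assoc, map_smul, norm_smul, norm_star, hc, one_mul]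

lemma RedAlg.exists_finsupp (h : RedAlg u τ) {y : A}
    (hy : y ∈ Submodule.span ℂ (Set.range u)) :
    ∃ β : G →₀ ℂ, (∀ z, coef u τ y z = β z) ∧
      τ (star y * y) = ((∑ z ∈ β.support, ‖β z‖ ^ 2 : ℝ) : ℂ) := by
  classical
  rw [← Finsupp.range_linearCombination] at hy
  obtain ⟨β, rfl⟩ := hy
  have h1 : ∀ z, coef u τ (Finsupp.linearCombination ℂ u β) z = β z := by
    intro z
    rw [coef, Finsupp.linearCombination_apply, Finsupp.sum, mul_sum, map_sum]
    have : ∀ g ∈ β.support, τ (star (u z) * β g • u g) = if z = g then β g else 0 := by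
      intro g _
      rw [mul_smul_comm, map_smul, h.tau, smul_eq_mul]
      split_ifs <;> simp
    rw [sum_congr rfl this, sum_ite_eq]
    split_ifs with hz
    · rfl
    · rw [Finsupp.notMem_support_iff] at hz
      exact hz.symm
  refine ⟨β, h1, ?_⟩
  have h2 : star (Finsupp.linearCombination ℂ u β) = ∑ g ∈ β.support, star (β g) • star (u g) := by
    rw [Finsupp.linearCombination_apply, Finsupp.sum, star_sum]
    exact sum_congr rfl fun g _ => star_smul _ _
  rw [h2, sum_mul, map_sum]
  push_cast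
  refine sum_congr rfl fun g _ => ?_
  rw [smul_mul_assoc, map_smul]
  have h3 : τ (star (u g) * Finsupp.linearCombination ℂ u β) = β g := h1 g
  rw [h3, smul_eq_mul, Complex.star_def, ← Complex.normSq_eq_conj_mul_self,
    Complex.normSq_eq_norm_sq]
  push_cast; rfl

lemma RedAlg.parseval (h : RedAlg u τ) {y : A} (hy : y ∈ Submodule.span ℂ (Set.range u)) :
    Summable (fun z => ‖coef u τ y z‖ ^ 2) ∧ (τ (star y * y)).re = ∑' z, ‖coef u τ y z‖ ^ 2 := by
  obtain ⟨β, h1, h2⟩ := h.exists_finsupp hy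
  have h3 : (fun z => ‖coef u τ y z‖ ^ 2) = fun z => ‖β z‖ ^ 2 := funext fun z => by rw [h1]
  have h4 : ∀ z ∉ β.support, ‖β z‖ ^ 2 = 0 := by
    intro z hz
    rw [Finsupp.notMem_support_iff] at hz
    rw [hz]; simp
  rw [h3]
  refine ⟨summable_of_ne_finset_zero h4, ?_⟩
  rw [h2, Complex.ofReal_re, tsum_eq_sum h4]

/-- **Norms are computed in `ℓ²(G)`, up to signs.** -/
theorem RedAlg.norm_sum_le (h : RedAlg u τ) {M : ℕ} (x : Fin M → G) (c : Fin M → ℂ) {C : ℝ}
    (hC : 0 ≤ C)
    (hb : ‖∑ k, ((‖c k‖ : ℝ) : ℂ) • (shift (x k) : L2 G →L[ℂ] L2 G)‖ ≤ C) :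
    ‖∑ k, c k • u (x k)‖ ≤ C := by
  set a : A := ∑ k, c k • u (x k) with ha
  refine norm_le_of_faithful τ h.pos a hC ?_
  -- it suffices to treat a dense subspace
  have hspan : ∀ b ∈ Submodule.span ℂ (Set.range u),
      (τ (star (a * b) * (a * b))).re ≤ C ^ 2 * (τ (star b * b)).re := by
    intro b hbs
    have hab : a * b ∈ Submodule.span ℂ (Set.range u) := by
      rw [ha, sum_mul]
      refine Submodule.sum_mem _ fun k _ => ?_
      rw [smul_mul_assoc]
      refine Submodule.smul_mem _ _ ?_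
      induction hbs using Submodule.span_induction with
      | mem b hb =>
        obtain ⟨g, rfl⟩ := hb
        obtain ⟨c', hc', h1⟩ := h.mul (x k) g
        have hc0 : c' ≠ 0 := by
          intro h0; rw [h0, norm_zero] at hc'; exact zero_ne_one hc'
        have h2 : u (x k) * u g = c'⁻¹ • u (x k * g) := by
          rw [h1, smul_smul, inv_mul_cancel₀ hc0, one_smul]
        rw [h2]
        exact Submodule.smul_mem _ _ (Submodule.subset_span ⟨_, rfl⟩)
      | zero => rw [mul_zero]; exact Submodule.zero_mem _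
      | add x y _ _ hx hy => rw [mul_add]; exact Submodule.add_mem _ hx hy
      | smul c x _ hx => rw [mul_smul_comm]; exact Submodule.smul_mem _ _ hx
    obtain ⟨s1, p1⟩ := h.parseval hbs
    obtain ⟨s2, p2⟩ := h.parseval hab
    rw [p1, p2]
    -- the vector of absolute values
    have hmem : Memℓp (fun z => ((‖coef u τ b z‖ : ℝ) : ℂ)) 2 := by
      rw [memℓp_gen_iff two_toReal_pos]
      have e : (2 : ℝ≥0∞).toReal = 2 := by norm_num
      rw [e]
      have : (fun z => ‖((‖coef u τ b z‖ : ℝ) : ℂ)‖ ^ (2 : ℝ)) =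
          fun z => ‖coef u τ b z‖ ^ 2 := by
        funext z
        rw [Complex.norm_real, norm_norm, ← Real.rpow_natCast]
        norm_num
      rw [this]
      exact s1
    set f : L2 G := ⟨fun z => ((‖coef u τ b z‖ : ℝ) : ℂ), hmem⟩ with hfdef
    have hfz : ∀ z, (f : G → ℂ) z = ((‖coef u τ b z‖ : ℝ) : ℂ) := fun z => rfl
    set T : L2 G →L[ℂ] L2 G := ∑ k, ((‖c k‖ : ℝ) : ℂ) • shift (x k) with hT
    have hTf : ∀ z, (T f : G → ℂ) z =
        ((∑ k, ‖c k‖ * ‖coef u τ b ((x k)⁻¹ * z)‖ : ℝ) : ℂ) := by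
      intro z
      rw [hT, _root_.sum_apply, lp.coeFn_sum, Finset.sum_apply]
      push_cast
      rfl
    have hle : ∀ z, ‖coef u τ (a * b) z‖ ^ 2 ≤ ‖(T f : G → ℂ) z‖ ^ 2 := by
      intro z
      have h1 : ‖coef u τ (a * b) z‖ ≤ ∑ k, ‖c k‖ * ‖coef u τ b ((x k)⁻¹ * z)‖ := by
        have e : coef u τ (a * b) z = ∑ k, c k * coef u τ (u (x k) * b) z := by
          rw [coef, ha, sum_mul, mul_sum, map_sum]
          refine sum_congr rfl fun k _ => ?_
          rw [smul_mul_assoc, mul_smul_comm, map_smul]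
          rfl
        rw [e]
        refine (_root_.norm_sum_le _ _).trans (le_of_eq ?_)
        refine sum_congr rfl fun k _ => ?_
        rw [norm_mul, h.coef_mul]
      rw [hTf, Complex.norm_real, Real.norm_eq_abs, sq_abs]
      gcongr
    calc ∑' z, ‖coef u τ (a * b) z‖ ^ 2 ≤ ∑' z, ‖(T f : G → ℂ) z‖ ^ 2 :=
          Summable.tsum_le_tsum hle s2 (summable_sq (T f))
      _ = ‖T f‖ ^ 2 := (norm_sq_eq (T f)).symm
      _ ≤ (C * ‖f‖) ^ 2 := by
          gcongr
          exact (T.le_opNorm f).trans (by gcongr)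
      _ = C ^ 2 * ∑' z, ‖coef u τ b z‖ ^ 2 := by
          rw [mul_pow, norm_sq_eq f]
          congr 1
          refine tsum_congr fun z => ?_
          rw [hfz, Complex.norm_real, norm_norm]
  intro b
  have hcl : IsClosed {b : A | (τ (star (a * b) * (a * b))).re ≤ C ^ 2 * (τ (star b * b)).re} :=
    isClosed_le (by fun_prop) (by fun_prop)
  have hb' : b ∈ (Submodule.span ℂ (Set.range u)).topologicalClosure := by
    rw [h.dense]; trivial
  exact hcl.closure_subset_iff.mpr hspan hb'

end Pool.Agent.W726.NS
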