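import Pool.Agent.Helper188.NCM.Group

/-! Orbits with sparse blocks of small norm. -/

set_option autoImplicit false
set_option linter.unusedSectionVars false

namespace Pool.Agent.W726.NS

open Finset Pool.Agent.Helper188.NCM

lemma shift_sum {E : Type*} [NormedAddCommGroup E] (a : ℕ → E) (ha : ∀ n, ‖a n‖ ≤ 1) (N k : ℕ) :
    ‖∑ n ∈ range N, a n - ∑ n ∈ range N, a (n + k)‖ ≤ 2 * k := by
  have e1 : ∑ n ∈ range (N + k), a n = ∑ n ∈ range N, a n + ∑ i ∈ range k, a (N + i) :=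
    sum_range_add a N k
  have e2 : ∑ n ∈ range (k + N), a n = ∑ n ∈ range k, a n + ∑ i ∈ range N, a (k + i) :=
    sum_range_add a k N
  have e3 : ∑ i ∈ range N, a (k + i) = ∑ n ∈ range N, a (n + k) :=
    sum_congr rfl fun i _ => by rw [add_comm]
  have e4 : ∑ n ∈ range N, a n - ∑ n ∈ range N, a (n + k) =
      ∑ n ∈ range k, a n - ∑ i ∈ range k, a (N + i) := by
    rw [← e3]
    rw [add_comm k N, e1] at e2
    have : ∑ n ∈ range N, a n = ∑ n ∈ range k, a n + ∑ i ∈ range N, a (k + i) -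
        ∑ i ∈ range k, a (N + i) := by rw [← e2]; abel
    rw [this]; abel
  rw [e4]
  have b1 : ‖∑ n ∈ range k, a n‖ ≤ k := by
    refine (norm_sum_le _ _).trans ?_
    refine (sum_le_sum fun n _ => ha n).trans ?_
    simp
  have b2 : ‖∑ n ∈ range k, a (N + n)‖ ≤ k := by
    refine (norm_sum_le _ _).trans ?_
    refine (sum_le_sum fun n _ => ha (N + n)).trans ?_
    simp
  refine (norm_sub_le _ _).trans ?_
  linarith

variable {U : Type} [CStarAlgebra U]

/-- if the orbit of `x` contains blocks of `M` terms all of whose combinations have norm at most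
`4 √M`, then `x` is Möbius disjoint from the dynamics -/
theorem pp_of_blocks (α : U →⋆ₐ[ℂ] U) (x : U) (hx : ‖x‖ ≤ 1)
    (h : ∀ M : ℕ, ∃ n : Fin M → ℕ, ∀ c : Fin M → ℂ, (∀ k, ‖c k‖ ≤ 1) →
      ‖∑ k, c k • (α^[n k]) x‖ ≤ 4 * Real.sqrt M) : PP α x := by
  intro ε hε
  obtain ⟨M, hM⟩ := exists_nat_ge ((8 / ε) ^ 2 + 1)
  have hMpos : (0 : ℝ) < M := lt_of_lt_of_le (by positivity) hM
  have hsq : 8 / ε ≤ Real.sqrt M := by
    apply Real.le_sqrt_of_sq_le
    linarith
  obtain ⟨n, hn⟩ := h M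
  obtain ⟨B, hB⟩ : ∃ B : ℕ, ∀ k, n k ≤ B :=
    ⟨Finset.univ.sup n, fun k => Finset.le_sup (f := n) (mem_univ k)⟩
  obtain ⟨N₀, hN₀⟩ := exists_nat_ge (4 * B / ε)
  refine ⟨N₀, fun N hN => ?_⟩
  set a : ℕ → U := fun m => mob m • (α^[m]) x with ha
  have ha1 : ∀ m, ‖a m‖ ≤ 1 := by
    intro m
    rw [ha]
    simp only [norm_smul]
    calc ‖mob m‖ * ‖(α^[m]) x‖ ≤ 1 * 1 := by
          gcongr
          · exact norm_mob_le m
          · exact (norm_iter_le α m x).trans hx
      _ = 1 := one_mul 1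
  have hiter : ∀ (m : ℕ) (c : Fin M → ℂ), ∑ k, c k • (α^[m]) ((α^[n k]) x) =
      (α^[m]) (∑ k, c k • (α^[n k]) x) := by
    intro m c
    induction m with
    | zero => simp
    | succ m ih =>
      simp only [Function.iterate_succ_apply'] at ih ⊢
      rw [← ih, map_sum]
      exact sum_congr rfl fun k _ => by rw [map_smul]
  have hblock : ∀ m : ℕ, ‖∑ k, a (m + n k)‖ ≤ 4 * Real.sqrt M := by
    intro m
    have e : ∑ k, a (m + n k) = (α^[m]) (∑ k, mob (m + n k) • (α^[n k]) x) := by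
      rw [← hiter]
      refine sum_congr rfl fun k _ => ?_
      rw [ha]
      simp only
      rw [Function.iterate_add_apply]
    rw [e]
    exact (norm_iter_le α m _).trans (hn _ fun k => norm_mob_le _)
  set S : U := ∑ m ∈ range N, a m with hS
  have h1 : (M : ℂ) • S = ∑ k : Fin M, (∑ m ∈ range N, a m - ∑ m ∈ range N, a (m + n k)) +
      ∑ m ∈ range N, ∑ k, a (m + n k) := by
    rw [sum_sub_distrib, sum_comm (s := range N)]
    simp only [sub_add_cancel, sum_const, card_univ, Fintype.card_fin]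
    rw [hS, ← Nat.cast_smul_eq_nsmul ℂ]
  have h2 : (M : ℝ) * ‖S‖ ≤ M * (2 * B) + N * (4 * Real.sqrt M) := by
    have e : (M : ℝ) * ‖S‖ = ‖(M : ℂ) • S‖ := by rw [norm_smul]; simp
    rw [e, h1]
    refine (norm_add_le _ _).trans (add_le_add ?_ ?_)
    · refine (norm_sum_le _ _).trans ?_
      refine (sum_le_sum (g := fun _ => (2 * B : ℝ)) fun k _ => ?_).trans ?_
      · refine (shift_sum a ha1 N (n k)).trans ?_
        have : (n k : ℝ) ≤ B := by exact_mod_cast hB k
        linarith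
      · simp
    · refine (norm_sum_le _ _).trans ?_
      refine (sum_le_sum (g := fun _ => (4 * Real.sqrt M : ℝ)) fun m _ => hblock m).trans ?_
      simp
  have h3 : ‖S‖ * Real.sqrt M ≤ 2 * B * Real.sqrt M + 4 * N := by
    have hs : 0 < Real.sqrt M := Real.sqrt_pos.mpr hMpos
    have hs2 : Real.sqrt M * Real.sqrt M = M := Real.mul_self_sqrt hMpos.le
    have h4 : Real.sqrt M * (‖S‖ * Real.sqrt M) ≤
        Real.sqrt M * (2 * B * Real.sqrt M + 4 * N) := by
      calc Real.sqrt M * (‖S‖ * Real.sqrt M) = (Real.sqrt M * Real.sqrt M) * ‖S‖ := by ring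
        _ = M * ‖S‖ := by rw [hs2]
        _ ≤ M * (2 * B) + N * (4 * Real.sqrt M) := h2
        _ = (Real.sqrt M * Real.sqrt M) * (2 * B) + N * (4 * Real.sqrt M) := by rw [hs2]
        _ = Real.sqrt M * (2 * B * Real.sqrt M + 4 * N) := by ring
    exact le_of_mul_le_mul_left h4 hs
  have hs : 0 < Real.sqrt M := Real.sqrt_pos.mpr hMpos
  have h5 : 4 * (B : ℝ) ≤ ε * N := by
    have : 4 * B / ε ≤ (N : ℝ) := hN₀.trans (by exact_mod_cast hN)
    rw [div_le_iff₀ hε] at this
    linarith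
  have h6 : 8 ≤ ε * Real.sqrt M := by
    rw [div_le_iff₀ hε] at hsq
    linarith
  have h7 : ‖S‖ * Real.sqrt M ≤ (ε * N) * Real.sqrt M := by
    have h8 : (8 : ℝ) * N ≤ ε * Real.sqrt M * N := by gcongr
    have h9 : 4 * (B : ℝ) * Real.sqrt M ≤ ε * N * Real.sqrt M := by gcongr
    nlinarith
  exact le_of_mul_le_mul_right h7 hs

end Pool.Agent.W726.NS
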