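import Mathlib

/-! Orbits of automorphisms and cosets of virtually cyclic subgroups. -/

set_option autoImplicit false
set_option linter.unusedSectionVars false

namespace Pool.Agent.W726.NS

open Set

variable {G : Type*} [Group G]

/-- finitely many cosets of a cyclic group cover `H` -/
def CycCover (H : Subgroup G) : Prop :=
  ∃ c : G, ∃ R : Finset G, ∀ g ∈ H, ∃ r ∈ R, ∃ i : ℤ, g = r * c ^ i

lemma CycCover.mono {H K : Subgroup G} (h : CycCover H) (hK : K ≤ H) : CycCover K := by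
  obtain ⟨c, R, hR⟩ := h
  exact ⟨c, R, fun g hg => hR g (hK hg)⟩

lemma cycCover_of_relIndex {H : Subgroup G} {c : G}
    (h : (Subgroup.zpowers c).relIndex H ≠ 0) : CycCover H := by
  classical
  set K := (Subgroup.zpowers c).subgroupOf H with hK
  have hKf : K.FiniteIndex := ⟨h⟩
  have hfin : Finite (H ⧸ K) := Subgroup.finite_quotient_of_finiteIndex
  have := Fintype.ofFinite (H ⧸ K)
  refine ⟨c, Finset.univ.image (fun q : H ⧸ K => ((q.out : H) : G)), fun g hg => ?_⟩
  refine ⟨_, Finset.mem_image_of_mem _ (Finset.mem_univ (QuotientGroup.mk ⟨g, hg⟩)), ?_⟩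
  have h1 : (QuotientGroup.mk ⟨g, hg⟩ : H ⧸ K).out⁻¹ * ⟨g, hg⟩ ∈ K := by
    rw [← QuotientGroup.eq]; exact QuotientGroup.out_eq' _
  obtain ⟨i, hi⟩ := Subgroup.mem_zpowers_iff.mp (Subgroup.mem_subgroupOf.mp h1)
  refine ⟨i, ?_⟩
  rw [hi]; simp

/-- the elements which commute with some positive power of `h` -/
def Ep (h : G) : Subgroup G where
  carrier := {g | ∃ n : ℕ, 0 < n ∧ Commute g (h ^ n)}
  mul_mem' := by
    rintro a b ⟨m, hm, ha⟩ ⟨n, hn, hb⟩
    refine ⟨m * n, Nat.mul_pos hm hn, ?_⟩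
    have h1 : Commute a (h ^ (m * n)) := by rw [pow_mul]; exact ha.pow_right n
    have h2 : Commute b (h ^ (m * n)) := by rw [mul_comm, pow_mul]; exact hb.pow_right m
    exact h1.mul_left h2
  one_mem' := ⟨1, one_pos, Commute.one_left _⟩
  inv_mem' := by
    rintro a ⟨m, hm, ha⟩
    exact ⟨m, hm, ha.inv_left⟩

lemma mem_Ep {h g : G} : g ∈ Ep h ↔ ∃ n : ℕ, 0 < n ∧ Commute g (h ^ n) := Iff.rfl

lemma zpow_mem_Ep (h : G) (i : ℤ) : h ^ i ∈ Ep h :=
  mem_Ep.mpr ⟨1, one_pos, by rw [pow_one]; exact (Commute.refl h).zpow_left i⟩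

lemma mem_Ep_of_zpow {h g : G} {i : ℤ} (hi : i ≠ 0) (hc : Commute g (h ^ i)) : g ∈ Ep h := by
  rcases lt_or_gt_of_ne hi with h1 | h1
  · refine mem_Ep.mpr ⟨(-i).toNat, by omega, ?_⟩
    rw [← zpow_natCast, Int.toNat_of_nonneg (by omega), zpow_neg]
    exact hc.inv_right
  · refine mem_Ep.mpr ⟨i.toNat, by omega, ?_⟩
    rw [← zpow_natCast, Int.toNat_of_nonneg (by omega)]
    exact hc

lemma Ep_le_of_zpow_eq {h k : G} {A B : ℤ} (hB : B ≠ 0) (he : h ^ A = k ^ B) :
    Ep h ≤ Ep k := by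
  intro g hg
  obtain ⟨n, hn, hc⟩ := mem_Ep.mp hg
  have h1 : Commute g (k ^ (B * n)) := by
    rw [zpow_mul, ← he, ← zpow_mul, mul_comm, zpow_mul, zpow_natCast]
    exact hc.zpow_right A
  exact mem_Ep_of_zpow (mul_ne_zero hB (by exact_mod_cast hn.ne')) h1

lemma Ep_eq_of_zpow_eq {h k : G} {A B : ℤ} (hA : A ≠ 0) (hB : B ≠ 0) (he : h ^ A = k ^ B) :
    Ep h = Ep k :=
  le_antisymm (Ep_le_of_zpow_eq hB he) (Ep_le_of_zpow_eq hA he.symm)

lemma Ep_map (σ : MulAut G) (h g : G) : σ g ∈ Ep (σ h) ↔ g ∈ Ep h := by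
  rw [mem_Ep, mem_Ep]
  constructor
  · rintro ⟨n, hn, hc⟩
    refine ⟨n, hn, ?_⟩
    have : σ (g * h ^ n) = σ (h ^ n * g) := by
      rw [map_mul, map_mul, map_pow]; exact hc.eq
    exact σ.injective this
  · rintro ⟨n, hn, hc⟩
    refine ⟨n, hn, ?_⟩
    rw [← map_pow]
    exact hc.map σ

lemma cover_pow {H : Subgroup G} {c : G} {R : Finset G}
    (hR : ∀ g ∈ H, ∃ r ∈ R, ∃ i : ℤ, g = r * c ^ i) :
    ∃ d : ℕ, 0 < d ∧ ∀ g ∈ H, ∃ i : ℤ, g ^ d = c ^ i := by
  classical
  refine ⟨(R.card).factorial, Nat.factorial_pos _, fun g hg => ?_⟩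
  choose! r hr i hi using fun (n : ℕ) => hR (g ^ n) (H.pow_mem hg n)
  obtain ⟨m, hm, n, hn, hmn, hrr⟩ := Finset.exists_ne_map_eq_of_card_lt_of_maps_to
    (s := Finset.range (R.card + 1)) (t := R) (by simp) (f := r) (fun n _ => hr n)
  wlog hlt : m < n generalizing m n
  · exact this n hn m hm hmn.symm hrr.symm (by omega)
  have h1 : g ^ (n - m) = c ^ (i n - i m) := by
    have e1 := hi m
    have e2 := hi n
    rw [← hrr] at e2
    have e3 : g ^ (n - m) = (g ^ m)⁻¹ * g ^ n := by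
      rw [eq_inv_mul_iff_mul_eq, ← pow_add]
      congr 1
      omega
    rw [e3, e1, e2, zpow_sub]
    group
  have h2 : n - m ∣ (R.card).factorial := by
    refine Nat.dvd_factorial (by omega) ?_
    have := Finset.mem_range.mp hn
    omega
  obtain ⟨q, hq⟩ := h2
  refine ⟨(i n - i m) * q, ?_⟩
  rw [hq, pow_mul, h1, ← zpow_natCast, ← zpow_mul]

lemma zpow_inj_of_infinite {c : G} (hc : ¬ IsOfFinOrder c) {i j : ℤ} (h : c ^ i = c ^ j) : i = j :=
  injective_zpow_iff_not_isOfFinOrder.mpr hc h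

lemma not_fin_pow {h : G} (hh : ¬ IsOfFinOrder h) {d : ℕ} (hd : 0 < d) : ¬ IsOfFinOrder (h ^ d) :=
  fun h' => hh (h'.of_pow hd.ne')

/-- **Lemma V.** -/
lemma lemV (τ : MulAut G) (E : Subgroup G) (hE : CycCover E) (hτ : ∀ x, τ x ∈ E ↔ x ∈ E)
    (h : G) (hh : ¬ IsOfFinOrder h) (hhE : h ∈ E) (g : G) (hg : g⁻¹ * τ g ∈ E) :
    ∃ m : ℕ, 0 < m ∧ (τ ^ m) (g⁻¹ * (τ ^ m) g) = g⁻¹ * (τ ^ m) g := by
  classical
  obtain ⟨c, R, hR⟩ := hE
  obtain ⟨d, hd, hpow⟩ := cover_pow hR
  have hτn : ∀ (n : ℤ) (x : G), (τ ^ n) x ∈ E ↔ x ∈ E := by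
    have hnat : ∀ (n : ℕ) (x : G), (τ ^ n) x ∈ E ↔ x ∈ E := by
      intro n
      induction n with
      | zero => intro x; simp
      | succ n ih => intro x; rw [pow_succ', MulAut.mul_apply, hτ, ih]
    intro n x
    obtain ⟨k, rfl | rfl⟩ := n.eq_nat_or_neg
    · rw [zpow_natCast]; exact hnat k x
    · rw [zpow_neg, zpow_natCast]
      have := hnat k ((τ ^ k)⁻¹ x)
      rw [MulAut.apply_inv_self] at this
      exact this.symm
  have hinf : ∀ n : ℤ, ¬ IsOfFinOrder ((τ ^ n) h) := by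
    intro n hn
    apply hh
    have : IsOfFinOrder ((τ ^ n)⁻¹ ((τ ^ n) h)) :=
      MonoidHom.isOfFinOrder (MulEquiv.toMonoidHom (τ ^ n)⁻¹) hn
    rwa [MulAut.inv_apply_self] at this
  choose u hu using fun n : ℤ => hpow ((τ ^ n) h) ((hτn n h).mpr hhE)
  have hc : ¬ IsOfFinOrder c := by
    intro hc
    have h1 := hu 0
    have h2 : IsOfFinOrder (((τ ^ (0 : ℤ)) h) ^ d) := by rw [h1]; exact hc.zpow
    exact not_fin_pow (hinf 0) hd h2
  have hu0 : ∀ n, u n ≠ 0 := by
    intro n h0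
    have h1 := hu n
    rw [h0, zpow_zero] at h1
    exact not_fin_pow (hinf n) hd (by rw [h1]; exact IsOfFinOrder.one)
  -- the relation
  have hrel0 : h ^ ((d : ℤ) * u 1) = (τ h) ^ ((d : ℤ) * u 0) := by
    have e0 := hu 0
    have e1 := hu 1
    rw [zpow_zero, MulAut.one_apply] at e0
    rw [zpow_one] at e1
    rw [zpow_mul, zpow_mul, zpow_natCast, zpow_natCast, e0, e1, ← zpow_mul, ← zpow_mul, mul_comm]
  have hrel : ∀ n : ℤ, u n * u 1 = u (n + 1) * u 0 := by
    intro n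
    have h1 := congrArg (τ ^ n) hrel0
    rw [map_zpow, map_zpow] at h1
    have h2 : (τ ^ n) (τ h) = (τ ^ (n + 1)) h := by rw [zpow_add_one, MulAut.mul_apply]
    rw [h2, zpow_mul, zpow_mul, zpow_natCast, zpow_natCast, hu, hu, ← zpow_mul, ← zpow_mul] at h1
    exact zpow_inj_of_infinite hc h1
  have habs : (u 1).natAbs = (u 0).natAbs := by
    have hrel' : ∀ n : ℤ, (u n).natAbs * (u 1).natAbs = (u (n + 1)).natAbs * (u 0).natAbs := by
      intro n
      rw [← Int.natAbs_mul, ← Int.natAbs_mul, hrel n]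
    have hpos : ∀ n, 0 < (u n).natAbs := fun n => Int.natAbs_pos.mpr (hu0 n)
    rcases lt_trichotomy (u 1).natAbs (u 0).natAbs with hlt | heq | hgt
    · exfalso
      have hdec : ∀ n : ℤ, (u (n + 1)).natAbs < (u n).natAbs := by
        intro n
        by_contra hcon
        push Not at hcon
        have h1 := hrel' n
        have h2 : (u n).natAbs * (u 1).natAbs < (u n).natAbs * (u 0).natAbs :=
          Nat.mul_lt_mul_of_pos_left hlt (hpos n)
        have h3 : (u n).natAbs * (u 0).natAbs ≤ (u (n + 1)).natAbs * (u 0).natAbs :=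
          Nat.mul_le_mul_right _ hcon
        omega
      have hk : ∀ k : ℕ, (u (k : ℤ)).natAbs + k ≤ (u 0).natAbs := by
        intro k
        induction k with
        | zero => simp
        | succ k ih =>
          have := hdec (k : ℤ)
          push_cast
          omega
      have := hk ((u 0).natAbs + 1)
      omega
    · exact heq
    · exfalso
      have hdec : ∀ n : ℤ, (u n).natAbs < (u (n + 1)).natAbs := by
        intro n
        by_contra hcon
        push Not at hcon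
        have h1 := hrel' n
        have h2 : (u n).natAbs * (u 0).natAbs < (u n).natAbs * (u 1).natAbs :=
          Nat.mul_lt_mul_of_pos_left hgt (hpos n)
        have h3 : (u (n + 1)).natAbs * (u 0).natAbs ≤ (u n).natAbs * (u 0).natAbs :=
          Nat.mul_le_mul_right _ hcon
        omega
      have hk : ∀ k : ℕ, (u (-(k : ℤ))).natAbs + k ≤ (u 0).natAbs := by
        intro k
        induction k with
        | zero => simp
        | succ k ih =>
          have := hdec (-((k : ℤ) + 1))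
          have e : -((k : ℤ) + 1) + 1 = -(k : ℤ) := by ring
          rw [e] at this
          push_cast
          omega
      have := hk ((u 0).natAbs + 1)
      omega
  -- the invariant element
  set c0 : G := h ^ ((d : ℤ) * u 0) with hc0
  have hτc0 : τ c0 = c0 ∨ τ c0 = c0⁻¹ := by
    have h1 : τ c0 = h ^ ((d : ℤ) * u 1) := by
      rw [hc0, map_zpow]; exact hrel0.symm
    rcases Int.natAbs_eq_natAbs_iff.mp habs with h2 | h2
    · left; rw [h1, h2]
    · right; rw [h1, h2, mul_neg, zpow_neg]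
  have hτ2 : (τ ^ 2) c0 = c0 := by
    rw [pow_two, MulAut.mul_apply]
    rcases hτc0 with h1 | h1
    · rw [h1, h1]
    · rw [h1, map_inv, h1, inv_inv]
  have hτ2n : ∀ j : ℕ, (τ ^ (2 * j)) c0 = c0 := by
    intro j
    rw [pow_mul]
    induction j with
    | zero => simp
    | succ j ih => rw [pow_succ, MulAut.mul_apply, hτ2, ih]
  have hc0c : c0 = c ^ (u 0 * u 0) := by
    have e0 := hu 0
    rw [zpow_zero, MulAut.one_apply] at e0
    rw [hc0, zpow_mul, zpow_natCast, e0, ← zpow_mul]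
  set v : ℤ := u 0 * u 0 with hv
  have hv0 : 0 < v := mul_self_pos.mpr (hu0 0)
  -- the cocycle
  set y : ℕ → G := fun n => g⁻¹ * (τ ^ n) g with hy
  have hyadd : ∀ m n : ℕ, y (m + n) = y m * (τ ^ m) (y n) := by
    intro m n
    simp only [hy]
    rw [map_mul, map_inv, pow_add, MulAut.mul_apply]
    group
  have hyE : ∀ n, y n ∈ E := by
    intro n
    induction n with
    | zero => simp [hy, E.one_mem]
    | succ n ih =>
      rw [hyadd n 1]
      refine E.mul_mem ih ?_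
      have := (hτn n (y 1)).mpr (by simpa [hy] using hg)
      rwa [zpow_natCast] at this
  choose! r hr i hi using fun (n : ℕ) => hR (y (2 * n)) (hyE (2 * n))
  -- pigeonhole
  have hvn : NeZero v.toNat := ⟨by omega⟩
  obtain ⟨m, n, hmn, heq⟩ := Finite.exists_ne_map_eq_of_infinite
    (fun k : ℕ => ((⟨r k, hr k⟩ : R), ((i k : ℤ) : ZMod v.toNat)))
  wlog hlt : m < n generalizing m n
  · exact this n m hmn.symm heq.symm (by omega)
  obtain ⟨h1, h2⟩ := Prod.mk.inj heq
  have h1' : r m = r n := congrArg Subtype.val h1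
  rw [ZMod.intCast_eq_intCast_iff_dvd_sub, Int.toNat_of_nonneg hv0.le] at h2
  obtain ⟨q, hq⟩ := h2
  have h3 : (y (2 * m))⁻¹ * y (2 * n) = c0 ^ q := by
    have e1 := hi m
    have e2 := hi n
    rw [← h1'] at e2
    have e3 : c0 ^ q = c ^ (i n - i m) := by rw [hc0c, ← zpow_mul, hq]
    rw [e3, e1, e2, zpow_sub]
    group
  set k := n - m with hk
  have h4 : (τ ^ (2 * m)) (y (2 * k)) = c0 ^ q := by
    rw [← h3]
    have := hyadd (2 * m) (2 * k)
    have e : 2 * m + 2 * k = 2 * n := by omega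
    rw [e] at this
    rw [this]
    group
  have h5 : y (2 * k) = c0 ^ q := by
    apply (τ ^ (2 * m)).injective
    rw [h4, map_zpow, hτ2n]
  refine ⟨2 * k, by omega, ?_⟩
  change (τ ^ (2 * k)) (y (2 * k)) = y (2 * k)
  rw [h5, map_zpow, hτ2n]

end Pool.Agent.W726.NS
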