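import Pool.Agent.W726.NS.Fuchs
import Pool.Agent.W726.NS.Grp

/-! Point stabilisers of discrete subgroups of `SL(2, ℝ)` are virtually cyclic. -/

set_option autoImplicit false
set_option linter.unusedSectionVars false

namespace Pool.Agent.W726.NS

open Matrix Filter Topology Set
open scoped MatrixGroups

/-- finitely many cosets of a cyclic subgroup of `S` cover `S` -/
def CycIn {G : Type*} [Group G] (S : Subgroup G) : Prop :=
  ∃ c ∈ S, ∃ R : Finset G, (∀ r ∈ R, r ∈ S) ∧ ∀ g ∈ S, ∃ r ∈ R, ∃ i : ℤ, g = r * c ^ i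

lemma CycIn.cover {G : Type*} [Group G] {S : Subgroup G} (h : CycIn S) : CycCover S := by
  obtain ⟨c, -, R, -, hR⟩ := h
  exact ⟨c, R, hR⟩

lemma CycIn.of_map {G G' : Type*} [Group G] [Group G'] {S : Subgroup G} (φ : G →* G')
    (hφ : Function.Injective φ) (h : CycIn (S.map φ)) : CycIn S := by
  classical
  obtain ⟨c, ⟨c0, hc0, rfl⟩, R, hRS, hR⟩ := h
  choose! ρ hρS hρ using (fun r hr => Subgroup.mem_map.mp (hRS r hr))
  refine ⟨c0, hc0, R.image ρ, ?_, ?_⟩
  · intro r hr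
    obtain ⟨r', hr', rfl⟩ := Finset.mem_image.mp hr
    exact hρS r' hr'
  · intro g hg
    obtain ⟨r, hr, i, hi⟩ := hR (φ g) (Subgroup.mem_map_of_mem φ hg)
    refine ⟨ρ r, Finset.mem_image_of_mem ρ hr, i, ?_⟩
    apply hφ
    rw [hi, map_mul, map_zpow, hρ r hr]

lemma cycIn_of_hom {G : Type*} [Group G] {S : Subgroup G} (θ : G → ℝ)
    (hθ : ∀ a ∈ S, ∀ b ∈ S, θ (a * b) = θ a + θ b)
    (hfin : ∀ C : ℝ, {a ∈ (S : Set G) | |θ a| ≤ C}.Finite) : CycIn S := by
  classical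
  have hz : ∀ c ∈ S, ∀ i : ℤ, θ (c ^ i) = i * θ c := by
    intro c hc i
    let f : S →* Multiplicative ℝ := MonoidHom.mk' (fun a : S => Multiplicative.ofAdd (θ a))
      (fun a b => by
        show Multiplicative.ofAdd (θ (a * b : G)) = _
        rw [hθ a a.2 b b.2]; rfl)
    have h1 := map_zpow f ⟨c, hc⟩ i
    have h2 := congrArg Multiplicative.toAdd h1
    rw [toAdd_zpow] at h2
    have h3 : Multiplicative.toAdd (f (⟨c, hc⟩ ^ i)) = θ (c ^ i) := rfl
    have h4 : Multiplicative.toAdd (f ⟨c, hc⟩) = θ c := rfl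
    rw [h3, h4, zsmul_eq_mul] at h2
    exact h2
  by_cases h0 : ∀ a ∈ S, θ a = 0
  · refine ⟨1, S.one_mem, (hfin 0).toFinset, fun r hr => ((hfin 0).mem_toFinset.mp hr).1,
      fun g hg => ⟨g, (hfin 0).mem_toFinset.mpr ⟨hg, by rw [h0 g hg, abs_zero]⟩, 0, by simp⟩⟩
  · push Not at h0
    obtain ⟨c, hc, hc0⟩ := h0
    refine ⟨c, hc, (hfin |θ c|).toFinset, fun r hr => ((hfin |θ c|).mem_toFinset.mp hr).1,
      fun g hg => ?_⟩
    set k : ℤ := ⌊θ g / θ c⌋ with hk
    have hmem : g * c ^ (-k) ∈ S := S.mul_mem hg (S.zpow_mem hc _)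
    refine ⟨g * c ^ (-k), (hfin |θ c|).mem_toFinset.mpr ⟨hmem, ?_⟩, k, by group⟩
    rw [hθ g hg _ (S.zpow_mem hc _), hz c hc]
    have e : θ g + ((-k : ℤ) : ℝ) * θ c = (θ g / θ c - k) * θ c := by
      push_cast
      field_simp
      ring
    rw [e, abs_mul]
    have h1 : |θ g / θ c - k| ≤ 1 := by
      rw [abs_le]
      have := Int.floor_le (θ g / θ c)
      have := Int.lt_floor_add_one (θ g / θ c)
      constructor <;> linarith
    calc |θ g / θ c - k| * |θ c| ≤ 1 * |θ c| := by gcongr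
      _ = |θ c| := one_mul _

section ut

lemma e00 (A B : SL(2, ℝ)) : ((A * B : SL(2, ℝ)) : M2) 0 0 =
    (A : M2) 0 0 * (B : M2) 0 0 + (A : M2) 0 1 * (B : M2) 1 0 := by
  rw [Matrix.SpecialLinearGroup.coe_mul, Matrix.mul_apply, Fin.sum_univ_two]

lemma e01 (A B : SL(2, ℝ)) : ((A * B : SL(2, ℝ)) : M2) 0 1 =
    (A : M2) 0 0 * (B : M2) 0 1 + (A : M2) 0 1 * (B : M2) 1 1 := by
  rw [Matrix.SpecialLinearGroup.coe_mul, Matrix.mul_apply, Fin.sum_univ_two]

lemma e10 (A B : SL(2, ℝ)) : ((A * B : SL(2, ℝ)) : M2) 1 0 =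
    (A : M2) 1 0 * (B : M2) 0 0 + (A : M2) 1 1 * (B : M2) 1 0 := by
  rw [Matrix.SpecialLinearGroup.coe_mul, Matrix.mul_apply, Fin.sum_univ_two]

lemma e11 (A B : SL(2, ℝ)) : ((A * B : SL(2, ℝ)) : M2) 1 1 =
    (A : M2) 1 0 * (B : M2) 0 1 + (A : M2) 1 1 * (B : M2) 1 1 := by
  rw [Matrix.SpecialLinearGroup.coe_mul, Matrix.mul_apply, Fin.sum_univ_two]

lemma einv (A : SL(2, ℝ)) : ((A⁻¹ : SL(2, ℝ)) : M2) 0 0 = (A : M2) 1 1 ∧
    ((A⁻¹ : SL(2, ℝ)) : M2) 0 1 = - (A : M2) 0 1 ∧ ((A⁻¹ : SL(2, ℝ)) : M2) 1 0 = - (A : M2) 1 0 ∧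
    ((A⁻¹ : SL(2, ℝ)) : M2) 1 1 = (A : M2) 0 0 := by
  rw [Matrix.SpecialLinearGroup.coe_inv, Matrix.adjugate_fin_two]
  exact ⟨rfl, rfl, rfl, rfl⟩

lemma sl_ext {A B : SL(2, ℝ)} (h0 : (A : M2) 0 0 = (B : M2) 0 0)
    (h1 : (A : M2) 0 1 = (B : M2) 0 1) (h2 : (A : M2) 1 0 = (B : M2) 1 0)
    (h3 : (A : M2) 1 1 = (B : M2) 1 1) : A = B := by
  apply Subtype.ext
  ext i j
  fin_cases i <;> fin_cases j
  · exact h0
  · exact h1
  · exact h2
  · exact h3

variable {S : Subgroup SL(2, ℝ)}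

lemma det_ut (hut : ∀ A ∈ S, (A : M2) 1 0 = 0) {A : SL(2, ℝ)} (hA : A ∈ S) :
    (A : M2) 0 0 * (A : M2) 1 1 = 1 := by
  have h : (A : M2).det = 1 := A.2
  rw [Matrix.det_fin_two, hut A hA, mul_zero, sub_zero] at h
  exact h

lemma no_unipotent (hut : ∀ A ∈ S, (A : M2) 1 0 = 0) (hS : FinBdd (S : Set SL(2, ℝ)))
    {h : SL(2, ℝ)} (hh : h ∈ S) (hlt : |(h : M2) 0 0| < 1) {u : SL(2, ℝ)} (hu : u ∈ S)
    (hu1 : (u : M2) 0 0 = 1) : u = 1 := by
  have hd := det_ut hut hu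
  rw [hu1, one_mul] at hd
  by_contra hne
  have ht : (u : M2) 0 1 ≠ 0 := by
    intro h0
    apply hne
    refine sl_ext ?_ ?_ ?_ ?_
    · rw [hu1, Matrix.SpecialLinearGroup.coe_one, Matrix.one_apply_eq]
    · rw [h0, Matrix.SpecialLinearGroup.coe_one, Matrix.one_apply_ne (by decide)]
    · rw [hut u hu, Matrix.SpecialLinearGroup.coe_one, Matrix.one_apply_ne (by decide)]
    · rw [hd, Matrix.SpecialLinearGroup.coe_one, Matrix.one_apply_eq]
  set t := (u : M2) 0 1 with htd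
  set l := (h : M2) 0 0 with hl
  have hhd := det_ut hut hh
  have hl0 : l ≠ 0 := fun h0 => by rw [← hl, h0, zero_mul] at hhd; exact zero_ne_one hhd
  have hh10 := hut h hh
  -- the conjugates
  set v : ℕ → SL(2, ℝ) := fun n => h ^ n * u * (h ^ n)⁻¹ with hv
  have hvS : ∀ n, v n ∈ S := fun n => S.mul_mem (S.mul_mem (S.pow_mem hh n) hu)
    (S.inv_mem (S.pow_mem hh n))
  have hvs : ∀ n, v (n + 1) = h * v n * h⁻¹ := by
    intro n
    simp only [hv]
    rw [pow_succ']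
    group
  have hve : ∀ n, (v n : M2) 0 0 = 1 ∧ (v n : M2) 0 1 = (l ^ 2) ^ n * t ∧
      (v n : M2) 1 1 = 1 := by
    intro n
    induction n with
    | zero =>
      simp only [hv, pow_zero, one_mul, inv_one, mul_one]
      exact ⟨hu1, htd.symm, hd⟩
    | succ n ih =>
      obtain ⟨i0, i1, i2⟩ := ih
      have i3 := hut _ (hvS n)
      obtain ⟨j0, j1, j2, j3⟩ := einv h
      rw [hvs n]
      refine ⟨?_, ?_, ?_⟩
      · rw [e00, e00, e01, i0, i1, i2, i3, j0, j2, hh10, ← hl]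
        linear_combination hhd
      · rw [e01, e00, e01, i0, i1, i2, i3, j1, j3, ← hl]
        ring
      · rw [e11, e10, e11, i0, i1, i2, i3, j1, j3, hh10, ← hl]
        linear_combination hhd
  have hl2 : l ^ 2 < 1 := by
    have : |l| ^ 2 < 1 := by
      have := abs_nonneg l
      nlinarith
    rwa [sq_abs] at this
  have hl2p : 0 < l ^ 2 := by positivity
  have hinj : Function.Injective v := by
    intro m n hmn
    have h1 : (l ^ 2) ^ m * t = (l ^ 2) ^ n * t := by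
      rw [← (hve m).2.1, ← (hve n).2.1, hmn]
    have h2 := mul_right_cancel₀ ht h1
    exact pow_right_injective₀ hl2p hl2.ne h2
  have hbd : ∀ n, hs (v n : M2) ≤ 2 + t ^ 2 := by
    intro n
    obtain ⟨i0, i1, i2⟩ := hve n
    have i3 := hut _ (hvS n)
    rw [hs_eq, i0, i1, i2, i3]
    have h1 : (l ^ 2) ^ n ≤ 1 := pow_le_one₀ hl2p.le hl2.le
    have h2 : 0 ≤ (l ^ 2) ^ n := by positivity
    have h3 : ((l ^ 2) ^ n) ^ 2 ≤ 1 := by nlinarith
    nlinarith [sq_nonneg t]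
  have hfin := (hS (2 + t ^ 2)).preimage (f := v) hinj.injOn
  have huniv : v ⁻¹' {A ∈ (S : Set SL(2, ℝ)) | hs A ≤ 2 + t ^ 2} = univ := by
    ext n
    simp only [mem_preimage, mem_univ, iff_true]
    exact ⟨hvS n, hbd n⟩
  rw [huniv] at hfin
  exact infinite_univ hfin

theorem cycIn_ut (hut : ∀ A ∈ S, (A : M2) 1 0 = 0) (hS : FinBdd (S : Set SL(2, ℝ))) :
    CycIn S := by
  have hmul : ∀ a ∈ S, ∀ b ∈ S, ((a * b : SL(2, ℝ)) : M2) 0 0 = (a : M2) 0 0 * (b : M2) 0 0 := by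
    intro a _ b hb
    rw [e00, hut b hb, mul_zero, add_zero]
  have h00 : ∀ a ∈ S, (a : M2) 0 0 ≠ 0 := by
    intro a ha h0
    have := det_ut hut ha
    rw [h0, zero_mul] at this
    exact zero_ne_one this
  by_cases hcase : ∀ a ∈ S, |(a : M2) 0 0| = 1
  · -- parabolic case
    have hsq : ∀ a ∈ S, (a : M2) 0 0 * (a : M2) 0 0 = 1 := by
      intro a ha
      have := hcase a ha
      rw [← abs_mul_abs_self, this, one_mul]
    refine cycIn_of_hom (fun a => (a : M2) 0 0 * (a : M2) 0 1) ?_ ?_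
    · intro a ha b hb
      rw [hmul a ha b hb, e01]
      have h1 := hsq a ha
      have h2 := det_ut hut hb
      linear_combination ((b : M2) 0 0 * (b : M2) 0 1) * h1 + ((a : M2) 0 0 * (a : M2) 0 1) * h2
    · intro C
      refine (hS (2 + C ^ 2)).subset ?_
      rintro a ⟨ha, hC⟩
      refine ⟨ha, ?_⟩
      have h1 := hsq a ha
      have h2 := det_ut hut ha
      have h3 : (a : M2) 1 1 ^ 2 = 1 := by
        have : ((a : M2) 0 0 * (a : M2) 0 0) * ((a : M2) 1 1) ^ 2 = 1 := by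
          linear_combination ((a : M2) 0 0 * (a : M2) 1 1 + 1) * h2
        rwa [h1, one_mul] at this
      rw [abs_mul, hcase a ha, one_mul] at hC
      have h4 : ((a : M2) 0 1) ^ 2 ≤ C ^ 2 := by
        rw [← sq_abs]
        have := abs_nonneg ((a : M2) 0 1)
        gcongr
      rw [hs_eq, hut a ha, h3]
      have h5 : ((a : M2) 0 0) ^ 2 = 1 := by rw [pow_two]; exact h1
      rw [h5]
      linarith
  · -- hyperbolic case
    push Not at hcase
    obtain ⟨h, hh, hlt⟩ : ∃ h ∈ S, |(h : M2) 0 0| < 1 := by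
      obtain ⟨h, hh, hne⟩ := hcase
      rcases lt_or_gt_of_ne hne with h1 | h1
      · exact ⟨h, hh, h1⟩
      · refine ⟨h⁻¹, S.inv_mem hh, ?_⟩
        rw [(einv h).1]
        have h2 := det_ut hut hh
        have h3 : |(h : M2) 0 0| * |(h : M2) 1 1| = 1 := by rw [← abs_mul, h2, abs_one]
        by_contra hcon
        push Not at hcon
        nlinarith [abs_nonneg ((h : M2) 0 0)]
    have hcomm : ∀ a ∈ S, a * h = h * a := by
      intro a ha
      have h1 : a * h * (h * a)⁻¹ ∈ S := S.mul_mem (S.mul_mem ha hh) (S.inv_mem (S.mul_mem hh ha))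
      have h2 : ((a * h * (h * a)⁻¹ : SL(2, ℝ)) : M2) 0 0 = 1 := by
        rw [hmul _ (S.mul_mem ha hh) _ (S.inv_mem (S.mul_mem hh ha)), hmul a ha h hh,
          (einv (h * a)).1, e11, hut h hh]
        have k1 := det_ut hut ha
        have k2 := det_ut hut hh
        linear_combination ((h : M2) 0 0 * (h : M2) 1 1) * k1 + k2
      have h3 := no_unipotent hut hS hh hlt h1 h2
      rw [mul_inv_eq_one] at h3
      exact h3
    have hhd := det_ut hut hh
    set l := (h : M2) 0 0 with hl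
    set m := (h : M2) 1 1 with hm
    have hlm : m - l ≠ 0 := by
      intro h0
      have h1 : l * l = 1 := by
        have : m = l := by linarith
        rw [this] at hhd; exact hhd
      have h2 : |l| * |l| = 1 := by rw [abs_mul_abs_self]; exact h1
      nlinarith [abs_nonneg l]
    refine cycIn_of_hom (fun a => Real.log |(a : M2) 0 0|) ?_ ?_
    · intro a ha b hb
      rw [hmul a ha b hb, abs_mul, Real.log_mul (abs_ne_zero.mpr (h00 a ha))
        (abs_ne_zero.mpr (h00 b hb))]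
    · intro C
      set E := Real.exp C with hE
      have hEpos : 0 < E := Real.exp_pos C
      set K : ℝ := |(h : M2) 0 1| * (2 * E) / |m - l| with hK
      refine (hS (E ^ 2 + K ^ 2 + E ^ 2)).subset ?_
      rintro a ⟨ha, hC⟩
      refine ⟨ha, ?_⟩
      rw [abs_le] at hC
      have hpos : 0 < |(a : M2) 0 0| := abs_pos.mpr (h00 a ha)
      have k1 : |(a : M2) 0 0| ≤ E := by
        rw [hE, ← Real.log_le_iff_le_exp hpos]; exact hC.2
      have hda := det_ut hut ha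
      have hpos1 : 0 < |(a : M2) 1 1| := by
        rw [abs_pos]
        intro h0
        rw [h0, mul_zero] at hda
        exact zero_ne_one hda
      have hda' : |(a : M2) 0 0| * |(a : M2) 1 1| = 1 := by rw [← abs_mul, hda, abs_one]
      have k2 : |(a : M2) 1 1| ≤ E := by
        rw [hE, ← Real.log_le_iff_le_exp hpos1]
        have h1 : Real.log |(a : M2) 0 0| + Real.log |(a : M2) 1 1| = 0 := by
          rw [← Real.log_mul hpos.ne' hpos1.ne', hda', Real.log_one]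
        linarith [hC.1]
      have k3 : (a : M2) 0 1 * (m - l) = (h : M2) 0 1 * ((a : M2) 1 1 - (a : M2) 0 0) := by
        have h1 := congrArg (fun M : SL(2, ℝ) => (M : M2) 0 1) (hcomm a ha)
        simp only [e01] at h1
        linear_combination h1
      have k4 : |(a : M2) 0 1| ≤ K := by
        rw [hK, le_div_iff₀ (abs_pos.mpr hlm), ← abs_mul, k3, abs_mul]
        have h1 : |(a : M2) 1 1 - (a : M2) 0 0| ≤ 2 * E := by
          refine (abs_sub _ _).trans ?_
          linarith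
        gcongr
      have q1 : ((a : M2) 0 0) ^ 2 ≤ E ^ 2 := by rw [← sq_abs]; gcongr
      have q2 : ((a : M2) 1 1) ^ 2 ≤ E ^ 2 := by rw [← sq_abs]; gcongr
      have q3 : ((a : M2) 0 1) ^ 2 ≤ K ^ 2 := by
        rw [← sq_abs]
        have := abs_nonneg ((a : M2) 0 1)
        gcongr
      rw [hs_eq, hut a ha]
      linarith

end ut

end Pool.Agent.W726.NS
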