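import Pool.Agent.W726.NS.Shift

/-! Convergence actions: sparse sequences of group elements have small norm. -/

set_option autoImplicit false
set_option linter.unusedSectionVars false

namespace Pool.Agent.W726.NS

open Pool.Agent.H379R3.CS Filter Topology Set

/-- `G` acts on `X` by homeomorphisms, as a convergence group: each sequence of distinct elements
has a subsequence which converges to a point `a`, uniformly off each neighbourhood of a point
`b`. -/
def ConvergenceAction (G X : Type*) [Group G] [TopologicalSpace X] [MulAction G X] : Prop :=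
  (∀ g : G, Continuous fun p : X => g • p) ∧
  ∀ x : ℕ → G, Function.Injective x → ∃ φ : ℕ → ℕ, StrictMono φ ∧ ∃ a b : X,
    ∀ U ∈ 𝓝 a, ∀ V ∈ 𝓝 b, ∀ᶠ n in atTop, ∀ p : X, p ∉ V → x (φ n) • p ∈ U

variable {G X : Type*} [Group G] [TopologicalSpace X] [CompactSpace X] [T2Space X] [MulAction G X]

/-- neighbourhoods of four points -/
structure St (a b c d : X) where
  V : Set X
  U : Set X
  W : Set X
  W' : Set X
  hV : IsOpen V
  hU : IsOpen U
  hW : IsOpen W
  hW' : IsOpen W'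
  bV : b ∈ V
  aU : a ∈ U
  cW : c ∈ W
  dW' : d ∈ W'

lemma step_exists (hcont : ∀ g : G, Continuous fun p : X => g • p) (x : ℕ → G) (a b c d : X)
    (hconv : ∀ U ∈ 𝓝 a, ∀ V ∈ 𝓝 b, ∀ᶠ n in atTop, ∀ p : X, p ∉ V → x n • p ∈ U)
    (hfin : ∀ p q : X, {n | x n • p = q}.Finite)
    (hc : Tendsto (fun n => x n • b) (hyperfilter ℕ : Filter ℕ) (𝓝 c))
    (hd : Tendsto (fun n => (x n)⁻¹ • a) (hyperfilter ℕ : Filter ℕ) (𝓝 d))
    (s : St a b c d) (N : ℕ) :
    ∃ (n : ℕ) (s' : St a b c d) (A A' : Set X), N < n ∧ (∀ p, p ∉ s.V → x n • p ∈ s.U) ∧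
      s'.V ⊆ s.V ∧ (∀ p ∈ s'.V, x n • p ∈ A) ∧ A ⊆ s.W ∧ s'.W ⊆ s.W ∧ Disjoint A s'.W ∧
      s'.U ⊆ s.U ∧ (∀ p, x n • p ∈ s'.U → p ∈ A') ∧ A' ⊆ s.W' ∧ s'.W' ⊆ s.W' ∧
      Disjoint A' s'.W' := by
  have hle : (hyperfilter ℕ : Filter ℕ) ≤ atTop := by
    rw [← Nat.cofinite_eq_atTop]; exact hyperfilter_le_cofinite
  have e1 : ∀ᶠ n in (hyperfilter ℕ : Filter ℕ), N < n := hle (eventually_gt_atTop N)
  have e2 : ∀ᶠ n in (hyperfilter ℕ : Filter ℕ), ∀ p : X, p ∉ s.V → x n • p ∈ s.U :=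
    hle (hconv s.U (s.hU.mem_nhds s.aU) s.V (s.hV.mem_nhds s.bV))
  have e3 : ∀ᶠ n in (hyperfilter ℕ : Filter ℕ), x n • b ∈ s.W :=
    hc (s.hW.mem_nhds s.cW)
  have e4 : ∀ᶠ n in (hyperfilter ℕ : Filter ℕ), (x n)⁻¹ • a ∈ s.W' :=
    hd (s.hW'.mem_nhds s.dW')
  have e5 : ∀ᶠ n in (hyperfilter ℕ : Filter ℕ), x n • b ≠ c := by
    have h := hfin b c
    exact hyperfilter_le_cofinite h.compl_mem_cofinite
  have e6 : ∀ᶠ n in (hyperfilter ℕ : Filter ℕ), (x n)⁻¹ • a ≠ d := by
    have h := hfin d a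
    have h2 : {n | (x n)⁻¹ • a ≠ d} = {n | x n • d = a}ᶜ := by
      ext n
      simp only [mem_ofPred_eq, mem_compl_iff, ne_eq, inv_smul_eq_iff]
      constructor
      · intro h h'; exact h h'.symm
      · intro h h'; exact h h'.symm
    have h3 : {n | (x n)⁻¹ • a ≠ d} ∈ (hyperfilter ℕ : Filter ℕ) := by
      rw [h2]
      exact hyperfilter_le_cofinite h.compl_mem_cofinite
    exact h3
  obtain ⟨n, h1, h2, h3, h4, h5, h6⟩ :=
    (e1.and (e2.and (e3.and (e4.and (e5.and e6))))).exists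
  obtain ⟨A0, B0, hA0, hB0, hxA0, hcB0, hAB⟩ := t2_separation h5
  obtain ⟨A0', B0', hA0', hB0', hxA0', hcB0', hAB'⟩ := t2_separation h6
  refine ⟨n, ⟨s.V ∩ {p | x n • p ∈ A0 ∩ s.W}, s.U ∩ {q | (x n)⁻¹ • q ∈ A0' ∩ s.W'}, B0 ∩ s.W,
    B0' ∩ s.W', s.hV.inter ((hA0.inter s.hW).preimage (hcont (x n))),
    s.hU.inter ((hA0'.inter s.hW').preimage (hcont (x n)⁻¹)), hB0.inter s.hW, hB0'.inter s.hW',
    ⟨s.bV, hxA0, h3⟩, ⟨s.aU, hxA0', h4⟩, ⟨hcB0, s.cW⟩, ⟨hcB0', s.dW'⟩⟩, A0 ∩ s.W, A0' ∩ s.W',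
    h1, h2, inter_subset_left, fun p hp => hp.2, inter_subset_right, inter_subset_right,
    (hAB.mono inter_subset_left inter_subset_left), inter_subset_left, ?_, inter_subset_right,
    inter_subset_right, (hAB'.mono inter_subset_left inter_subset_left)⟩
  intro p hp
  have := hp.2
  simpa using this

/-- **Sparse sequences.** If a sequence of distinct elements of a convergence group has only
finitely many terms in each coset of a point stabiliser, then it contains families of `M` terms all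
of whose combinations have norm at most `4 √M`. -/
theorem sparse_norm (hG : ConvergenceAction G X) (o : X) (x : ℕ → G) (hx : Function.Injective x)
    (hfin : ∀ p q : X, {n | x n • p = q}.Finite) (M : ℕ) :
    ∃ n : Fin M → ℕ, Function.Injective n ∧ ∀ c : Fin M → ℂ, (∀ k, ‖c k‖ ≤ 1) →
      ‖∑ k, c k • (shift (x (n k)) : L2 G →L[ℂ] L2 G)‖ ≤ 4 * Real.sqrt M := by
  classical
  obtain ⟨hcont, hconv⟩ := hG
  obtain ⟨φ, hφ, a, b, hab⟩ := hconv x hx
  set x' : ℕ → G := fun n => x (φ n) with hx'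
  have hfin' : ∀ p q : X, {n | x' n • p = q}.Finite := by
    intro p q
    exact (hfin p q).preimage (f := φ) (hφ.injective.injOn)
  -- limits along the hyperfilter
  obtain ⟨c, hc⟩ : ∃ c, Tendsto (fun n => x' n • b) (hyperfilter ℕ : Filter ℕ) (𝓝 c) :=
    ⟨_, (Ultrafilter.map (fun n => x' n • b) (hyperfilter ℕ)).le_nhds_lim⟩
  obtain ⟨d, hd⟩ : ∃ d, Tendsto (fun n => (x' n)⁻¹ • a) (hyperfilter ℕ : Filter ℕ) (𝓝 d) :=
    ⟨_, (Ultrafilter.map (fun n => (x' n)⁻¹ • a) (hyperfilter ℕ)).le_nhds_lim⟩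
  have step := step_exists hcont x' a b c d hab hfin' hc hd
  choose n s' A A' h1 h2 h3 h4 h5 h6 h7 h8 h9 h10 h11 h12 using step
  let s0 : St a b c d := ⟨univ, univ, univ, univ, isOpen_univ, isOpen_univ, isOpen_univ,
    isOpen_univ, trivial, trivial, trivial, trivial⟩
  let seq : ℕ → St a b c d × ℕ := fun k => Nat.rec (s0, 0) (fun _ p => (s' p.1 p.2, n p.1 p.2)) k
  have hseq : ∀ k, seq (k + 1) = (s' (seq k).1 (seq k).2, n (seq k).1 (seq k).2) := fun k => rfl
  set s : ℕ → St a b c d := fun k => (seq k).1 with hs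
  set m : ℕ → ℕ := fun k => n (seq k).1 (seq k).2 with hm
  have hsm : ∀ k, (seq (k + 1)).2 = m k := fun k => rfl
  have hss : ∀ k, s (k + 1) = s' (s k) (seq k).2 := fun k => rfl
  have hmono : StrictMono m := by
    refine strictMono_nat_of_lt_succ fun k => ?_
    have := h1 (seq (k + 1)).1 (seq (k + 1)).2
    rw [hsm] at this
    exact this
  have hVsub : ∀ i j, i ≤ j → (s j).V ⊆ (s i).V := by
    intro i j hij
    induction hij with
    | refl => exact subset_rfl
    | step _ ih => exact (h3 _ _).trans ih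
  have hUsub : ∀ i j, i ≤ j → (s j).U ⊆ (s i).U := by
    intro i j hij
    induction hij with
    | refl => exact subset_rfl
    | step _ ih => exact (h8 _ _).trans ih
  have hWsub : ∀ i j, i ≤ j → (s j).W ⊆ (s i).W := by
    intro i j hij
    induction hij with
    | refl => exact subset_rfl
    | step _ ih => exact (h6 _ _).trans ih
  have hWsub' : ∀ i j, i ≤ j → (s j).W' ⊆ (s i).W' := by
    intro i j hij
    induction hij with
    | refl => exact subset_rfl
    | step _ ih => exact (h11 _ _).trans ih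
  have hAdisj : ∀ i j, i < j → Disjoint (A (seq i).1 (seq i).2) (A (seq j).1 (seq j).2) := by
    intro i j hij
    refine (h7 (seq i).1 (seq i).2).mono_right ?_
    exact (h5 (seq j).1 (seq j).2).trans (hWsub (i + 1) j hij)
  have hAdisj' : ∀ i j, i < j → Disjoint (A' (seq i).1 (seq i).2) (A' (seq j).1 (seq j).2) := by
    intro i j hij
    refine (h12 (seq i).1 (seq i).2).mono_right ?_
    exact (h10 (seq j).1 (seq j).2).trans (hWsub' (i + 1) j hij)
  -- symmetric versions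
  have sym : ∀ (T : ℕ → Set G), (∀ i j, i < j → Disjoint (T i) (T j)) →
      ∀ i j, i ≠ j → Disjoint (T i) (T j) := by
    intro T hT i j hij
    rcases lt_or_gt_of_ne hij with h | h
    · exact hT i j h
    · exact (hT j i h).symm
  let TA : ℕ → Set G := fun k => {z | z • o ∈ (s k).V ∧ z • o ∉ (s (k + 1)).V}
  let TB : ℕ → Set G := fun k => {z | z • o ∈ (s (k + 1)).V}
  let TC : ℕ → Set G := fun k => {z | z • o ∉ (s k).V ∧ x' (m k) • z • o ∈ (s (k + 1)).U}
  let TF : ℕ → Set G := fun k => {z | z • o ∉ (s k).V ∧ x' (m k) • z • o ∉ (s (k + 1)).U}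
  have hTA : ∀ i j, i ≠ j → Disjoint (TA i) (TA j) := by
    refine sym TA fun i j hij => ?_
    rw [Set.disjoint_left]
    rintro z ⟨_, hz⟩ ⟨hz', _⟩
    exact hz (hVsub (i + 1) j hij hz')
  have hTC : ∀ i j, i ≠ j → Disjoint (TC i) (TC j) := by
    refine sym TC fun i j hij => ?_
    rw [Set.disjoint_left]
    rintro z ⟨_, hz⟩ ⟨_, hz'⟩
    exact Set.disjoint_left.mp (hAdisj' i j hij) (h9 _ _ _ hz) (h9 _ _ _ hz')
  have hTB : ∀ i j, i ≠ j → Disjoint {y | (x' (m i))⁻¹ * y ∈ TB i} {y | (x' (m j))⁻¹ * y ∈ TB j} := by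
    refine sym (fun k => {y | (x' (m k))⁻¹ * y ∈ TB k}) fun i j hij => ?_
    rw [Set.disjoint_left]
    intro y hy hy'
    have k1 : y • o ∈ A (seq i).1 (seq i).2 := by
      have := h4 (seq i).1 (seq i).2 _ hy
      rwa [← mul_smul, mul_inv_cancel_left] at this
    have k2 : y • o ∈ A (seq j).1 (seq j).2 := by
      have := h4 (seq j).1 (seq j).2 _ hy'
      rwa [← mul_smul, mul_inv_cancel_left] at this
    exact Set.disjoint_left.mp (hAdisj i j hij) k1 k2
  have hTF : ∀ i j, i ≠ j → Disjoint {y | (x' (m i))⁻¹ * y ∈ TF i} {y | (x' (m j))⁻¹ * y ∈ TF j} := by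
    refine sym (fun k => {y | (x' (m k))⁻¹ * y ∈ TF k}) fun i j hij => ?_
    rw [Set.disjoint_left]
    rintro y ⟨_, hy⟩ ⟨hy', _⟩
    have k1 : y • o ∈ (s j).U := by
      have := h2 (seq j).1 (seq j).2 _ hy'
      rwa [← mul_smul, mul_inv_cancel_left] at this
    apply hy
    rw [← mul_smul, mul_inv_cancel_left]
    exact hUsub (i + 1) j hij k1
  refine ⟨fun k => φ (m k), fun i j hij => Fin.ext (hmono.injective (hφ.injective hij)), ?_⟩
  intro cc hcc
  refine norm_four (fun k : Fin M => x' (m k)) cc hcc (fun k => TA k) (fun k => TB k)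
    (fun k => TC k) (fun k => TF k) (fun i j hij => hTA _ _ fun h => hij (Fin.ext h))
    (fun i j hij => hTC _ _ fun h => hij (Fin.ext h))
    (fun i j hij => hTB _ _ fun h => hij (Fin.ext h))
    (fun i j hij => hTF _ _ fun h => hij (Fin.ext h)) ?_
  intro k f
  apply lp.ext
  funext z
  have hadd : ((cut (TA k) f + cut (TB k) f + cut (TC k) f + cut (TF k) f : L2 G) : G → ℂ) z =
      (cut (TA k) f : G → ℂ) z + (cut (TB k) f : G → ℂ) z + (cut (TC k) f : G → ℂ) z +
        (cut (TF k) f : G → ℂ) z := rfl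
  rw [hadd, cut_apply, cut_apply, cut_apply, cut_apply]
  have hsub := hVsub k (k + 1) (Nat.le_succ k)
  by_cases c1 : z • o ∈ (s (k + 1)).V
  · have c2 : z • o ∈ (s k).V := hsub c1
    simp [TA, TB, TC, TF, c1, c2]
  · by_cases c2 : z • o ∈ (s k).V
    · simp [TA, TB, TC, TF, c1, c2]
    · by_cases c3 : x' (m k) • z • o ∈ (s (k + 1)).U
      · simp [TA, TB, TC, TF, c1, c2, c3]
      · simp [TA, TB, TC, TF, c1, c2, c3]

end Pool.Agent.W726.NS
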