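import Pool.Agent.W726.NS.Grp

/-! The dichotomy for orbits of an automorphism. -/

set_option autoImplicit false
set_option linter.unusedSectionVars false

namespace Pool.Agent.W726.NS

open Set

variable {G : Type*} [Group G]

lemma Ep_eq_of_mem {h k : G} (hc : CycCover (Ep h)) (hh : ¬ IsOfFinOrder h)
    (hk : ¬ IsOfFinOrder k) (hkh : k ∈ Ep h) : Ep h = Ep k := by
  obtain ⟨c, R, hR⟩ := hc
  obtain ⟨d, hd, hpow⟩ := cover_pow hR
  obtain ⟨a, ha⟩ := hpow k hkh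
  obtain ⟨b, hb⟩ := hpow h (by simpa using zpow_mem_Ep h 1)
  have ha0 : a ≠ 0 := by
    rintro rfl
    rw [zpow_zero] at ha
    exact not_fin_pow hk hd (by rw [ha]; exact IsOfFinOrder.one)
  have hb0 : b ≠ 0 := by
    rintro rfl
    rw [zpow_zero] at hb
    exact not_fin_pow hh hd (by rw [hb]; exact IsOfFinOrder.one)
  have hd0 : (d : ℤ) ≠ 0 := by exact_mod_cast hd.ne'
  refine Ep_eq_of_zpow_eq (A := (d : ℤ) * a) (B := (d : ℤ) * b) (mul_ne_zero hd0 ha0)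
    (mul_ne_zero hd0 hb0) ?_
  rw [zpow_mul, zpow_mul, zpow_natCast, zpow_natCast, ha, hb, ← zpow_mul, ← zpow_mul, mul_comm]

/-- infinitely many elements in one coset of a cyclic group -/
lemma exists_coset {H : Subgroup G} (hc : CycCover H) {ι : Type*} (S : Set ι) (hS : S.Infinite)
    (x : ι → G) (hx : Function.Injective x) (hH : ∀ n ∈ S, x n ∈ H) :
    ∃ c r : G, ¬ IsOfFinOrder c ∧ {n ∈ S | ∃ i : ℤ, x n = r * c ^ i}.Infinite := by
  classical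
  obtain ⟨c, R, hR⟩ := hc
  have h1 : ∃ r ∈ R, {n ∈ S | ∃ i : ℤ, x n = r * c ^ i}.Infinite := by
    by_contra hcon
    push Not at hcon
    apply hS
    have h2 : (⋃ r ∈ R, {n ∈ S | ∃ i : ℤ, x n = r * c ^ i}).Finite :=
      R.finite_toSet.biUnion (fun r hr => not_infinite.mp (by
        intro h; exact absurd (hcon r hr) (by simpa using h)))
    refine h2.subset (fun n hn => ?_)
    obtain ⟨r, hr, i, hi⟩ := hR _ (hH n hn)
    exact mem_biUnion hr ⟨hn, i, hi⟩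
  obtain ⟨r, -, hr⟩ := h1
  refine ⟨c, r, fun hfin => ?_, hr⟩
  have h3 : (Subgroup.zpowers c : Set G).Finite := finite_zpowers.mpr hfin
  apply hr
  have h4 : ((fun z => r * z) '' (Subgroup.zpowers c : Set G)).Finite := h3.image _
  refine (h4.preimage (f := x) hx.injOn).subset ?_
  rintro n ⟨-, i, hi⟩
  exact ⟨c ^ i, Subgroup.zpow_mem_zpowers c i, hi.symm⟩

lemma exists_inf_mem {K : Subgroup G} (hc : CycCover K) {ι : Type*} (S : Set ι) (hS : S.Infinite)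
    (x : ι → G) (hx : Function.Injective x) (hH : ∀ n ∈ S, x n ∈ K) :
    ∃ k ∈ K, ¬ IsOfFinOrder k := by
  obtain ⟨c, r, hfin, hinf⟩ := exists_coset hc S hS x hx hH
  obtain ⟨m, hm⟩ := hinf.nonempty
  obtain ⟨n, hn, hne⟩ := hinf.exists_notMem_finite (finite_singleton m)
  obtain ⟨hmS, i, hi⟩ := hm
  obtain ⟨hnS, j, hj⟩ := hn
  have hij : i ≠ j := by
    rintro rfl
    exact hne (hx (hj.trans hi.symm))
  refine ⟨(x m)⁻¹ * x n, K.mul_mem (K.inv_mem (hH m hmS)) (hH n hnS), ?_⟩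
  have e : (x m)⁻¹ * x n = c ^ (j - i) := by
    rw [hi, hj, zpow_sub]; group
  rw [e]
  intro hf
  apply hij
  obtain ⟨N, hN, hN'⟩ := isOfFinOrder_iff_pow_eq_one.mp hf
  rw [← zpow_natCast, ← zpow_mul] at hN'
  have := zpow_inj_of_infinite hfin (hN'.trans (zpow_zero c).symm)
  have h2 : (N : ℤ) ≠ 0 := by exact_mod_cast hN.ne'
  rcases mul_eq_zero.mp this with h3 | h3
  · omega
  · exact absurd h3 h2

/-- the line through `y` in direction `h` -/
def Lset (x : ℕ → G) (y h : G) : Set ℕ := {n | y⁻¹ * x n ∈ Ep h}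

lemma line_eq {x : ℕ → G} (hx : Function.Injective x)
    (hEp : ∀ h : G, ¬ IsOfFinOrder h → CycCover (Ep h)) {y h y' h' : G}
    (hh : ¬ IsOfFinOrder h) (hh' : ¬ IsOfFinOrder h')
    (hinf : (Lset x y h ∩ Lset x y' h').Infinite) :
    Ep h = Ep h' ∧ y⁻¹ * y' ∈ Ep h := by
  obtain ⟨n0, hn0⟩ := hinf.nonempty
  have hx2 : Function.Injective (fun n => (x n0)⁻¹ * x n) := by
    intro m n hmn
    exact hx (mul_left_cancel hmn)
  obtain ⟨k, hk, hkinf⟩ := exists_inf_mem (K := Ep h ⊓ Ep h')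
    ((hEp h hh).mono inf_le_left) _ hinf (fun n => (x n0)⁻¹ * x n) hx2 (by
      rintro n ⟨h1, h2⟩
      obtain ⟨h3, h4⟩ := hn0
      refine Subgroup.mem_inf.mpr ⟨?_, ?_⟩
      · have := (Ep h).mul_mem ((Ep h).inv_mem h3) h1
        have e : (x n0)⁻¹ * x n = (y⁻¹ * x n0)⁻¹ * (y⁻¹ * x n) := by group
        rw [e]; exact this
      · have := (Ep h').mul_mem ((Ep h').inv_mem h4) h2
        have e : (x n0)⁻¹ * x n = (y'⁻¹ * x n0)⁻¹ * (y'⁻¹ * x n) := by group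
        rw [e]; exact this)
  obtain ⟨hk1, hk2⟩ := Subgroup.mem_inf.mp hk
  have e1 := Ep_eq_of_mem (hEp h hh) hh hkinf hk1
  have e2 := Ep_eq_of_mem (hEp h' hh') hh' hkinf hk2
  have e3 : Ep h = Ep h' := e1.trans e2.symm
  refine ⟨e3, ?_⟩
  obtain ⟨h3, h4⟩ := hn0
  have h5 : y⁻¹ * x n0 ∈ Ep h := h3
  have h6 : y'⁻¹ * x n0 ∈ Ep h := by rw [e3]; exact h4
  have e : y⁻¹ * y' = (y⁻¹ * x n0) * (y'⁻¹ * x n0)⁻¹ := by group
  rw [e]
  exact (Ep h).mul_mem h5 ((Ep h).inv_mem h6)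

/-- the infinite lines -/
def Lines (x : ℕ → G) : Set (Set ℕ) :=
  {L | ∃ y h : G, ¬ IsOfFinOrder h ∧ L = Lset x y h ∧ L.Infinite}

lemma lines_inter {x : ℕ → G} (hx : Function.Injective x)
    (hEp : ∀ h : G, ¬ IsOfFinOrder h → CycCover (Ep h)) {L L' : Set ℕ}
    (hL : L ∈ Lines x) (hL' : L' ∈ Lines x) (hne : L ≠ L') : (L ∩ L').Finite := by
  obtain ⟨y, h, hh, rfl, -⟩ := hL
  obtain ⟨y', h', hh', rfl, -⟩ := hL'
  by_contra hinf
  obtain ⟨e, hy⟩ := line_eq hx hEp hh hh' hinf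
  apply hne
  ext n
  show y⁻¹ * x n ∈ Ep h ↔ y'⁻¹ * x n ∈ Ep h'
  rw [← e]
  have e2 : y⁻¹ * x n = (y⁻¹ * y') * (y'⁻¹ * x n) := by group
  rw [e2]
  exact (Ep h).mul_mem_cancel_left hy

lemma lines_finite [Countable G] {x : ℕ → G} (hx : Function.Injective x)
    (hEp : ∀ h : G, ¬ IsOfFinOrder h → CycCover (Ep h))
    (ha : ∀ S : Set ℕ, S.Infinite → ∃ L ∈ Lines x, (S ∩ L).Infinite) : (Lines x).Finite := by
  classical
  by_contra hinf
  have hcount : (Lines x).Countable := by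
    have : Lines x ⊆ range (fun p : G × G => Lset x p.1 p.2) := by
      rintro L ⟨y, h, -, rfl, -⟩
      exact ⟨(y, h), rfl⟩
    exact (countable_range _).mono this
  have hc : Countable (Lines x) := hcount.to_subtype
  have hi : Infinite (Lines x) := Set.Infinite.to_subtype hinf
  obtain ⟨hden⟩ := nonempty_denumerable (Lines x)
  let e : Lines x ≃ ℕ := Denumerable.eqv _
  let f : ℕ → Set ℕ := fun k => (e.symm k : Set ℕ)
  have hfmem : ∀ k, f k ∈ Lines x := fun k => (e.symm k).2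
  have hfinj : ∀ i j, f i = f j → i = j := by
    intro i j hij
    exact e.symm.injective (Subtype.ext hij)
  have hfinf : ∀ k, (f k \ ⋃ i ∈ Finset.range k, f i).Infinite := by
    intro k
    obtain ⟨y, h, hh, e1, h1⟩ := hfmem k
    have h2 : (f k ∩ ⋃ i ∈ Finset.range k, f i).Finite := by
      rw [inter_iUnion₂]
      refine (Finset.finite_toSet _).biUnion (fun i hi => ?_)
      refine lines_inter hx hEp (hfmem k) (hfmem i) (fun heq => ?_)
      have := hfinj _ _ heq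
      have h3 := Finset.mem_range.mp hi
      omega
    intro h3
    exact h1 ((h3.union h2).subset (fun n hn => by
      by_cases h4 : n ∈ ⋃ i ∈ Finset.range k, f i
      · exact Or.inr ⟨hn, h4⟩
      · exact Or.inl ⟨hn, h4⟩))
  choose n hn hnk using fun k => (hfinf k).exists_gt k
  have hSinf : (range n).Infinite := by
    apply infinite_of_not_bddAbove
    rintro ⟨B, hB⟩
    have := hB ⟨B, rfl⟩
    have h2 := hnk B
    omega
  obtain ⟨L, hL, hSL⟩ := ha _ hSinf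
  obtain ⟨i, hi⟩ : ∃ i, f i = L := ⟨e ⟨L, hL⟩, by simp [f]⟩
  apply hSL
  refine ((Finset.range (i + 1)).finite_toSet.image n).subset ?_
  rintro m ⟨⟨k, rfl⟩, hm⟩
  refine ⟨k, ?_, rfl⟩
  rw [Finset.mem_coe, Finset.mem_range]
  by_contra hcon
  have h1 : i < k := by omega
  refine (hn k).2 ?_
  exact mem_biUnion (x := i) (by simpa using h1) (by rw [hi]; exact hm)

theorem dichotomy [Countable G] (P : Set (Subgroup G)) (hP : ∀ H ∈ P, CycCover H)
    (hEp : ∀ h : G, ¬ IsOfFinOrder h → CycCover (Ep h)) (σ : MulAut G) (g : G)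
    (hx : Function.Injective (fun n : ℕ => (σ ^ n) g)) :
    (∃ S : Set ℕ, S.Infinite ∧ ∀ H ∈ P, ∀ y : G, {n ∈ S | y⁻¹ * (σ ^ n) g ∈ H}.Finite) ∨
      ∃ m : ℕ, 0 < m ∧ (σ ^ m) (g⁻¹ * (σ ^ m) g) = g⁻¹ * (σ ^ m) g := by
  classical
  by_cases hgood : ∃ S : Set ℕ, S.Infinite ∧ ∀ H ∈ P, ∀ y : G,
    {n ∈ S | y⁻¹ * (σ ^ n) g ∈ H}.Finite
  · exact Or.inl hgood
  right
  push Not at hgood
  set x : ℕ → G := fun n : ℕ => (σ ^ n) g with hxdef
  -- (a)
  have ha : ∀ S : Set ℕ, S.Infinite → ∃ L ∈ Lines x, (S ∩ L).Infinite := by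
    intro S hS
    obtain ⟨H, hH, y, hy⟩ := hgood S hS
    have hy' : {n ∈ S | y⁻¹ * (σ ^ n) g ∈ H}.Infinite := hy
    obtain ⟨c, r, hc, hinf⟩ := exists_coset (hP H hH) {n ∈ S | y⁻¹ * (σ ^ n) g ∈ H} hy'
      (fun n => y⁻¹ * x n) (fun m n hmn => hx (mul_left_cancel hmn)) (fun n hn => hn.2)
    have hsub : {n ∈ {n ∈ S | y⁻¹ * (σ ^ n) g ∈ H} | ∃ i : ℤ, y⁻¹ * x n = r * c ^ i} ⊆
        S ∩ Lset x (y * r) c := by
      rintro n ⟨⟨hnS, -⟩, i, hi⟩
      refine ⟨hnS, ?_⟩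
      show (y * r)⁻¹ * x n ∈ Ep c
      have e : (y * r)⁻¹ * x n = r⁻¹ * (y⁻¹ * x n) := by group
      rw [e, hi, inv_mul_cancel_left]
      exact zpow_mem_Ep c i
    have h1 := hinf.mono hsub
    exact ⟨Lset x (y * r) c, ⟨y * r, c, hc, rfl, h1.mono inter_subset_right⟩, h1⟩
  have hfin := lines_finite hx hEp ha
  obtain ⟨L, ⟨y, h, hh, rfl, hLinf⟩, -⟩ := ha univ infinite_univ
  -- (e)
  have hmap : ∀ j : ℕ, ¬ IsOfFinOrder ((σ ^ j) h) := by
    intro j hj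
    apply hh
    have : IsOfFinOrder ((σ ^ j)⁻¹ ((σ ^ j) h)) :=
      MonoidHom.isOfFinOrder (MulEquiv.toMonoidHom (σ ^ j)⁻¹) hj
    rwa [MulAut.inv_apply_self] at this
  have hLj : ∀ j : ℕ, Lset x ((σ ^ j) y) ((σ ^ j) h) ∈ Lines x := by
    intro j
    refine ⟨_, _, hmap j, rfl, ?_⟩
    refine (hLinf.image (f := fun n => j + n) (fun a _ b _ hab => by simpa using hab)).mono ?_
    rintro _ ⟨n, hn, rfl⟩
    show ((σ ^ j) y)⁻¹ * (σ ^ (j + n)) g ∈ Ep ((σ ^ j) h)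
    rw [pow_add, MulAut.mul_apply, ← map_inv, ← map_mul, Ep_map]
    exact hn
  have hfin' : Finite (Lines x) := hfin.to_subtype
  obtain ⟨j, j', hjj, heq⟩ := Finite.exists_ne_map_eq_of_infinite
    (fun j : ℕ => (⟨_, hLj j⟩ : Lines x))
  wlog hlt : j < j' generalizing j j'
  · exact this j' j hjj.symm heq.symm (by omega)
  have heq' : Lset x ((σ ^ j) y) ((σ ^ j) h) = Lset x ((σ ^ j') y) ((σ ^ j') h) :=
    congrArg Subtype.val heq
  obtain ⟨-, -, -, -, hinf1⟩ := hLj j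
  obtain ⟨e1, e2⟩ := line_eq hx hEp (hmap j) (hmap j') (y := (σ ^ j) y) (y' := (σ ^ j') y)
    (by rw [← heq', inter_self]; exact hinf1)
  obtain ⟨D, rfl⟩ : ∃ D, j' = j + D := ⟨j' - j, by omega⟩
  have hD : 0 < D := by omega
  have hE : ∀ z, z ∈ Ep h ↔ z ∈ Ep ((σ ^ D) h) := by
    intro z
    rw [← Ep_map (σ ^ j) h z, e1, pow_add, MulAut.mul_apply, Ep_map]
  have hy : y⁻¹ * (σ ^ D) y ∈ Ep h := by
    rw [← Ep_map (σ ^ j), map_mul, map_inv]
    rwa [pow_add, MulAut.mul_apply] at e2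
  set τ : MulAut G := σ ^ D with hτ
  have hinv : ∀ z, τ z ∈ Ep h ↔ z ∈ Ep h := by
    intro z
    rw [hE (τ z), Ep_map]
  obtain ⟨n, hn⟩ := hLinf.nonempty
  have hn' : y⁻¹ * x n ∈ Ep h := hn
  have hg' : (x n)⁻¹ * τ (x n) ∈ Ep h := by
    have e : (x n)⁻¹ * τ (x n) = (y⁻¹ * x n)⁻¹ * (y⁻¹ * τ y) * τ (y⁻¹ * x n) := by
      rw [map_mul, map_inv]; group
    rw [e]
    exact (Ep h).mul_mem ((Ep h).mul_mem ((Ep h).inv_mem hn') hy) ((hinv _).mpr hn')
  obtain ⟨m, hm, hV⟩ := lemV τ (Ep h) (hEp h hh) hinv h hh (by simpa using zpow_mem_Ep h 1)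
    (x n) hg'
  refine ⟨D * m, Nat.mul_pos hD hm, ?_⟩
  have e3 : τ ^ m = σ ^ (D * m) := by rw [hτ, pow_mul]
  rw [e3] at hV
  have hcomm : ∀ (a b : ℕ) (z : G), (σ ^ a) ((σ ^ b) z) = (σ ^ b) ((σ ^ a) z) := by
    intro a b z
    rw [← MulAut.mul_apply, ← pow_add, add_comm, pow_add, MulAut.mul_apply]
  apply (σ ^ n).injective
  have hxn : x n = (σ ^ n) g := rfl
  rw [hxn] at hV
  rw [← hcomm (D * m) n, map_mul, map_inv, ← hcomm (D * m) n]
  exact hV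

end Pool.Agent.W726.NS
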