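import Pool.Agent.W726.NS.Conv
import Pool.Agent.W726.NS.Dich

/-! Elements of infinite order of a convergence group. -/

set_option autoImplicit false
set_option linter.unusedSectionVars false

namespace Pool.Agent.W726.NS

open Filter Topology Set

variable {G X : Type*} [Group G] [TopologicalSpace X] [CompactSpace X] [T2Space X] [MulAction G X]

/-- an element of infinite order has a point fixed by all elements commuting with a power of it -/
theorem Ep_le_stabilizer (hG : ConvergenceAction G X) [Infinite X] (h : G)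
    (hh : ¬ IsOfFinOrder h) : ∃ a : X, Ep h ≤ MulAction.stabilizer G a := by
  classical
  obtain ⟨hcont, hconv⟩ := hG
  have hinj : Function.Injective (fun k : ℕ => h ^ (k + 1).factorial) := by
    intro i j hij
    have h1 := (injective_pow_iff_not_isOfFinOrder.mpr hh) hij
    have h2 := Nat.factorial_inj' (n := i + 1) (m := j + 1)
    rcases Nat.lt_or_ge (i + 1) 2 with h3 | h3
    · rcases Nat.lt_or_ge (j + 1) 2 with h4 | h4
      · omega
      · have h5 : i + 1 = 1 := by omega
        rw [h5] at h1
        have h6 : (j + 1).factorial = 1 := h1.symm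
        rw [Nat.factorial_eq_one] at h6
        omega
    · have := (Nat.factorial_inj (n := i + 1) (m := j + 1) (by omega)).mp h1
      omega
  obtain ⟨φ, hφ, a, b, hab⟩ := hconv _ hinj
  refine ⟨a, fun g hg => ?_⟩
  rw [MulAction.mem_stabilizer_iff]
  obtain ⟨m, hm, hc⟩ := mem_Ep.mp hg
  have hev : ∀ᶠ k : ℕ in atTop, Commute g (h ^ (φ k + 1).factorial) := by
    filter_upwards [eventually_ge_atTop m] with k hk
    have h1 : m ∣ (φ k + 1).factorial :=
      Nat.dvd_factorial hm ((hk.trans (hφ.id_le k)).trans (Nat.le_succ _))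
    obtain ⟨q, hq⟩ := h1
    rw [hq, pow_mul]
    exact hc.pow_right q
  -- a point away from `b` and `g⁻¹ b`
  obtain ⟨z, hz⟩ := (Set.infinite_univ (α := X)).exists_notMem_finite
    (Set.toFinite ({b, g⁻¹ • b} : Set X))
  have hz1 : z ≠ b := fun h1 => hz.2 (by rw [h1]; exact Or.inl rfl)
  have hz2 : z ≠ g⁻¹ • b := fun h1 => hz.2 (by rw [h1]; exact Or.inr rfl)
  have hz3 : g • z ≠ b := fun h1 => hz2 (by rw [← h1, inv_smul_smul])
  have hlim : ∀ w : X, w ≠ b → Tendsto (fun k => (h ^ (φ k + 1).factorial) • w) atTop (𝓝 a) := by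
    intro w hw
    rw [tendsto_def]
    intro U hU
    have hV : {w}ᶜ ∈ 𝓝 b := isOpen_compl_singleton.mem_nhds (by
      intro h1; exact hw h1.symm)
    filter_upwards [hab U hU _ hV] with k hk
    exact hk w (by simp)
  have l1 := ((hcont g).tendsto a).comp (hlim z hz1)
  have l2 := hlim (g • z) hz3
  have l3 : Tendsto (fun k => (h ^ (φ k + 1).factorial) • (g • z)) atTop (𝓝 (g • a)) := by
    refine l1.congr' ?_
    filter_upwards [hev] with k hk
    show g • (h ^ (φ k + 1).factorial) • z = _
    rw [← mul_smul, ← mul_smul, hk.eq]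
  exact tendsto_nhds_unique l3 l2

end Pool.Agent.W726.NS
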