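import Pool.Agent.W726.NS.P1

/-! Discrete subgroups of `SL(2, ℝ)` are convergence groups. -/

set_option autoImplicit false
set_option linter.unusedSectionVars false

namespace Pool.Agent.W726.NS

open Matrix Filter Topology Set
open scoped MatrixGroups

/-- the sum of the squares of the entries -/
def hs (A : M2) : ℝ := (A * Aᵀ).trace

lemma hs_eq (A : M2) : hs A = A 0 0 ^ 2 + A 0 1 ^ 2 + A 1 0 ^ 2 + A 1 1 ^ 2 := by
  rw [hs, Matrix.trace_fin_two]
  simp only [Matrix.mul_apply, Fin.sum_univ_two, Matrix.transpose_apply]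
  ring

lemma hs_smul (c : ℝ) (A : M2) : hs (c • A) = c ^ 2 * hs A := by
  rw [hs_eq, hs_eq]
  simp only [Matrix.smul_apply, smul_eq_mul]
  ring

lemma hs_pos (A : SL(2, ℝ)) : 0 < hs A := by
  rw [hs_eq]
  have h := A.2
  rw [Matrix.det_fin_two] at h
  by_contra hcon
  push Not at hcon
  have k0 : (A : M2) 0 0 = 0 := by
    nlinarith [sq_nonneg ((A : M2) 0 0), sq_nonneg ((A : M2) 0 1), sq_nonneg ((A : M2) 1 0),
      sq_nonneg ((A : M2) 1 1)]
  have k1 : (A : M2) 0 1 = 0 := by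
    nlinarith [sq_nonneg ((A : M2) 0 0), sq_nonneg ((A : M2) 0 1), sq_nonneg ((A : M2) 1 0),
      sq_nonneg ((A : M2) 1 1)]
  have k2 : (A : M2).det = 1 := A.2
  rw [Matrix.det_fin_two, k0, k1] at k2
  norm_num at k2

lemma isCompact_hs (C : ℝ) : IsCompact {A : M2 | hs A ≤ C} := by
  have hK : IsCompact (Set.pi Set.univ (fun _ : Fin 2 => Set.pi Set.univ
      (fun _ : Fin 2 => Icc (-(C + 1)) (C + 1))) : Set (Fin 2 → Fin 2 → ℝ)) :=
    isCompact_univ_pi fun _ => isCompact_univ_pi fun _ => isCompact_Icc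
  have hcl : IsClosed {A : M2 | hs A ≤ C} := by
    refine isClosed_le ?_ continuous_const
    have : Continuous (fun A : M2 => (A * Aᵀ).trace) :=
      (continuous_id.matrix_mul continuous_id.matrix_transpose).matrix_trace
    exact this
  refine hK.of_isClosed_subset hcl ?_
  rintro (A : M2) (hA : hs A ≤ C)
  rw [hs_eq] at hA
  have key : ∀ t : ℝ, t ^ 2 ≤ C → t ∈ Icc (-(C + 1)) (C + 1) := by
    intro t ht
    constructor <;> nlinarith [sq_nonneg (t + 1), sq_nonneg (t - 1)]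
  have s0 := sq_nonneg (A 0 0)
  have s1 := sq_nonneg (A 0 1)
  have s2 := sq_nonneg (A 1 0)
  have s3 := sq_nonneg (A 1 1)
  intro i _ j _
  fin_cases i <;> fin_cases j
  · exact key (A 0 0) (by linarith)
  · exact key (A 0 1) (by linarith)
  · exact key (A 1 0) (by linarith)
  · exact key (A 1 1) (by linarith)

/-- bounded subsets are finite -/
def FinBdd (S : Set SL(2, ℝ)) : Prop := ∀ C : ℝ, {A ∈ S | hs A ≤ C}.Finite

lemma finBdd_of_discrete (Γ : Subgroup SL(2, ℝ)) [DiscreteTopology Γ] :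
    FinBdd (Γ : Set SL(2, ℝ)) := by
  intro C
  have h1 := Subgroup.tendsto_coe_cofinite_of_discrete Γ
    (isDiscrete_iff_discreteTopology.mpr inferInstance)
  have h2 : IsCompact {A : SL(2, ℝ) | hs A ≤ C} :=
    Matrix.SpecialLinearGroup.isClosedEmbedding_val.isCompact_preimage (isCompact_hs C)
  have h3 := h1 h2.compl_mem_cocompact
  rw [mem_map, mem_cofinite] at h3
  have h4 := h3.image (Subtype.val : Γ → SL(2, ℝ))
  refine h4.subset ?_
  rintro A ⟨hA, hC⟩
  refine ⟨⟨A, hA⟩, ?_, rfl⟩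
  simp only [mem_compl_iff, mem_preimage, mem_ofPred_eq, not_not]
  exact hC

lemma countable_of_finBdd (Γ : Subgroup SL(2, ℝ)) (h : FinBdd (Γ : Set SL(2, ℝ))) :
    Countable Γ := by
  have h1 : (Γ : Set SL(2, ℝ)) ⊆ ⋃ n : ℕ, {A ∈ (Γ : Set SL(2, ℝ)) | hs A ≤ n} := by
    intro A hA
    obtain ⟨n, hn⟩ := exists_nat_ge (hs A)
    exact mem_iUnion.mpr ⟨n, hA, hn⟩
  exact ((countable_iUnion fun n : ℕ => (h n).countable).mono h1).to_subtype

lemma conj_trace (N P : M2) (c : ℝ) : ((c • N) * P * (c • N)ᵀ) = (c * c) • (N * P * Nᵀ) := by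
  rw [Matrix.transpose_smul, Matrix.smul_mul, Matrix.smul_mul, Matrix.mul_smul, smul_smul]

/-- **Discrete subgroups of `SL(2, ℝ)` are convergence groups on the projective line.** -/
theorem convergence_of_finBdd (Γ : Subgroup SL(2, ℝ)) (h : FinBdd (Γ : Set SL(2, ℝ))) :
    ConvergenceAction Γ P1 := by
  refine ⟨fun g => continuous_smul_P1 (g : SL(2, ℝ)), fun x hx => ?_⟩
  -- norms tend to infinity
  have hinf : Tendsto (fun n => hs ((x n : SL(2, ℝ)) : M2)) atTop atTop := by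
    rw [tendsto_atTop]
    intro C
    have h1 : {n | hs ((x n : SL(2, ℝ)) : M2) ≤ C}.Finite := by
      have h2 := (h C).preimage (f := fun n => (x n : SL(2, ℝ)))
        (fun a _ b _ hab => hx (Subtype.ext hab))
      refine h2.subset ?_
      intro n hn
      exact ⟨(x n).2, hn⟩
    have h3 := h1.compl_mem_cofinite
    rw [Nat.cofinite_eq_atTop] at h3
    filter_upwards [h3] with n hn
    simp only [mem_compl_iff, mem_ofPred_eq, not_le] at hn
    exact hn.le
  set c : ℕ → ℝ := fun n => (Real.sqrt (hs ((x n : SL(2, ℝ)) : M2)))⁻¹ with hc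
  have hcpos : ∀ n, 0 < c n := fun n => inv_pos.mpr (Real.sqrt_pos.mpr (hs_pos _))
  have hc2 : ∀ n, c n ^ 2 = (hs ((x n : SL(2, ℝ)) : M2))⁻¹ := by
    intro n
    rw [hc]
    simp only
    rw [inv_pow, Real.sq_sqrt (hs_pos _).le]
  set N : ℕ → M2 := fun n => c n • ((x n : SL(2, ℝ)) : M2) with hN
  have hN1 : ∀ n, hs (N n) = 1 := by
    intro n
    rw [hN]
    simp only
    rw [hs_smul, hc2, inv_mul_cancel₀ (hs_pos _).ne']
  have : FirstCountableTopology M2 :=
    inferInstanceAs (FirstCountableTopology (Fin 2 → Fin 2 → ℝ))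
  obtain ⟨L, -, φ, hφ, hL⟩ := (isCompact_hs 1).tendsto_subseq (x := N) (fun n => (hN1 n).le)
  -- the limit
  have hLhs : hs L = 1 := by
    have hcont : Continuous (fun A : M2 => hs A) := by
      have : Continuous (fun A : M2 => (A * Aᵀ).trace) :=
        (continuous_id.matrix_mul continuous_id.matrix_transpose).matrix_trace
      exact this
    have h1 : Tendsto (fun n => hs ((N ∘ φ) n)) atTop (𝓝 (hs L)) := (hcont.tendsto L).comp hL
    have h2 : (fun n => hs ((N ∘ φ) n)) = fun _ => 1 := funext fun n => hN1 _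
    rw [h2] at h1
    exact (tendsto_nhds_unique h1 tendsto_const_nhds)
  have hLdet : L.det = 0 := by
    have hcont : Continuous (fun A : M2 => A.det) := continuous_id.matrix_det
    have h1 : Tendsto (fun n => ((N ∘ φ) n).det) atTop (𝓝 L.det) := (hcont.tendsto L).comp hL
    have h2 : ∀ n, ((N ∘ φ) n).det = (hs ((x (φ n) : SL(2, ℝ)) : M2))⁻¹ := by
      intro n
      show (c (φ n) • ((x (φ n) : SL(2, ℝ)) : M2)).det = _
      rw [Matrix.det_smul, Matrix.SpecialLinearGroup.det_coe, mul_one, Fintype.card_fin, hc2]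
    have h3 : Tendsto (fun n => (hs ((x (φ n) : SL(2, ℝ)) : M2))⁻¹) atTop (𝓝 0) :=
      (hinf.comp hφ.tendsto_atTop).inv_tendsto_atTop
    have h4 : (fun n => ((N ∘ φ) n).det) = fun n => (hs ((x (φ n) : SL(2, ℝ)) : M2))⁻¹ :=
      funext h2
    rw [h4] at h1
    exact tendsto_nhds_unique h1 h3
  have hLT : (L * Lᵀ).trace = 1 := hLhs
  have hLTL : (Lᵀ * L).trace = 1 := by rw [Matrix.trace_mul_comm]; exact hLhs
  let a : P1 := ⟨L * Lᵀ, by
    refine ⟨?_, hLT, ?_⟩
    · rw [Matrix.transpose_mul, Matrix.transpose_transpose]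
    · rw [Matrix.det_mul, hLdet, zero_mul]⟩
  let b : P1 := ⟨1 - Lᵀ * L, by
    have hs1 : (Lᵀ * L)ᵀ = Lᵀ * L := by rw [Matrix.transpose_mul, Matrix.transpose_transpose]
    refine ⟨?_, ?_, ?_⟩
    · rw [Matrix.transpose_sub, Matrix.transpose_one, hs1]
    · rw [Matrix.trace_sub, hLTL, Matrix.trace_one, Fintype.card_fin]; norm_num
    · have h1 : (Lᵀ * L).det = 0 := by rw [Matrix.det_mul, hLdet, mul_zero]
      have h2 := hLTL
      rw [Matrix.det_fin_two] at h1 ⊢
      rw [Matrix.trace_fin_two] at h2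
      simp only [Matrix.sub_apply, Matrix.one_apply_eq]
      rw [Matrix.one_apply_ne (by decide), Matrix.one_apply_ne (by decide)]
      linear_combination h1 - h2⟩
  refine ⟨φ, hφ, a, b, ?_⟩
  intro U hU V hV
  obtain ⟨U', hU', hUU⟩ := mem_nhds_subtype _ _ _ |>.mp hU
  obtain ⟨V', hV'V, hV'o, hbV'⟩ := mem_nhds_iff.mp hV
  have hK : IsCompact (V'ᶜ : Set P1) := hV'o.isClosed_compl.isCompact
  have key : ∀ᶠ M in 𝓝 L, ∀ p ∈ (V'ᶜ : Set P1), Phi M p.1 ∈ U' := by
    refine hK.eventually_forall_of_forall_eventually fun p hp => ?_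
    have hpb : p ≠ b := fun h1 => hp (h1 ▸ hbV')
    have htr : (L * p.1 * Lᵀ).trace ≠ 0 := by
      intro h1
      exact hpb (Subtype.ext (rank_one_ker hLdet hLT p.2 h1))
    have hval : Phi L p.1 = a.1 := by
      show (L * p.1 * Lᵀ).trace⁻¹ • (L * p.1 * Lᵀ) = L * Lᵀ
      have h1 := rank_one hLdet hLT p.2.1
      conv_lhs => rw [h1]
      rw [Matrix.trace_smul, hLT, smul_eq_mul, mul_one, smul_smul, inv_mul_cancel₀ htr, one_smul]
    have hc1 := Phi_continuousAt htr
    have hc3 : ContinuousAt (fun z : M2 × P1 => (z.1, z.2.1)) (L, p) :=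
      (continuous_fst.prodMk (continuous_subtype_val.comp continuous_snd)).continuousAt
    have hc4 : ContinuousAt (fun z : M2 × P1 => Phi z.1 z.2.1) (L, p) :=
      ContinuousAt.comp (x := ((L, p) : M2 × P1)) (f := fun z : M2 × P1 => (z.1, z.2.1))
        (g := fun z : M2 × M2 => Phi z.1 z.2) hc1 hc3
    have hU'' : U' ∈ 𝓝 (Phi L p.1) := by rw [hval]; exact hU'
    exact hc4 hU''
  filter_upwards [hL key] with n hn p hp
  have h1 := hn p (fun h2 => hp (hV'V h2))
  apply hUU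
  show ((x (φ n) : SL(2, ℝ)) • p).1 ∈ U'
  rw [smul_val]
  have h2 : Phi ((N ∘ φ) n) p.1 = Phi ((x (φ n) : SL(2, ℝ)) : M2) p.1 :=
    Phi_smul (hcpos (φ n)).ne' _ _
  rw [← h2]
  exact h1

end Pool.Agent.W726.NS
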