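import Pool.Agent.W726.NS.Abs
import Pool.Agent.W726.NS.Main

/-! Möbius disjointness for automorphisms of twisted reduced group algebras. -/

set_option autoImplicit false
set_option linter.unusedSectionVars false

namespace Pool.Agent.W726.NS

open Pool.Agent.H379R3.CS Pool.Agent.Helper188.NCM Filter Topology Set

variable {A G : Type} [CStarAlgebra A] [Group G] [Countable G] {X : Type*} [TopologicalSpace X]
  [CompactSpace X] [T2Space X] [MulAction G X]

/-- **Möbius disjointness in norm.** -/
theorem pp_abs {u : G → A} {τ : A →L[ℂ] ℂ} (hu : RedAlg u τ) (hG : ConvergenceAction G X)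
    [Infinite X] (hcyc : ∀ p : X, CycCover (MulAction.stabilizer G p))
    (σ : MulAut G) (α : A →⋆ₐ[ℂ] A)
    (hα : ∀ g, ∃ c : ℂ, ‖c‖ = 1 ∧ α (u g) = c • u (σ g)) : ∀ x, PP α x := by
  classical
  have hit : ∀ (n : ℕ) (g : G), ∃ c : ℂ, ‖c‖ = 1 ∧ (α^[n]) (u g) = c • u ((σ ^ n) g) := by
    intro n
    induction n with
    | zero => intro g; exact ⟨1, by simp, by simp⟩
    | succ n ih =>
      intro g
      obtain ⟨c, hc, h1⟩ := hα g
      obtain ⟨c', hc', h2⟩ := ih (σ g)
      refine ⟨c * c', by rw [norm_mul, hc, hc', one_mul], ?_⟩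
      rw [Function.iterate_succ_apply, h1, iter_smul, h2, smul_smul, pow_succ, MulAut.mul_apply]
  have hEp : ∀ h : G, ¬ IsOfFinOrder h → CycCover (Ep h) := by
    intro h hh
    obtain ⟨a, ha⟩ := Ep_le_stabilizer hG h hh
    exact (hcyc a).mono ha
  have hlin : ∀ (g : G) (m : ℕ), 0 < m →
      (σ ^ m) (g⁻¹ * (σ ^ m) g) = g⁻¹ * (σ ^ m) g → PP α (u g) := by
    intro g m hm hφ
    obtain ⟨c0, hc0, h0⟩ := hit m g
    obtain ⟨c1, hc1, h1⟩ := hu.mul g (g⁻¹ * (σ ^ m) g)
    obtain ⟨c2, hc2, h2⟩ := hit m (g⁻¹ * (σ ^ m) g)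
    obtain ⟨a, ha⟩ := exists_ee hc2
    rw [mul_inv_cancel_left] at h1
    rw [hφ] at h2
    refine PP.class_two apCase (qmAll' kbsz) α m hm (u g) ((c0 * c1) • u (g⁻¹ * (σ ^ m) g))
      (norm_unitary_le (hu.unit g)) (smul_unitary (by rw [norm_mul, hc0, hc1, one_mul])
        (hu.unit _)) a ?_ ?_
    · rw [h0, h1, smul_smul, mul_smul_comm]
    · rw [iter_smul, h2, ha, smul_comm]
  have hgen : ∀ g, PP α (u g) := by
    intro g
    by_cases hinj : Function.Injective (fun n : ℕ => (σ ^ n) g)
    · rcases dichotomy (Set.range (fun p : X => MulAction.stabilizer G p))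
        (by rintro _ ⟨p, rfl⟩; exact hcyc p) hEp σ g hinj with ⟨S, hS, hSf⟩ | ⟨m, hm, hφ⟩
      · refine pp_of_blocks α (u g) (norm_unitary_le (hu.unit g)) fun M => ?_
        have hSi : Infinite S := hS.to_subtype
        let e : ℕ ↪o ℕ := Nat.orderEmbeddingOfSet S
        have heS : ∀ n, e n ∈ S := fun n => by
          have : e n ∈ Set.range (Nat.orderEmbeddingOfSet S) := ⟨n, rfl⟩
          rwa [Nat.orderEmbeddingOfSet_range] at this
        obtain ⟨o⟩ : Nonempty X := inferInstance
        obtain ⟨n, -, hn⟩ := sparse_norm hG o (fun k => (σ ^ (e k)) g)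
          (fun a b hab => e.injective (hinj hab)) (by
            intro p q
            by_cases hne : ∃ k0, ((σ ^ (e k0)) g) • p = q
            · obtain ⟨k0, hk0⟩ := hne
              have h1 := hSf _ ⟨p, rfl⟩ ((σ ^ (e k0)) g)
              refine (h1.preimage (f := e) e.injective.injOn).subset ?_
              intro k hk
              refine ⟨heS k, ?_⟩
              have hk' : ((σ ^ (e k)) g) • p = q := hk
              rw [MulAction.mem_stabilizer_iff, mul_smul, hk', ← hk0, inv_smul_smul]
            · convert Set.finite_empty (α := ℕ)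
              ext k
              simp only [Set.mem_ofPred_eq, Set.mem_empty_iff_false, iff_false]
              exact fun h => hne ⟨k, h⟩) M
        refine ⟨fun k => e (n k), fun c hc => ?_⟩
        choose c' hc' hc'' using fun k : Fin M => hit (e (n k)) g
        have h3 : ∀ k, ‖c k * c' k‖ ≤ 1 := fun k => by
          rw [norm_mul, hc' k, mul_one]; exact hc k
        have h2 := hn (fun k => ((‖c k * c' k‖ : ℝ) : ℂ)) (fun k => by
          rw [Complex.norm_real, norm_norm]; exact h3 k)
        have h4 := hu.norm_sum_le (fun k => (σ ^ (e (n k))) g) (fun k => c k * c' k)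
          (by positivity) h2
        refine le_trans (le_of_eq ?_) h4
        congr 1
        refine Finset.sum_congr rfl fun k _ => ?_
        rw [hc'' k, smul_smul]
      · exact hlin g m hm hφ
    · obtain ⟨i, j, hij, hne⟩ : ∃ i j : ℕ, (σ ^ i) g = (σ ^ j) g ∧ i ≠ j := by
        simpa [Function.Injective] using hinj
      wlog hlt : i < j generalizing i j
      · exact this j i hij.symm hne.symm (by omega)
      obtain ⟨m, rfl⟩ : ∃ m, j = i + m := ⟨j - i, by omega⟩
      have h1 : (σ ^ m) g = g := by
        rw [pow_add, MulAut.mul_apply] at hij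
        exact ((σ ^ i).injective hij).symm
      refine hlin g m (by omega) ?_
      rw [h1, inv_mul_cancel, map_one]
  have hS : ∀ x ∈ Submodule.span ℂ (Set.range u), PP α x := by
    intro x hx
    induction hx using Submodule.span_induction with
    | mem x hx => obtain ⟨g, rfl⟩ := hx; exact hgen g
    | zero => exact PP.zero α
    | add x y _ _ hx hy => exact hx.add hy
    | smul c x _ hx => exact hx.smul c
  intro x
  refine PP.closed α hS x ?_
  rw [hu.dense]
  trivial

end Pool.Agent.W726.NS
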