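import Pool.Agent.W726.NS.Conv

/-! The projective line as a space of projections, and the action of `SL(2, ℝ)`. -/

set_option autoImplicit false
set_option linter.unusedSectionVars false

namespace Pool.Agent.W726.NS

open Matrix Filter Topology Set
open scoped MatrixGroups

abbrev M2 : Type := Matrix (Fin 2) (Fin 2) ℝ

/-- the real projective line: the projections of rank one in the real two by two matrices -/
def P1 : Type := {P : M2 // Pᵀ = P ∧ P.trace = 1 ∧ P.det = 0}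

instance : TopologicalSpace P1 :=
  inferInstanceAs (TopologicalSpace {P : M2 // Pᵀ = P ∧ P.trace = 1 ∧ P.det = 0})

instance : T2Space P1 := inferInstanceAs (T2Space {P : M2 // Pᵀ = P ∧ P.trace = 1 ∧ P.det = 0})

lemma isClosed_P1 : IsClosed {P : M2 | Pᵀ = P ∧ P.trace = 1 ∧ P.det = 0} := by
  have h1 : IsClosed {P : M2 | Pᵀ = P} := isClosed_eq (by fun_prop) (by fun_prop)
  have h2 : IsClosed {P : M2 | P.trace = 1} := isClosed_eq (by fun_prop) (by fun_prop)
  have h3 : IsClosed {P : M2 | P.det = 0} := isClosed_eq (by fun_prop) (by fun_prop)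
  exact h1.inter (h2.inter h3)

lemma sym_01 {P : M2} (h : Pᵀ = P) : P 1 0 = P 0 1 := by
  have := congrFun (congrFun h 0) 1
  simpa [Matrix.transpose_apply] using this

lemma isCompact_P1 : IsCompact {P : M2 | Pᵀ = P ∧ P.trace = 1 ∧ P.det = 0} := by
  have hK : IsCompact (Set.pi Set.univ (fun _ : Fin 2 => Set.pi Set.univ
      (fun _ : Fin 2 => Icc (-1 : ℝ) 1)) : Set (Fin 2 → Fin 2 → ℝ)) :=
    isCompact_univ_pi fun _ => isCompact_univ_pi fun _ => isCompact_Icc
  refine hK.of_isClosed_subset isClosed_P1 ?_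
  rintro (P : M2) ⟨h1, h2, h3⟩
  have e1 := sym_01 h1
  rw [Matrix.trace_fin_two] at h2
  rw [Matrix.det_fin_two, e1] at h3
  have b0 : 0 ≤ P 0 0 := by nlinarith [sq_nonneg (P 0 1), sq_nonneg (P 0 0)]
  have b1 : 0 ≤ P 1 1 := by nlinarith [sq_nonneg (P 0 1), sq_nonneg (P 1 1)]
  have b2 : (P 0 1) ^ 2 ≤ 1 := by nlinarith
  have b3 : |P 0 1| ≤ 1 := by
    rw [← abs_one, ← sq_le_sq, one_pow]; exact b2
  rw [abs_le] at b3
  intro i _ j _
  fin_cases i <;> fin_cases j
  · show P 0 0 ∈ Icc (-1 : ℝ) 1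
    exact ⟨by linarith, by linarith⟩
  · show P 0 1 ∈ Icc (-1 : ℝ) 1
    exact b3
  · show P 1 0 ∈ Icc (-1 : ℝ) 1
    rw [e1]; exact b3
  · show P 1 1 ∈ Icc (-1 : ℝ) 1
    exact ⟨by linarith, by linarith⟩

instance : CompactSpace P1 := isCompact_iff_compactSpace.mp isCompact_P1

instance : Infinite P1 := by
  have h : ∀ n : ℕ, (1 + (n : ℝ) ^ 2) ≠ 0 := fun n => by positivity
  refine Infinite.of_injective (fun n : ℕ => (⟨!![1 / (1 + (n : ℝ) ^ 2), n / (1 + (n : ℝ) ^ 2);
    n / (1 + (n : ℝ) ^ 2), (n : ℝ) ^ 2 / (1 + (n : ℝ) ^ 2)], ?_, ?_, ?_⟩ : P1)) ?_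
  · ext i j
    fin_cases i <;> fin_cases j <;> simp
  · rw [Matrix.trace_fin_two]
    simp only [of_apply, cons_val', cons_val_zero, cons_val_one, cons_val_fin_one]
    field_simp [h n]
  · rw [Matrix.det_fin_two]
    simp only [of_apply, cons_val', cons_val_zero, cons_val_one, cons_val_fin_one]
    field_simp [h n]
    ring
  · intro m n hmn
    have h1 := congrFun (congrFun (congrArg Subtype.val hmn) 0) 0
    simp only [of_apply, cons_val', cons_val_zero, cons_val_one, cons_val_fin_one] at h1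
    have h2 : (1 + (m : ℝ) ^ 2) = (1 + (n : ℝ) ^ 2) := by
      have := h m
      have := h n
      field_simp at h1
      linarith
    have h3 : (m : ℝ) ^ 2 = (n : ℝ) ^ 2 := by linarith
    have h4 : m ^ 2 = n ^ 2 := by exact_mod_cast h3
    exact Nat.pow_left_injective (n := 2) (by norm_num) h4

/-- the projective action, on all matrices -/
noncomputable def Phi (A P : M2) : M2 := (A * P * Aᵀ).trace⁻¹ • (A * P * Aᵀ)

lemma sym_zero {M : M2} (h1 : Mᵀ = M) (h2 : M.det = 0) (h3 : M.trace = 0) : M = 0 := by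
  have e1 := sym_01 h1
  rw [Matrix.trace_fin_two] at h3
  rw [Matrix.det_fin_two, e1] at h2
  have h4 : M 1 1 = - M 0 0 := by linarith
  rw [h4] at h2
  have h5 : (M 0 0) ^ 2 + (M 0 1) ^ 2 = 0 := by linarith [h2]
  have h6 : M 0 0 = 0 := by nlinarith [sq_nonneg (M 0 0), sq_nonneg (M 0 1)]
  have h7 : M 0 1 = 0 := by nlinarith [sq_nonneg (M 0 0), sq_nonneg (M 0 1)]
  ext i j
  fin_cases i <;> fin_cases j
  · exact h6
  · exact h7
  · show M 1 0 = 0
    rw [e1]; exact h7
  · show M 1 1 = 0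
    rw [h4, h6, neg_zero]

lemma conj_sym {A P : M2} (hP : Pᵀ = P) : (A * P * Aᵀ)ᵀ = A * P * Aᵀ := by
  rw [Matrix.transpose_mul, Matrix.transpose_mul, Matrix.transpose_transpose, hP,
    Matrix.mul_assoc]

lemma conj_det {A P : M2} (hP : P.det = 0) : (A * P * Aᵀ).det = 0 := by
  rw [Matrix.det_mul, Matrix.det_mul, hP, mul_zero, zero_mul]

lemma trace_ne_zero {A P : M2} (hA : IsUnit A.det) (hP : Pᵀ = P ∧ P.trace = 1 ∧ P.det = 0) :
    (A * P * Aᵀ).trace ≠ 0 := by
  intro h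
  have h0 := sym_zero (conj_sym (A := A) hP.1) (conj_det hP.2.2) h
  have h1 : P = A⁻¹ * (A * P * Aᵀ) * (Aᵀ)⁻¹ := by
    have hA' : IsUnit (Aᵀ).det := by rwa [Matrix.det_transpose]
    rw [Matrix.mul_assoc A, ← Matrix.mul_assoc A⁻¹, Matrix.nonsing_inv_mul _ hA, Matrix.one_mul,
      Matrix.mul_assoc, Matrix.mul_nonsing_inv _ hA', Matrix.mul_one]
  rw [h0, Matrix.mul_zero, Matrix.zero_mul] at h1
  have := hP.2.1
  rw [h1, Matrix.trace_zero] at this
  norm_num at this

lemma Phi_mem {A P : M2} (hP : Pᵀ = P ∧ P.trace = 1 ∧ P.det = 0)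
    (ht : (A * P * Aᵀ).trace ≠ 0) :
    (Phi A P)ᵀ = Phi A P ∧ (Phi A P).trace = 1 ∧ (Phi A P).det = 0 := by
  refine ⟨?_, ?_, ?_⟩
  · rw [Phi, Matrix.transpose_smul, conj_sym hP.1]
  · rw [Phi, Matrix.trace_smul, smul_eq_mul, inv_mul_cancel₀ ht]
  · rw [Phi, Matrix.det_smul, conj_det hP.2.2, mul_zero]

lemma Phi_smul {c : ℝ} (hc : c ≠ 0) (A P : M2) : Phi (c • A) P = Phi A P := by
  rw [Phi, Phi]
  have e : (c • A) * P * (c • A)ᵀ = (c * c) • (A * P * Aᵀ) := by
    rw [Matrix.transpose_smul, Matrix.smul_mul, Matrix.smul_mul, Matrix.mul_smul, smul_smul]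
  rw [e, Matrix.trace_smul, smul_smul, smul_eq_mul, mul_inv]
  congr 1
  field_simp

lemma Phi_smul_right {c : ℝ} (hc : c ≠ 0) (A P : M2) : Phi A (c • P) = Phi A P := by
  rw [Phi, Phi]
  have e : A * (c • P) * Aᵀ = c • (A * P * Aᵀ) := by
    rw [Matrix.mul_smul, Matrix.smul_mul]
  rw [e, Matrix.trace_smul, smul_smul, smul_eq_mul, mul_inv]
  congr 1
  field_simp

lemma Phi_mul {A B P : M2} (hB : (B * P * Bᵀ).trace ≠ 0) :
    Phi (A * B) P = Phi A (Phi B P) := by
  conv_rhs => rw [Phi.eq_def B P]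
  rw [Phi_smul_right (inv_ne_zero hB), Phi, Phi]
  have e : A * B * P * (A * B)ᵀ = A * (B * P * Bᵀ) * Aᵀ := by
    rw [Matrix.transpose_mul]; simp only [Matrix.mul_assoc]
  rw [e]

lemma Phi_one {P : M2} (hP : P.trace = 1) : Phi 1 P = P := by
  rw [Phi, Matrix.transpose_one, Matrix.mul_one, Matrix.one_mul, hP, inv_one, one_smul]

lemma isUnit_det (A : SL(2, ℝ)) : IsUnit (A : M2).det := by
  rw [A.2]; exact isUnit_one

noncomputable instance : MulAction SL(2, ℝ) P1 where
  smul A P := ⟨Phi A P.1, Phi_mem P.2 (trace_ne_zero (isUnit_det A) P.2)⟩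
  one_smul P := by
    apply Subtype.ext
    show Phi ((1 : SL(2, ℝ)) : M2) P.1 = P.1
    rw [Matrix.SpecialLinearGroup.coe_one]
    exact Phi_one P.2.2.1
  mul_smul A B P := by
    apply Subtype.ext
    show Phi ((A * B : SL(2, ℝ)) : M2) P.1 = Phi A (Phi B P.1)
    rw [Matrix.SpecialLinearGroup.coe_mul]
    exact Phi_mul (trace_ne_zero (isUnit_det B) P.2)

lemma smul_val (A : SL(2, ℝ)) (P : P1) : (A • P).1 = Phi A P.1 := rfl

lemma Phi_continuousAt {N P : M2} (h : (N * P * Nᵀ).trace ≠ 0) :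
    ContinuousAt (fun z : M2 × M2 => Phi z.1 z.2) (N, P) := by
  have h1 : Continuous (fun z : M2 × M2 => z.1 * z.2 * z.1ᵀ) :=
    (continuous_fst.matrix_mul continuous_snd).matrix_mul continuous_fst.matrix_transpose
  have h2 : Continuous (fun z : M2 × M2 => (z.1 * z.2 * z.1ᵀ).trace) := h1.matrix_trace
  have h3 : ContinuousAt (fun z : M2 × M2 => ((z.1 * z.2 * z.1ᵀ).trace)⁻¹) (N, P) :=
    ContinuousAt.inv₀ h2.continuousAt h
  have h4 : ContinuousAt (fun z : M2 × M2 => z.1 * z.2 * z.1ᵀ) (N, P) := h1.continuousAt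
  exact ContinuousAt.smul h3 h4

lemma continuous_smul_P1 (A : SL(2, ℝ)) : Continuous (fun P : P1 => A • P) := by
  refine Continuous.subtype_mk ?_ _
  rw [continuous_iff_continuousAt]
  intro P
  have h := Phi_continuousAt (trace_ne_zero (isUnit_det A) P.2)
  have h2 : ContinuousAt (fun P : P1 => ((A : M2), P.1)) P :=
    (continuous_const.prodMk continuous_subtype_val).continuousAt
  exact ContinuousAt.comp (x := P) (f := fun P : P1 => ((A : M2), P.1))
    (g := fun z : M2 × M2 => Phi z.1 z.2) h h2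

/-- collapse of a singular matrix -/
lemma rank_one {N P : M2} (hN : N.det = 0) (hN1 : (N * Nᵀ).trace = 1) (hP : Pᵀ = P) :
    N * P * Nᵀ = (N * P * Nᵀ).trace • (N * Nᵀ) := by
  have e1 := sym_01 hP
  rw [Matrix.det_fin_two] at hN
  rw [Matrix.trace_fin_two] at hN1
  simp only [Matrix.mul_apply, Fin.sum_univ_two, Matrix.transpose_apply] at hN1
  ext i j
  rw [Matrix.trace_fin_two]
  simp only [Matrix.smul_apply, Matrix.mul_apply, Fin.sum_univ_two, Matrix.transpose_apply,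
    smul_eq_mul, e1]
  set p := N 0 0
  set q := N 0 1
  set r := N 1 0
  set s := N 1 1
  set x := P 0 0
  set y := P 0 1
  set z := P 1 1
  fin_cases i <;> fin_cases j
  · show (p * x + q * y) * p + (p * y + q * z) * q = _ * (p * p + q * q)
    linear_combination (-(p * p * x + 2 * p * q * y + q * q * z)) * hN1 +
      ((p * s + q * r) * (x - z) + 2 * (q * s - p * r) * y) * hN
  · show (p * x + q * y) * r + (p * y + q * z) * s = _ * (p * r + q * s)
    linear_combination (-(p * r * x + (p * s + q * r) * y + q * s * z)) * hN1 +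
      ((r * s - p * q) * (x - z) + (p ^ 2 - q ^ 2 - r ^ 2 + s ^ 2) * y) * hN
  · show (r * x + s * y) * p + (r * y + s * z) * q = _ * (r * p + s * q)
    linear_combination (-(p * r * x + (p * s + q * r) * y + q * s * z)) * hN1 +
      ((r * s - p * q) * (x - z) + (p ^ 2 - q ^ 2 - r ^ 2 + s ^ 2) * y) * hN
  · show (r * x + s * y) * r + (r * y + s * z) * s = _ * (r * r + s * s)
    linear_combination (-(r * r * x + 2 * r * s * y + s * s * z)) * hN1 -
      ((p * s + q * r) * (x - z) + 2 * (q * s - p * r) * y) * hN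

/-- the point collapsed by a singular matrix -/
lemma rank_one_ker {N P : M2} (hN : N.det = 0) (hN1 : (N * Nᵀ).trace = 1)
    (hP : Pᵀ = P ∧ P.trace = 1 ∧ P.det = 0) (h : (N * P * Nᵀ).trace = 0) :
    P = 1 - Nᵀ * N := by
  obtain ⟨hP1, hP2, hP3⟩ := hP
  have e1 := sym_01 hP1
  rw [Matrix.det_fin_two] at hN
  rw [Matrix.det_fin_two, e1] at hP3
  rw [Matrix.trace_fin_two] at hN1 hP2 h
  simp only [Matrix.mul_apply, Fin.sum_univ_two, Matrix.transpose_apply, e1] at hN1 h
  have hz : P 1 1 = 1 - P 0 0 := by linarith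
  rw [hz] at hP3 h
  set p := N 0 0 with hp
  set q := N 0 1 with hq
  set r := N 1 0 with hr
  set s := N 1 1 with hs
  set x := P 0 0 with hx
  set y := P 0 1 with hy
  -- the sum of squares of the distances
  have k1 : (p ^ 2 + r ^ 2) * (q ^ 2 + s ^ 2) = (p * q + r * s) ^ 2 := by
    linear_combination (p * s - q * r) * hN
  have k2 : (x + (p ^ 2 + r ^ 2) - 1) ^ 2 + (y + (p * q + r * s)) ^ 2 = 0 := by
    have k3 : q ^ 2 + s ^ 2 = 1 - (p ^ 2 + r ^ 2) := by linarith
    rw [k3] at k1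
    have h' : (p ^ 2 + r ^ 2) * x + 2 * (p * q + r * s) * y + (q ^ 2 + s ^ 2) * (1 - x) = 0 := by
      linarith
    rw [k3] at h'
    nlinarith
  have k4 : x + (p ^ 2 + r ^ 2) - 1 = 0 := by
    nlinarith [sq_nonneg (x + (p ^ 2 + r ^ 2) - 1), sq_nonneg (y + (p * q + r * s))]
  have k5 : y + (p * q + r * s) = 0 := by
    nlinarith [sq_nonneg (x + (p ^ 2 + r ^ 2) - 1), sq_nonneg (y + (p * q + r * s))]
  ext i j
  rw [Matrix.sub_apply, Matrix.mul_apply, Fin.sum_univ_two]
  simp only [Matrix.transpose_apply]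
  fin_cases i <;> fin_cases j
  · show x = (1 : M2) 0 0 - (p * p + r * r)
    rw [Matrix.one_apply_eq]; linarith
  · show y = (1 : M2) 0 1 - (p * q + r * s)
    rw [Matrix.one_apply_ne (by decide)]; linarith
  · show P 1 0 = (1 : M2) 1 0 - (q * p + s * r)
    rw [Matrix.one_apply_ne (by decide), e1]; linarith
  · show P 1 1 = (1 : M2) 1 1 - (q * q + s * s)
    rw [Matrix.one_apply_eq, hz]; linarith

end Pool.Agent.W726.NS
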