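import Pool.Agent.H379R3.CStarReg

/-! Norm bounds for sums of translations of `ℓ²(G)`. -/

set_option autoImplicit false
set_option linter.unusedSectionVars false

namespace Pool.Agent.W726.NS

open Pool.Agent.H379R3.CS Finset
open scoped ENNReal

variable {G : Type*} [Group G]

lemma two_toReal_pos : 0 < (2 : ℝ≥0∞).toReal := by norm_num

lemma norm_sq_eq (f : L2 G) : ‖f‖ ^ 2 = ∑' x, ‖(f : G → ℂ) x‖ ^ 2 := by
  have h := lp.norm_rpow_eq_tsum two_toReal_pos f
  have e : (2 : ℝ≥0∞).toReal = 2 := by norm_num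
  rw [e] at h
  have h2 : ∀ t : ℝ, t ^ (2 : ℝ) = t ^ 2 := fun t => by
    rw [← Real.rpow_natCast]; norm_num
  simp only [h2] at h
  exact h

lemma summable_sq (f : L2 G) : Summable (fun x => ‖(f : G → ℂ) x‖ ^ 2) := by
  have h := (memℓp_gen_iff two_toReal_pos).mp f.2
  have e : (2 : ℝ≥0∞).toReal = 2 := by norm_num
  rw [e] at h
  have h2 : ∀ t : ℝ, t ^ (2 : ℝ) = t ^ 2 := fun t => by
    rw [← Real.rpow_natCast]; norm_num
  simp only [h2] at h
  exact h

open Classical in
lemma memlp_cut (D : Set G) (f : L2 G) :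
    Memℓp (fun x => if x ∈ D then (f : G → ℂ) x else 0) 2 := by
  have h := (memℓp_gen_iff two_toReal_pos).mp f.2
  rw [memℓp_gen_iff two_toReal_pos]
  refine Summable.of_nonneg_of_le (fun x => by positivity) (fun x => ?_) h
  split_ifs
  · exact le_rfl
  · rw [norm_zero, Real.zero_rpow two_toReal_pos.ne']
    positivity

open Classical in
/-- restriction to a set -/
noncomputable def cut (D : Set G) : L2 G →L[ℂ] L2 G :=
  LinearMap.mkContinuous
    { toFun := fun f => ⟨fun x => if x ∈ D then (f : G → ℂ) x else 0, memlp_cut D f⟩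
      map_add' := fun f g => by
        apply lp.ext
        funext x
        change (if x ∈ D then ((f + g : L2 G) : G → ℂ) x else 0) =
          (if x ∈ D then (f : G → ℂ) x else 0) + (if x ∈ D then (g : G → ℂ) x else 0)
        split_ifs
        · rfl
        · simp
      map_smul' := fun c f => by
        apply lp.ext
        funext x
        change (if x ∈ D then ((c • f : L2 G) : G → ℂ) x else 0) =
          c • (if x ∈ D then (f : G → ℂ) x else 0)
        split_ifs
        · rfl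
        · simp } 1 (by
    intro f
    rw [one_mul]
    refine le_of_sq_le_sq ?_ (norm_nonneg _)
    rw [norm_sq_eq, norm_sq_eq]
    refine Summable.tsum_le_tsum (fun x => ?_) (summable_sq _) (summable_sq _)
    change ‖(if x ∈ D then (f : G → ℂ) x else 0)‖ ^ 2 ≤ _
    split_ifs
    · exact le_rfl
    · simp)

open Classical in
lemma cut_apply (D : Set G) (f : L2 G) (x : G) :
    (cut D f : G → ℂ) x = if x ∈ D then (f : G → ℂ) x else 0 := rfl

lemma star_cut (D : Set G) : star (cut D) = cut D := by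
  classical
  rw [ContinuousLinearMap.star_eq_adjoint]
  symm
  rw [ContinuousLinearMap.eq_adjoint_iff]
  intro u v
  rw [lp.inner_eq_tsum, lp.inner_eq_tsum]
  congr 1
  funext x
  rw [cut_apply, cut_apply]
  split_ifs <;> simp

lemma cut_mul_shift (D : Set G) (x : G) :
    cut D * shift x⁻¹ = shift x⁻¹ * cut {y | x⁻¹ * y ∈ D} := by
  classical
  ext f z
  change (cut D (shift x⁻¹ f) : G → ℂ) z = (shift x⁻¹ (cut {y | x⁻¹ * y ∈ D} f) : G → ℂ) z
  rw [cut_apply, shift_apply, shift_apply, cut_apply]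
  simp

lemma norm_shift_apply (x : G) (f : L2 G) : ‖shift x f‖ = ‖f‖ := by
  have h : ‖shift x f‖ ^ 2 = ‖f‖ ^ 2 := by
    rw [norm_sq_eq, norm_sq_eq]
    exact (Equiv.mulLeft x⁻¹).tsum_eq (fun z => ‖(f : G → ℂ) z‖ ^ 2)
  exact (sq_eq_sq₀ (norm_nonneg _) (norm_nonneg _)).mp h

/-- disjoint restrictions -/
lemma sum_cut_le {M : ℕ} (D : Fin M → Set G) (hD : ∀ i j, i ≠ j → Disjoint (D i) (D j))
    (f : L2 G) : ∑ k, ‖cut (D k) f‖ ^ 2 ≤ ‖f‖ ^ 2 := by
  classical
  simp only [norm_sq_eq]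
  rw [← Summable.tsum_finsetSum (fun k _ => summable_sq _)]
  refine Summable.tsum_le_tsum (fun x => ?_) (summable_sum fun k _ => summable_sq _)
    (summable_sq _)
  simp only [cut_apply]
  by_cases h : ∃ k, x ∈ D k
  · obtain ⟨k, hk⟩ := h
    rw [Finset.sum_eq_single k]
    · rw [if_pos hk]
    · intro j _ hj
      rw [if_neg]
      · simp
      · intro hxj
        exact Set.disjoint_left.mp (hD j k hj) hxj hk
    · simp
  · push Not at h
    rw [Finset.sum_eq_zero]
    · positivity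
    · intro k _
      rw [if_neg (h k)]
      simp

/-- **the source-disjoint bound** -/
lemma norm_source {M : ℕ} (x : Fin M → G) (c : Fin M → ℂ) (hc : ∀ k, ‖c k‖ ≤ 1)
    (D : Fin M → Set G) (hD : ∀ i j, i ≠ j → Disjoint (D i) (D j)) :
    ‖∑ k, c k • (shift (x k) * cut (D k))‖ ≤ Real.sqrt M := by
  refine ContinuousLinearMap.opNorm_le_bound _ (Real.sqrt_nonneg _) fun f => ?_
  rw [_root_.sum_apply]
  have h1 : ‖∑ k, (c k • (shift (x k) * cut (D k))) f‖ ≤ ∑ k, 1 * ‖cut (D k) f‖ := by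
    refine (norm_sum_le _ _).trans (Finset.sum_le_sum fun k _ => ?_)
    rw [_root_.smul_apply, norm_smul]
    have : ‖(shift (x k) * cut (D k)) f‖ = ‖cut (D k) f‖ := norm_shift_apply _ _
    rw [this]
    exact mul_le_mul_of_nonneg_right (hc k) (norm_nonneg _)
  have h2 : (∑ k, 1 * ‖cut (D k) f‖) ^ 2 ≤ (∑ _k : Fin M, (1 : ℝ) ^ 2) * ∑ k, ‖cut (D k) f‖ ^ 2 :=
    Finset.sum_mul_sq_le_sq_mul_sq _ _ _
  have h3 : (∑ k, 1 * ‖cut (D k) f‖) ^ 2 ≤ (Real.sqrt M * ‖f‖) ^ 2 := by
    refine h2.trans ?_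
    rw [mul_pow, Real.sq_sqrt (by positivity)]
    simp only [one_pow, Finset.sum_const, Finset.card_univ, Fintype.card_fin, nsmul_eq_mul, mul_one]
    exact mul_le_mul_of_nonneg_left (sum_cut_le D hD f) (by positivity)
  exact h1.trans (le_of_sq_le_sq h3 (by positivity))

/-- **the target-disjoint bound** -/
lemma norm_target {M : ℕ} (x : Fin M → G) (c : Fin M → ℂ) (hc : ∀ k, ‖c k‖ ≤ 1)
    (D : Fin M → Set G)
    (hD : ∀ i j, i ≠ j → Disjoint {y | (x i)⁻¹ * y ∈ D i} {y | (x j)⁻¹ * y ∈ D j}) :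
    ‖∑ k, c k • (shift (x k) * cut (D k))‖ ≤ Real.sqrt M := by
  rw [← norm_star, star_sum]
  have h : ∑ k, star (c k • (shift (x k) * cut (D k))) =
      ∑ k, star (c k) • (shift ((x k)⁻¹) * cut {y | (x k)⁻¹ * y ∈ D k}) := by
    refine Finset.sum_congr rfl fun k _ => ?_
    rw [star_smul, star_mul, star_cut, star_shift, cut_mul_shift]
  rw [h]
  exact norm_source (fun k => (x k)⁻¹) (fun k => star (c k)) (fun k => by rw [norm_star]; exact hc k)
    _ hD

/-- **the four part bound**: the sources are divided into four parts, two of which are disjoint in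
the source and two of which are disjoint in the target -/
theorem norm_four {M : ℕ} (x : Fin M → G) (c : Fin M → ℂ) (hc : ∀ k, ‖c k‖ ≤ 1)
    (A B C F : Fin M → Set G)
    (hA : ∀ i j, i ≠ j → Disjoint (A i) (A j)) (hC : ∀ i j, i ≠ j → Disjoint (C i) (C j))
    (hB : ∀ i j, i ≠ j → Disjoint {y | (x i)⁻¹ * y ∈ B i} {y | (x j)⁻¹ * y ∈ B j})
    (hF : ∀ i j, i ≠ j → Disjoint {y | (x i)⁻¹ * y ∈ F i} {y | (x j)⁻¹ * y ∈ F j})
    (hp : ∀ k (f : L2 G), f = cut (A k) f + cut (B k) f + cut (C k) f + cut (F k) f) :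
    ‖∑ k, c k • (shift (x k) : L2 G →L[ℂ] L2 G)‖ ≤ 4 * Real.sqrt M := by
  have h : ∑ k, c k • (shift (x k) : L2 G →L[ℂ] L2 G) =
      ∑ k, c k • (shift (x k) * cut (A k)) + ∑ k, c k • (shift (x k) * cut (B k)) +
      ∑ k, c k • (shift (x k) * cut (C k)) + ∑ k, c k • (shift (x k) * cut (F k)) := by
    rw [← Finset.sum_add_distrib, ← Finset.sum_add_distrib, ← Finset.sum_add_distrib]
    refine Finset.sum_congr rfl fun k _ => ?_
    rw [← smul_add, ← smul_add, ← smul_add, ← mul_add, ← mul_add, ← mul_add]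
    congr 1
    have : cut (A k) + cut (B k) + cut (C k) + cut (F k) = (1 : L2 G →L[ℂ] L2 G) := by
      apply ContinuousLinearMap.ext
      intro f
      exact (hp k f).symm
    rw [this, mul_one]
  rw [h]
  have h1 := norm_source x c hc A hA
  have h2 := norm_target x c hc B hB
  have h3 := norm_source x c hc C hC
  have h4 := norm_target x c hc F hF
  refine (norm_add_le _ _).trans ?_
  refine (add_le_add (norm_add_le _ _) le_rfl).trans ?_
  refine (add_le_add (add_le_add (norm_add_le _ _) le_rfl) le_rfl).trans ?_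
  linarith

end Pool.Agent.W726.NS
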